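import Mathlib

/-!
An injective holomorphic function has non-vanishing derivative.
-/

namespace Pool.Agent.StarN

open Complex Metric Set Filter Topology

lemma deriv_ne_zero_of_injOn {f : ℂ → ℂ} {U : Set ℂ} {z0 : ℂ} (hU : U ∈ 𝓝 z0)
    (hf : AnalyticAt ℂ f z0) (hinj : InjOn f U) : deriv f z0 ≠ 0 := by
  intro hder
  set h : ℂ → ℂ := fun z => f z - f z0 with hh
  have hha : AnalyticAt ℂ h z0 := hf.sub analyticAt_const
  have hz0U : z0 ∈ U := mem_of_mem_nhds hU
  -- the order is finite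
  have hfin : analyticOrderAt h z0 ≠ ⊤ := by
    intro htop
    rw [analyticOrderAt_eq_top] at htop
    have h1 : ∀ᶠ z in 𝓝[≠] z0, z = z0 := by
      have h2 : ∀ᶠ z in 𝓝 z0, z = z0 := by
        filter_upwards [htop, hU] with z hz hzU
        exact hinj hzU hz0U (by
          have : f z - f z0 = 0 := hz
          linear_combination this)
      exact h2.filter_mono nhdsWithin_le_nhds
    have h3 : ∀ᶠ z in 𝓝[≠] z0, z ≠ z0 := self_mem_nhdsWithin
    have h4 := (h1.and h3)
    obtain ⟨z, hz1, hz2⟩ := h4.exists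
    exact hz2 hz1
  obtain ⟨n, hn⟩ := ENat.ne_top_iff_exists.mp hfin
  obtain ⟨g, hg, hg0, hgeq⟩ := (hha.analyticOrderAt_eq_natCast (n := n)).mp hn.symm
  have hn0 : n ≠ 0 := by
    rintro rfl
    have := hgeq.self_of_nhds
    simp [hh] at this
    exact hg0 this.symm
  have hn1 : n ≠ 1 := by
    rintro rfl
    have h1 : h =ᶠ[𝓝 z0] fun z => (z - z0) * g z := by
      filter_upwards [hgeq] with z hz
      rw [hz, pow_one, smul_eq_mul]
    have h2 : HasDerivAt (fun z => (z - z0) * g z) (1 * g z0 + (z0 - z0) * deriv g z0) z0 :=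
      ((hasDerivAt_id z0).sub_const z0).mul hg.differentiableAt.hasDerivAt
    have h3 : deriv h z0 = g z0 := by
      rw [h1.deriv_eq, h2.deriv]; ring
    have h4 : deriv h z0 = deriv f z0 := by
      simp only [hh]
      exact deriv_sub_const _
    rw [h4, hder] at h3
    exact hg0 h3.symm
  have hn2 : 2 ≤ n := by omega
  have hnC : (n : ℂ) ≠ 0 := by exact_mod_cast hn0
  -- the root
  set r : ℂ → ℂ := fun z => Complex.exp (Complex.log (g z / g z0) / n) with hr
  have hslit : g z0 / g z0 ∈ Complex.slitPlane := by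
    rw [div_self hg0]; exact Complex.one_mem_slitPlane
  have hra : AnalyticAt ℂ r z0 := by
    have h1 : AnalyticAt ℂ (fun z => g z / g z0) z0 := hg.div analyticAt_const hg0
    exact ((h1.clog hslit).div analyticAt_const hnC).cexp
  have hr0 : r z0 = 1 := by
    simp only [hr]
    rw [div_self hg0, Complex.log_one, zero_div, Complex.exp_zero]
  have hrn : ∀ᶠ z in 𝓝 z0, r z ^ n = g z / g z0 := by
    have : ∀ᶠ z in 𝓝 z0, g z ≠ 0 := hg.continuousAt.eventually_ne hg0
    filter_upwards [this] with z hz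
    simp only [hr]
    rw [← Complex.exp_nat_mul, mul_div_cancel₀ _ hnC, Complex.exp_log (div_ne_zero hz hg0)]
  set φ : ℂ → ℂ := fun z => (z - z0) * r z with hφ
  have hφa : AnalyticAt ℂ φ z0 := (analyticAt_id.sub analyticAt_const).mul hra
  have hφd : HasDerivAt φ (1 * r z0 + (z0 - z0) * deriv r z0) z0 :=
    ((hasDerivAt_id z0).sub_const z0).mul hra.differentiableAt.hasDerivAt
  have hφ1 : deriv φ z0 = 1 := by
    rw [hφd.deriv, hr0]; ring
  have hφs : HasStrictDerivAt φ 1 z0 := by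
    have := hφa.hasStrictDerivAt
    rwa [hφ1] at this
  have hmap := hφs.map_nhds_eq one_ne_zero
  have hφ0 : φ z0 = 0 := by simp [hφ]
  rw [hφ0] at hmap
  set V : Set ℂ := U ∩ {z | h z = (z - z0) ^ n • g z} ∩ {z | r z ^ n = g z / g z0} with hV
  have hVn : V ∈ 𝓝 z0 := inter_mem (inter_mem hU hgeq) hrn
  have himg : φ '' V ∈ 𝓝 (0 : ℂ) := by
    rw [← hmap]; exact image_mem_map hVn
  obtain ⟨ρ, hρ0, hρ⟩ := Metric.mem_nhds_iff.mp himg
  set s : ℂ := ((ρ / 2 : ℝ) : ℂ) with hs
  have hsn : ‖s‖ = ρ / 2 := by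
    rw [hs, Complex.norm_real, Real.norm_eq_abs, abs_of_pos (by linarith)]
  have hs0 : s ≠ 0 := by
    rw [← norm_pos_iff, hsn]; linarith
  set ω : ℂ := Complex.exp (2 * Real.pi * I / n) with hω
  have hωprim : IsPrimitiveRoot ω n := Complex.isPrimitiveRoot_exp n hn0
  have hωn : ω ^ n = 1 := hωprim.pow_eq_one
  have hω1 : ω ≠ 1 := hωprim.ne_one (by omega)
  have hωnorm : ‖ω‖ = 1 := hωprim.norm'_eq_one hn0
  obtain ⟨z1, hz1V, hz1⟩ := hρ (show s ∈ ball (0 : ℂ) ρ by
    rw [mem_ball_zero_iff, hsn]; linarith)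
  obtain ⟨z2, hz2V, hz2⟩ := hρ (show s * ω ∈ ball (0 : ℂ) ρ by
    rw [mem_ball_zero_iff, norm_mul, hωnorm, hsn]; linarith)
  have hval : ∀ z ∈ V, h z = g z0 * φ z ^ n := by
    intro z hz
    have e1 : h z = (z - z0) ^ n • g z := hz.1.2
    have e2 : r z ^ n = g z / g z0 := hz.2
    rw [e1, smul_eq_mul]
    simp only [hφ]
    rw [mul_pow, e2]
    field_simp
  have h1 := hval z1 hz1V
  have h2 := hval z2 hz2V
  rw [hz1] at h1
  rw [hz2, mul_pow, hωn, mul_one] at h2
  have h3 : h z1 = h z2 := by rw [h1, h2]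
  have h4 : f z1 = f z2 := by
    have : f z1 - f z0 = f z2 - f z0 := h3
    linear_combination this
  have h5 : z1 = z2 := hinj hz1V.1.1 hz2V.1.1 h4
  rw [h5, hz2] at hz1
  apply hω1
  have : s * (ω - 1) = 0 := by linear_combination hz1
  rcases mul_eq_zero.mp this with h | h
  · exact absurd h hs0
  · linear_combination h

end Pool.Agent.StarN
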