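import Mathlib

/-!
A soft growth lemma: a zero-free holomorphic function on a disc of radius one, bounded by
`exp (K L)`, and which is bounded above and below near one point, is bounded by `exp (ε L)` at each
other point, if `L` is large.
-/

namespace Pool.Agent.StarN

open Complex Metric Set Filter Topology

/-- holomorphic logarithms on the unit disc -/
lemma exists_log_ball {g : ℂ → ℂ} (hg : DifferentiableOn ℂ g (ball 0 1))
    (h0 : ∀ w ∈ ball (0 : ℂ) 1, g w ≠ 0) :
    ∃ h : ℂ → ℂ, DifferentiableOn ℂ h (ball 0 1) ∧ h 0 = 0 ∧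
      ∀ w ∈ ball (0 : ℂ) 1, g w = g 0 * Complex.exp (h w) := by
  have hd : DifferentiableOn ℂ (fun w => deriv g w / g w) (ball 0 1) :=
    (hg.deriv isOpen_ball).div hg h0
  obtain ⟨h, hh0, hh⟩ := (hd.isExactOn_ball).with_val_at 0 0
  refine ⟨h, fun w hw => (hh w hw).differentiableAt.differentiableWithinAt, hh0, ?_⟩
  have hmem0 : (0 : ℂ) ∈ ball (0 : ℂ) 1 := by simp
  have key : ∀ w ∈ ball (0 : ℂ) 1, g w * Complex.exp (-h w) = g 0 * Complex.exp (-h 0) := by
    intro w hw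
    have hder : ∀ x ∈ ball (0 : ℂ) 1, HasDerivAt (fun x => g x * Complex.exp (-h x)) 0 x := by
      intro x hx
      have h1 : HasDerivAt g (deriv g x) x :=
        (hg.differentiableAt (isOpen_ball.mem_nhds hx)).hasDerivAt
      have h2 : HasDerivAt (fun x => Complex.exp (-h x))
          (Complex.exp (-h x) * (-(deriv g x / g x))) x := ((hh x hx).neg).cexp
      have h3 := h1.mul h2
      have hgx := h0 x hx
      have e : deriv g x * Complex.exp (-h x) + g x * (Complex.exp (-h x) * (-(deriv g x / g x)))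
          = 0 := by
        field_simp
        ring
      rw [e] at h3
      exact h3
    have hc := (convex_ball (0 : ℂ) 1).is_const_of_fderivWithin_eq_zero (𝕜 := ℂ)
      (f := fun x => g x * Complex.exp (-h x))
      (fun x hx => (hder x hx).differentiableAt.differentiableWithinAt) (fun x hx => by
        rw [fderivWithin_of_isOpen isOpen_ball hx]
        ext
        simp [(hder x hx).deriv]) hw hmem0
    exact hc
  intro w hw
  have h1 := key w hw
  rw [hh0, neg_zero, Complex.exp_zero, mul_one] at h1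
  rw [← h1, mul_assoc, ← Complex.exp_add]
  simp

/-- Hadamard's three circles theorem -/
lemma three_circles {h : ℂ → ℂ} (hh : DifferentiableOn ℂ h (ball 0 1)) {ρ R a b : ℝ}
    (hρ : 0 < ρ) (hρR : ρ < R) (hR : R < 1) (ha : ∀ w, ‖w‖ = ρ → ‖h w‖ ≤ a)
    (hb : ∀ w, ‖w‖ = R → ‖h w‖ ≤ b) {w : ℂ} (h1 : ρ ≤ ‖w‖) (h2 : ‖w‖ ≤ R) :
    ‖h w‖ ≤ a ^ (1 - (Real.log ‖w‖ - Real.log ρ) / (Real.log R - Real.log ρ)) *
      b ^ ((Real.log ‖w‖ - Real.log ρ) / (Real.log R - Real.log ρ)) := by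
  have hR0 : 0 < R := hρ.trans hρR
  have hul : Real.log ρ < Real.log R := Real.log_lt_log hρ hρR
  have hmaps : ∀ s ∈ HadamardThreeLines.verticalClosedStrip (Real.log ρ) (Real.log R),
      Complex.exp s ∈ closedBall (0 : ℂ) R := by
    intro s hs
    rw [mem_closedBall_zero_iff, Complex.norm_exp, ← Real.exp_log hR0]
    exact Real.exp_le_exp.mpr hs.2
  have hsub : closedBall (0 : ℂ) R ⊆ ball 0 1 := closedBall_subset_ball hR
  have hclosed : IsClosed (HadamardThreeLines.verticalClosedStrip (Real.log ρ) (Real.log R)) :=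
    isClosed_Icc.preimage Complex.continuous_re
  have hclos : closure (HadamardThreeLines.verticalStrip (Real.log ρ) (Real.log R)) ⊆
      HadamardThreeLines.verticalClosedStrip (Real.log ρ) (Real.log R) := by
    refine closure_minimal ?_ hclosed
    intro s hs
    exact ⟨hs.1.le, hs.2.le⟩
  have hd : DiffContOnCl ℂ (h ∘ Complex.exp)
      (HadamardThreeLines.verticalStrip (Real.log ρ) (Real.log R)) := by
    apply DifferentiableOn.diffContOnCl
    refine hh.comp Complex.differentiable_exp.differentiableOn ?_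
    intro s hs
    exact hsub (hmaps s (hclos hs))
  have hB : BddAbove ((norm ∘ (h ∘ Complex.exp)) ''
      HadamardThreeLines.verticalClosedStrip (Real.log ρ) (Real.log R)) := by
    have hc : ContinuousOn (fun w => ‖h w‖) (closedBall 0 R) :=
      ((hh.mono hsub).continuousOn).norm
    obtain ⟨B, hB⟩ := (isCompact_closedBall (0 : ℂ) R).bddAbove_image hc
    refine ⟨B, ?_⟩
    rintro _ ⟨s, hs, rfl⟩
    exact hB ⟨Complex.exp s, hmaps s hs, rfl⟩
  have hw0 : 0 < ‖w‖ := hρ.trans_le h1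
  have hwne : w ≠ 0 := norm_pos_iff.mp hw0
  have hexp : Complex.exp (Complex.log w) = w := Complex.exp_log hwne
  have hz : Complex.log w ∈ HadamardThreeLines.verticalClosedStrip (Real.log ρ) (Real.log R) := by
    constructor
    · show Real.log ρ ≤ (Complex.log w).re
      rw [Complex.log_re]; exact Real.log_le_log hρ h1
    · show (Complex.log w).re ≤ Real.log R
      rw [Complex.log_re]; exact Real.log_le_log hw0 h2
  have := HadamardThreeLines.norm_le_interp_of_mem_verticalClosedStrip' (f := h ∘ Complex.exp)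
    (z := Complex.log w) (a := a) (b := b) hul hz hd hB
    (fun s hs => ha _ (by
      rw [Complex.norm_exp, show s.re = Real.log ρ from hs, Real.exp_log hρ]))
    (fun s hs => hb _ (by
      rw [Complex.norm_exp, show s.re = Real.log R from hs, Real.exp_log hR0]))
  simpa [Function.comp, hexp, Complex.log_re] using this

/-- the elementary growth comparison used below -/
lemma rpow_small {A B c θ ε : ℝ} (hA : 0 ≤ A) (hB : 0 ≤ B) (hc : 0 ≤ c) (hθ0 : 0 ≤ θ)
    (hθ : θ < 1) (hε : 0 < ε) :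
    ∃ L0 : ℝ, 1 ≤ L0 ∧ ∀ L ≥ L0, A * (B * L + c) ^ θ ≤ ε * L := by
  have h1 : Tendsto (fun L : ℝ => A * (B + c) ^ θ * L ^ (-(1 - θ))) atTop (𝓝 0) := by
    have := (tendsto_rpow_neg_atTop (y := 1 - θ) (by linarith)).const_mul (A * (B + c) ^ θ)
    simpa using this
  have h2 := h1.eventually (gt_mem_nhds hε)
  obtain ⟨L1, hL1⟩ := (h2.and (eventually_ge_atTop (1 : ℝ))).exists_forall_of_atTop
  refine ⟨max L1 1, le_max_right _ _, fun L hL => ?_⟩
  have hL' : L1 ≤ L := (le_max_left _ _).trans hL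
  have hL1' : 1 ≤ L := (le_max_right _ _).trans hL
  have hpos : 0 < L := by linarith
  obtain ⟨h3, -⟩ := hL1 L hL'
  have h4 : (B * L + c) ^ θ ≤ (B + c) ^ θ * L ^ θ := by
    rw [← Real.mul_rpow (by positivity) hpos.le]
    apply Real.rpow_le_rpow (by positivity) _ hθ0
    nlinarith
  have h5 : L ^ θ = L ^ (-(1 - θ)) * L := by
    rw [show θ = -(1 - θ) + 1 by ring, Real.rpow_add hpos, Real.rpow_one]
    ring_nf
  calc A * (B * L + c) ^ θ ≤ A * ((B + c) ^ θ * L ^ θ) := by gcongr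
    _ = (A * (B + c) ^ θ * L ^ (-(1 - θ))) * L := by rw [h5]; ring
    _ ≤ ε * L := by gcongr

/-- the soft lemma, base point in the centre -/
lemma soft0 (w0 : ℂ) (hw0 : ‖w0‖ < 1) (K C ρ ε : ℝ) (hK : 0 ≤ K) (hC : 1 ≤ C) (hρ : 0 < ρ)
    (hε : 0 < ε) : ∃ L0 : ℝ, ∀ L ≥ L0, ∀ g : ℂ → ℂ, DifferentiableOn ℂ g (ball 0 1) →
      (∀ w ∈ ball (0 : ℂ) 1, g w ≠ 0) → (∀ w ∈ ball (0 : ℂ) 1, ‖g w‖ ≤ Real.exp (K * L)) →
      (∀ w ∈ ball (0 : ℂ) 1, ‖w‖ < ρ → ‖g w‖ ≤ C) → 1 / C ≤ ‖g 0‖ →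
      ‖g w0‖ ≤ Real.exp (ε * L) := by
  set ρ' : ℝ := min ρ (1 / 2) with hρ'
  have hρ'0 : 0 < ρ' := lt_min hρ (by norm_num)
  have hρ'1 : ρ' ≤ 1 / 2 := min_le_right _ _
  have hρ'ρ : ρ' ≤ ρ := min_le_left _ _
  set R : ℝ := (1 + max ‖w0‖ ρ') / 2 with hR
  have hmax1 : max ‖w0‖ ρ' < 1 := max_lt hw0 (by linarith)
  have hR1 : R < 1 := by rw [hR]; linarith
  have hRmax : max ‖w0‖ ρ' < R := by rw [hR]; linarith
  have hRw : ‖w0‖ < R := (le_max_left _ _).trans_lt hRmax
  have hRρ : ρ' < R := (le_max_right _ _).trans_lt hRmax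
  have hR0 : 0 < R := hρ'0.trans hRρ
  set lC : ℝ := Real.log C with hlC
  have hlC0 : 0 ≤ lC := Real.log_nonneg hC
  set M : ℝ := 2 * lC + 1 with hM
  have hM0 : 0 < M := by positivity
  set θ : ℝ := (Real.log (max ‖w0‖ (ρ' / 2)) - Real.log (ρ' / 2)) /
    (Real.log R - Real.log (ρ' / 2)) with hθ
  have hmaxpos : 0 < max ‖w0‖ (ρ' / 2) := lt_max_of_lt_right (by positivity)
  have hden : 0 < Real.log R - Real.log (ρ' / 2) := by
    have := Real.log_lt_log (by positivity : 0 < ρ' / 2) (by linarith : ρ' / 2 < R)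
    linarith
  have hθ0 : 0 ≤ θ := by
    apply div_nonneg _ hden.le
    have := Real.log_le_log (by positivity : 0 < ρ' / 2) (le_max_right ‖w0‖ (ρ' / 2))
    linarith
  have hθ1 : θ < 1 := by
    rw [hθ, div_lt_one hden]
    have := Real.log_lt_log hmaxpos (max_lt hRw (by linarith) : max ‖w0‖ (ρ' / 2) < R)
    linarith
  -- constants
  set D : ℝ := 2 * R / (1 - R) with hD
  have hD0 : 0 ≤ D := by
    apply div_nonneg (by positivity); linarith
  obtain ⟨L1, hL1a, hL1⟩ := rpow_small (A := (2 * M) ^ (1 - θ)) (B := D * K)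
    (c := D * (lC + 1)) (θ := θ) (ε := ε / 2) (by positivity) (by positivity) (by positivity)
    hθ0 hθ1 (by positivity)
  refine ⟨max L1 ((2 * M + lC) / (ε / 2)), fun L hL g hg hg0 hgK hgC hgb => ?_⟩
  have hLL1 : L1 ≤ L := (le_max_left _ _).trans hL
  have hLpos : 0 < L := by linarith
  have hLb : 2 * M + lC ≤ ε / 2 * L := by
    have : (2 * M + lC) / (ε / 2) ≤ L := (le_max_right _ _).trans hL
    rw [div_le_iff₀ (by positivity)] at this
    linarith
  have hmem0 : (0 : ℂ) ∈ ball (0 : ℂ) 1 := by simp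
  obtain ⟨h, hhd, hh0, hgh⟩ := exists_log_ball hg hg0
  have hg0pos : 0 < ‖g 0‖ := norm_pos_iff.mpr (hg0 0 hmem0)
  have hCpos : 0 < C := by linarith
  -- real parts
  have hre : ∀ w ∈ ball (0 : ℂ) 1, (h w).re = Real.log ‖g w‖ - Real.log ‖g 0‖ := by
    intro w hw
    rw [hgh w hw, norm_mul, Complex.norm_exp, Real.log_mul hg0pos.ne' (Real.exp_pos _).ne',
      Real.log_exp]
    ring
  have hlg0 : -lC ≤ Real.log ‖g 0‖ := by
    have := Real.log_le_log (by positivity) hgb
    rwa [one_div, Real.log_inv] at this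
  have hlg0' : Real.log ‖g 0‖ ≤ lC :=
    Real.log_le_log hg0pos (hgC 0 hmem0 (by simpa using hρ))
  have hre1 : ∀ w ∈ ball (0 : ℂ) 1, (h w).re ≤ K * L + lC := by
    intro w hw
    rw [hre w hw]
    have := Real.log_le_log (norm_pos_iff.mpr (hg0 w hw)) (hgK w hw)
    rw [Real.log_exp] at this
    linarith
  have hre2 : ∀ w ∈ ball (0 : ℂ) 1, ‖w‖ < ρ → (h w).re ≤ 2 * lC := by
    intro w hw hwρ
    rw [hre w hw]
    have := Real.log_le_log (norm_pos_iff.mpr (hg0 w hw)) (hgC w hw hwρ)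
    linarith
  -- Borel–Carathéodory twice
  have hbc1 : ∀ w : ℂ, ‖w‖ ≤ ρ' / 2 → ‖h w‖ ≤ 2 * M := by
    intro w hw
    have hwb : w ∈ ball (0 : ℂ) ρ' := by
      rw [mem_ball_zero_iff]; linarith
    have := borelCaratheodory_zero (f := h) (M := M) (R := ρ') (z := w) hM0
      (hhd.mono (ball_subset_ball (by linarith))) (fun x hx => by
        have hx1 : x ∈ ball (0 : ℂ) 1 := ball_subset_ball (by linarith) hx
        have hx2 : ‖x‖ < ρ := (mem_ball_zero_iff.mp hx).trans_le hρ'ρ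
        have := hre2 x hx1 hx2
        show (h x).re ≤ M
        linarith) hρ'0 hwb hh0
    refine this.trans ?_
    rw [div_le_iff₀ (by linarith)]
    nlinarith
  have hKL : 0 < K * L + lC + 1 := by positivity
  have hbc2 : ∀ w : ℂ, ‖w‖ = R → ‖h w‖ ≤ D * K * L + D * (lC + 1) := by
    intro w hw
    have hwb : w ∈ ball (0 : ℂ) 1 := by
      rw [mem_ball_zero_iff]; linarith
    have := borelCaratheodory_zero (f := h) (M := K * L + lC + 1) (R := 1) (z := w) hKL
      hhd (fun x hx => by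
        have := hre1 x hx
        show (h x).re ≤ _
        linarith) one_pos hwb hh0
    refine this.trans (le_of_eq ?_)
    rw [hw, hD]
    have : (1 - R) ≠ 0 := by linarith
    field_simp
    ring
  have hnorm : ‖g w0‖ ≤ Real.exp (lC + ‖h w0‖) := by
    have hw0b : w0 ∈ ball (0 : ℂ) 1 := by rw [mem_ball_zero_iff]; exact hw0
    rw [hgh w0 hw0b, norm_mul, Complex.norm_exp, Real.exp_add]
    have h1 : ‖g 0‖ ≤ Real.exp lC := by
      rw [hlC, Real.exp_log hCpos]
      exact hgC 0 hmem0 (by simpa using hρ)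
    have h2 : Real.exp (h w0).re ≤ Real.exp ‖h w0‖ :=
      Real.exp_le_exp.mpr (Complex.re_le_norm _)
    gcongr
  refine hnorm.trans (Real.exp_le_exp.mpr ?_)
  by_cases hcase : ‖w0‖ ≤ ρ' / 2
  · have := hbc1 w0 hcase
    nlinarith
  · push Not at hcase
    have hmx : max ‖w0‖ (ρ' / 2) = ‖w0‖ := max_eq_left hcase.le
    have h3 := three_circles hhd (ρ := ρ' / 2) (R := R) (a := 2 * M)
      (b := D * K * L + D * (lC + 1)) (by positivity) (by linarith) hR1
      (fun w hw => hbc1 w hw.le) hbc2 hcase.le hRw.le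
    rw [← hmx, ← hθ] at h3
    have h4 := hL1 L hLL1
    have : 0 < M := hM0
    nlinarith

/-- the basic inequality for disc automorphisms -/
lemma moebius_lt {w b : ℂ} (hw : ‖w‖ < 1) (hb : ‖b‖ < 1) :
    1 + (starRingEnd ℂ) b * w ≠ 0 ∧ ‖(w + b) / (1 + (starRingEnd ℂ) b * w)‖ < 1 := by
  have h1 : ‖(starRingEnd ℂ) b * w‖ < 1 := by
    rw [norm_mul, Complex.norm_conj]
    calc ‖b‖ * ‖w‖ ≤ 1 * ‖w‖ := by gcongr
      _ < 1 := by linarith
  have hne : 1 + (starRingEnd ℂ) b * w ≠ 0 := by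
    intro h
    have : (starRingEnd ℂ) b * w = -1 := by linear_combination h
    rw [this] at h1
    simp at h1
  refine ⟨hne, ?_⟩
  rw [norm_div, div_lt_one (norm_pos_iff.mpr hne)]
  have h2 : ‖w + b‖ ^ 2 < ‖1 + (starRingEnd ℂ) b * w‖ ^ 2 := by
    have hw2 : ‖w‖ ^ 2 < 1 := by nlinarith [norm_nonneg w]
    have hb2 : ‖b‖ ^ 2 < 1 := by nlinarith [norm_nonneg b]
    rw [Complex.sq_norm] at hw2 hb2
    rw [Complex.sq_norm, Complex.sq_norm]
    simp only [Complex.normSq_apply, Complex.add_re, Complex.add_im, Complex.mul_re,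
      Complex.mul_im, Complex.conj_re, Complex.conj_im, Complex.one_re, Complex.one_im] at *
    nlinarith [mul_pos (sub_pos.mpr hw2) (sub_pos.mpr hb2)]
  exact lt_of_pow_lt_pow_left₀ 2 (norm_nonneg _) h2

/-- The soft lemma. -/
lemma soft (a μ0 μ : ℂ) (hμ0 : ‖μ0 - a‖ < 1) (hμ : ‖μ - a‖ < 1) (K C ρ ε : ℝ) (hK : 0 ≤ K)
    (hC : 1 ≤ C) (hρ : 0 < ρ) (hε : 0 < ε) :
    ∃ L0 : ℝ, ∀ L ≥ L0, ∀ g : ℂ → ℂ, DifferentiableOn ℂ g (ball a 1) →
      (∀ w ∈ ball a 1, g w ≠ 0) → (∀ w ∈ ball a 1, ‖g w‖ ≤ Real.exp (K * L)) →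
      (∀ w ∈ ball a 1, ‖w - μ0‖ < ρ → ‖g w‖ ≤ C) → 1 / C ≤ ‖g μ0‖ →
      ‖g μ‖ ≤ Real.exp (ε * L) := by
  set b : ℂ := μ0 - a with hb
  set c : ℂ := μ - a with hc
  let φ : ℂ → ℂ := fun w => a + (w + b) / (1 + (starRingEnd ℂ) b * w)
  have hφd : DifferentiableOn ℂ φ (ball 0 1) := by
    intro w hw
    have hne := (moebius_lt (mem_ball_zero_iff.mp hw) hμ0).1
    exact ((differentiableAt_const a).add
      ((differentiableAt_id.add (differentiableAt_const b)).div
        ((differentiableAt_const 1).add ((differentiableAt_const _).mul differentiableAt_id))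
        hne)).differentiableWithinAt
  have hφm : MapsTo φ (ball 0 1) (ball a 1) := by
    intro w hw
    rw [mem_ball_iff_norm]
    simpa [φ] using (moebius_lt (mem_ball_zero_iff.mp hw) hμ0).2
  have hφ0 : φ 0 = μ0 := by simp [φ, hb]
  -- the preimage of `μ`
  have hnb : ‖-b‖ < 1 := by rw [norm_neg]; exact hμ0
  obtain ⟨hw0ne, hw0⟩ := moebius_lt hμ hnb
  set w0 : ℂ := (c + -b) / (1 + (starRingEnd ℂ) (-b) * c) with hw0def
  have hφw0 : φ w0 = μ := by
    have hbb : (1 : ℂ) - (starRingEnd ℂ) b * b ≠ 0 := by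
      intro h
      have h1 : (starRingEnd ℂ) b * b = ((‖b‖ ^ 2 : ℝ) : ℂ) := by
        rw [mul_comm, Complex.mul_conj, Complex.normSq_eq_norm_sq]
      rw [h1] at h
      have h2 : (1 : ℝ) - ‖b‖ ^ 2 = 0 := by exact_mod_cast h
      have : ‖b‖ ^ 2 < 1 := by nlinarith [norm_nonneg b]
      linarith
    have hne : 1 - (starRingEnd ℂ) b * c ≠ 0 := by
      have h := hw0ne
      rw [map_neg] at h
      intro h'
      apply h
      linear_combination h'
    have hne' : 1 - c * (starRingEnd ℂ) b ≠ 0 := by rwa [mul_comm]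
    have e0 : w0 = (c - b) / (1 - (starRingEnd ℂ) b * c) := by
      rw [hw0def, map_neg]; ring_nf
    have h1 : w0 + b = c * (1 - (starRingEnd ℂ) b * b) / (1 - (starRingEnd ℂ) b * c) := by
      rw [e0]
      field_simp
      ring
    have h2 : 1 + (starRingEnd ℂ) b * w0 =
        (1 - (starRingEnd ℂ) b * b) / (1 - (starRingEnd ℂ) b * c) := by
      rw [e0]
      field_simp
      ring
    have h3 : (w0 + b) / (1 + (starRingEnd ℂ) b * w0) = c := by
      rw [h1, h2]
      field_simp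
    show a + (w0 + b) / (1 + (starRingEnd ℂ) b * w0) = μ
    rw [h3, hc]; ring
  -- a small disc
  have hcont : ContinuousAt φ 0 :=
    (hφd.differentiableAt (isOpen_ball.mem_nhds (by simp))).continuousAt
  obtain ⟨ρ', hρ'0, hρ'⟩ := Metric.continuousAt_iff.mp hcont ρ hρ
  obtain ⟨L0, hL0⟩ := soft0 w0 hw0 K C ρ' ε hK hC hρ'0 hε
  refine ⟨L0, fun L hL g hg hg0 hgK hgC hgb => ?_⟩
  have := hL0 L hL (g ∘ φ) (hg.comp hφd hφm) (fun w hw => hg0 _ (hφm hw))
    (fun w hw => hgK _ (hφm hw)) (fun w hw hwρ => hgC _ (hφm hw) (by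
      have := hρ' (x := w) (by rw [dist_zero_right]; exact hwρ)
      rwa [hφ0, dist_eq_norm] at this)) (by
      show 1 / C ≤ ‖g (φ 0)‖
      rw [hφ0]; exact hgb)
  rwa [Function.comp_apply, hφw0] at this

end Pool.Agent.StarN
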