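import Pool.Agent.StarN.DiscU
import Pool.Agent.StarN.InjDeriv

/-!
Atoms of mass `1` and `1/2`; the functions `z / ((1 - x̄ z)(1 - ȳ z))`.
-/

namespace Pool.Agent.StarN

open Complex Metric Set Filter Topology MeasureTheory

variable {m : Measure 𝕊} [IsProbabilityMeasure m] {F : ℂ → ℂ}

/-- integrals against a measure concentrated on `{x, y}` -/
lemma integral_pair {x y : 𝕊} (hxy : x ≠ y) (h : m.real {x} + m.real {y} = 1) {f : 𝕊 → ℂ}
    (hf : Integrable f m) :
    ∫ ζ, f ζ ∂m = m.real {x} * f x + m.real {y} * f y := by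
  have hmeas : MeasurableSet ({x, y} : Set 𝕊) := (Set.toFinite _).measurableSet
  have hpair : m.real ({x, y} : Set 𝕊) = 1 := by
    have : ({x, y} : Set 𝕊) = {x} ∪ {y} := rfl
    rw [this, measureReal_union (by simpa using hxy) (measurableSet_singleton y), h]
  have hc : m ({x, y} : Set 𝕊)ᶜ = 0 := by
    have h1 : m.real ({x, y} : Set 𝕊)ᶜ = 0 := by
      rw [probReal_compl_eq_one_sub hmeas, hpair]; ring
    rwa [measureReal_eq_zero_iff] at h1
  rw [← integral_add_compl hmeas hf]
  have h2 : ∫ ζ in ({x, y} : Set 𝕊)ᶜ, f ζ ∂m = 0 := by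
    rw [Measure.restrict_eq_zero.mpr hc, integral_zero_measure]
  rw [h2, add_zero]
  have : ({x, y} : Set 𝕊) = {x} ∪ {y} := rfl
  rw [this, setIntegral_union (by simpa using hxy) (measurableSet_singleton y) hf.integrableOn
    hf.integrableOn, integral_singleton, integral_singleton]
  simp

lemma integral_one {x : 𝕊} (h : m.real {x} = 1) {f : 𝕊 → ℂ}
    (hf : Integrable f m) : ∫ ζ, f ζ ∂m = f x := by
  have hmeas : MeasurableSet ({x} : Set 𝕊) := measurableSet_singleton x
  have hc : m ({x} : Set 𝕊)ᶜ = 0 := by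
    have h1 : m.real ({x} : Set 𝕊)ᶜ = 0 := by
      rw [probReal_compl_eq_one_sub hmeas, h]; ring
    rwa [measureReal_eq_zero_iff] at h1
  rw [← integral_add_compl hmeas hf]
  have h2 : ∫ ζ in ({x} : Set 𝕊)ᶜ, f ζ ∂m = 0 := by
    rw [Measure.restrict_eq_zero.mpr hc, integral_zero_measure]
  rw [h2, add_zero, integral_singleton, h]
  simp

/-- the functions of the two-slit type -/
noncomputable def slitF (x y : 𝕊) (z : ℂ) : ℂ :=
  z / ((1 - (starRingEnd ℂ) (x : ℂ) * z) * (1 - (starRingEnd ℂ) (y : ℂ) * z))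

lemma starF_one {x : 𝕊} (h : m.real {x} = 1) {z : ℂ} (hz : ‖z‖ < 1) :
    starF m z = slitF x x z := by
  change z * Complex.exp (-2 * ∫ ζ : 𝕊, Complex.log (lf ζ z) ∂m) = z / (lf x z * lf x z)
  rw [integral_one h (integrable_of_cont (continuous_log_lf hz))]
  rw [show -2 * Complex.log (lf x z) = -(Complex.log (lf x z) + Complex.log (lf x z)) by ring,
    Complex.exp_neg, Complex.exp_add, Complex.exp_log (lf_ne x hz)]
  rw [div_eq_mul_inv]

lemma starF_two {x y : 𝕊} (hxy : x ≠ y) (hx : m.real {x} = 1 / 2) (hy : m.real {y} = 1 / 2)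
    {z : ℂ} (hz : ‖z‖ < 1) : starF m z = slitF x y z := by
  change z * Complex.exp (-2 * ∫ ζ : 𝕊, Complex.log (lf ζ z) ∂m) = z / (lf x z * lf y z)
  rw [integral_pair hxy (by rw [hx, hy]; norm_num) (integrable_of_cont (continuous_log_lf hz)),
    hx, hy]
  rw [show (-2 : ℂ) * (((1 / 2 : ℝ) : ℂ) * Complex.log (lf x z) +
    ((1 / 2 : ℝ) : ℂ) * Complex.log (lf y z)) =
    -(Complex.log (lf x z) + Complex.log (lf y z)) by push_cast; ring,
    Complex.exp_neg, Complex.exp_add, Complex.exp_log (lf_ne x hz), Complex.exp_log (lf_ne y hz)]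
  rw [div_eq_mul_inv]

/-- power series of `z / ((1 - a z)(1 - b z))` -/
lemma tc_slitF (x y : 𝕊) (n : ℕ) :
    tc (slitF x y) n = ∑ i ∈ Finset.range n,
      (starRingEnd ℂ) (x : ℂ) ^ i * (starRingEnd ℂ) (y : ℂ) ^ (n - 1 - i) := by
  set a : ℂ := (starRingEnd ℂ) (x : ℂ) with ha
  set b : ℂ := (starRingEnd ℂ) (y : ℂ) with hb
  have han : ‖a‖ = 1 := by rw [ha, Complex.norm_conj, norm_coe]
  have hbn : ‖b‖ = 1 := by rw [hb, Complex.norm_conj, norm_coe]
  refine tc_of_hasSum (a := fun n => ∑ i ∈ Finset.range n, a ^ i * b ^ (n - 1 - i))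
    (fun z hz => ?_) n
  rw [mem_ball_zero_iff] at hz
  have haz : ‖a * z‖ < 1 := by rw [norm_mul, han, one_mul]; exact hz
  have hbz : ‖b * z‖ < 1 := by rw [norm_mul, hbn, one_mul]; exact hz
  have h1 := summable_norm_geometric_of_norm_lt_one haz
  have h2 := summable_norm_geometric_of_norm_lt_one hbz
  have h3 := tsum_mul_tsum_eq_tsum_sum_range_of_summable_norm h1 h2
  have h4 := summable_norm_sum_mul_range_of_summable_norm h1 h2
  have h5 : HasSum (fun n => ∑ k ∈ Finset.range (n + 1), (a * z) ^ k * (b * z) ^ (n - k))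
      ((1 - a * z)⁻¹ * (1 - b * z)⁻¹) := by
    rw [← tsum_geometric_of_norm_lt_one haz, ← tsum_geometric_of_norm_lt_one hbz, h3]
    exact h4.of_norm.hasSum
  have h6 := h5.mul_left z
  have hval : z * ((1 - a * z)⁻¹ * (1 - b * z)⁻¹) = slitF x y z := by
    unfold slitF
    rw [div_eq_mul_inv, mul_inv]
  rw [hval] at h6
  refine (hasSum_nat_add_iff' 1).mp ?_
  simp only [Finset.range_one, Finset.sum_singleton, Finset.range_zero, Finset.sum_empty,
    zero_mul, sub_zero]
  have e : (fun n : ℕ => (∑ i ∈ Finset.range (n + 1), a ^ i * b ^ (n + 1 - 1 - i)) * z ^ (n + 1)) =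
      fun n : ℕ => z * ∑ k ∈ Finset.range (n + 1), (a * z) ^ k * (b * z) ^ (n - k) := by
    funext n
    rw [Finset.sum_mul, Finset.mul_sum]
    refine Finset.sum_congr rfl fun i hi => ?_
    have hi' : i ≤ n := by
      have := Finset.mem_range.mp hi
      omega
    rw [mul_pow, mul_pow, show n + 1 - 1 - i = n - i by omega]
    have : z ^ (n + 1) = z * (z ^ i * z ^ (n - i)) := by
      rw [← pow_add, Nat.add_sub_cancel' hi', pow_succ]; ring
    rw [this]; ring
  rw [e]; exact h6

/-- The functions `z / ((1 - x̄ z)(1 - ȳ z))` have property (N). -/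
theorem slitF_propN (x y : 𝕊) : PropN (slitF x y) := by
  intro f hf z hz hz1
  obtain ⟨hfd, hinj, hf0, hf1⟩ := hf
  have hzmem : z ∈ ball (0 : ℂ) 1 := by rw [mem_ball_zero_iff]; exact hz1
  have hz0 : z ≠ 0 := norm_pos_iff.mp hz
  set a : ℂ := (starRingEnd ℂ) (x : ℂ) with ha
  set b : ℂ := (starRingEnd ℂ) (y : ℂ) with hb
  have han : ‖a‖ = 1 := by rw [ha, Complex.norm_conj, norm_coe]
  have hbn : ‖b‖ = 1 := by rw [hb, Complex.norm_conj, norm_coe]
  have ha0 : a ≠ 0 := by rw [← norm_pos_iff, han]; norm_num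
  have haz : a * z ∈ ball (0 : ℂ) 1 := by
    rw [mem_ball_zero_iff, norm_mul, han, one_mul]; exact hz1
  have hbz : b * z ∈ ball (0 : ℂ) 1 := by
    rw [mem_ball_zero_iff, norm_mul, hbn, one_mul]; exact hz1
  by_cases hab : a = b
  · -- derivative
    have h1 : HasSum (fun n : ℕ => tc f n * n * (a * z) ^ n) ((a * z) * deriv f (a * z)) := by
      have h2 := (hasSum_tc (hfd.deriv isOpen_ball) haz).mul_left (a * z)
      refine (hasSum_nat_add_iff' 1).mp ?_
      simp only [Finset.range_one, Finset.sum_singleton, Nat.cast_zero, mul_zero, zero_mul,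
        sub_zero]
      have e : (fun n : ℕ => tc f (n + 1) * ((n + 1 : ℕ) : ℂ) * (a * z) ^ (n + 1)) =
          fun i : ℕ => (a * z) * (tc (deriv f) i * (a * z) ^ i) := by
        funext n
        rw [tc_deriv]
        push_cast
        ring
      rw [e]; exact h2
    have h3 : had (slitF x y) f z = a⁻¹ * ((a * z) * deriv f (a * z)) := by
      rw [← (h1.mul_left a⁻¹).tsum_eq]
      unfold had
      congr 1
      funext n
      rw [tc_slitF, ← ha, ← hb, ← hab]
      rcases n with _ | n
      · simp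
      · have h4 : ∑ i ∈ Finset.range (n + 1), a ^ i * a ^ (n + 1 - 1 - i) =
            ((n + 1 : ℕ) : ℂ) * a ^ n := by
          rw [Finset.sum_congr rfl (g := fun _ => a ^ n) (fun i hi => by
            have := Finset.mem_range.mp hi
            rw [← pow_add]
            congr 1
            omega)]
          simp
        rw [h4, mul_pow, pow_succ a]
        field_simp
    rw [h3]
    refine mul_ne_zero (inv_ne_zero ha0) (mul_ne_zero (mul_ne_zero ha0 hz0) ?_)
    exact deriv_ne_zero_of_injOn (isOpen_ball.mem_nhds haz)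
      (hfd.analyticAt (isOpen_ball.mem_nhds haz)) hinj
  · have hab0 : a - b ≠ 0 := sub_ne_zero.mpr hab
    have h1 := (hasSum_tc hfd haz).sub (hasSum_tc hfd hbz)
    have h3 : had (slitF x y) f z = (a - b)⁻¹ * (f (a * z) - f (b * z)) := by
      rw [← (h1.mul_left (a - b)⁻¹).tsum_eq]
      unfold had
      congr 1
      funext n
      rw [tc_slitF, ← ha, ← hb]
      have h4 := geom_sum₂_mul a b n
      rw [mul_pow, mul_pow, eq_inv_mul_iff_mul_eq₀ hab0]
      linear_combination (tc f n * z ^ n) * h4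
    rw [h3]
    refine mul_ne_zero (inv_ne_zero hab0) ?_
    intro h5
    have h6 : f (a * z) = f (b * z) := sub_eq_zero.mp h5
    have h7 := hinj haz hbz h6
    apply hab
    exact mul_right_cancel₀ hz0 h7

/-- Property (N) depends only on the Taylor coefficients. -/
lemma PropN.congr {F G : ℂ → ℂ} (hG : DifferentiableOn ℂ G (ball 0 1))
    (h : ∀ z ∈ ball (0 : ℂ) 1, F z = G z) (hN : PropN G) : PropN F := by
  intro f hf z hz hz1
  have e : ∀ n, tc F n = tc G n := fun n => by
    refine tc_of_hasSum (a := fun n => tc G n) (fun z hz => ?_) n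
    rw [h z hz]
    exact hasSum_tc hG hz
  have : had F f z = had G f z := by
    unfold had
    simp only [e]
  rw [this]
  exact hN f hf z hz hz1

lemma slitF_diff (x y : 𝕊) : DifferentiableOn ℂ (slitF x y) (ball 0 1) := by
  intro z hz
  rw [mem_ball_zero_iff] at hz
  unfold slitF
  refine DifferentiableAt.differentiableWithinAt ?_
  refine DifferentiableAt.div (by fun_prop) (by fun_prop) ?_
  exact mul_ne_zero (lf_ne x hz) (lf_ne y hz)

end Pool.Agent.StarN
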