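import Mathlib

/-!
MP_e32d41_an: star-like functions whose convolution with every univalent function is zero-free.
Definitions.
-/

namespace Pool.Agent.StarN

open Complex Metric Set MeasureTheory

/-- The class `S` of normalised univalent functions in the unit disc. -/
def ClassS : Set (ℂ → ℂ) :=
  {f | DifferentiableOn ℂ f (ball 0 1) ∧ InjOn f (ball 0 1) ∧ f 0 = 0 ∧ deriv f 0 = 1}

/-- The `n`-th Taylor coefficient at `0`. -/
noncomputable def tc (f : ℂ → ℂ) (n : ℕ) : ℂ := iteratedDeriv n f 0 / (n.factorial : ℂ)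

/-- The Hadamard product. -/
noncomputable def had (F f : ℂ → ℂ) (z : ℂ) : ℂ := ∑' n : ℕ, tc F n * tc f n * z ^ n

/-- Property (N): the Hadamard product with every function of the class `S` is zero-free in the
punctured disc. -/
def PropN (F : ℂ → ℂ) : Prop := ∀ f ∈ ClassS, ∀ z : ℂ, 0 < ‖z‖ → ‖z‖ < 1 → had F f z ≠ 0

/-- The unit circle. -/
abbrev 𝕊 : Type := sphere (0 : ℂ) 1

/-- The star-like function `z * exp (-2 ∫ log (1 - ζ̄ z) dm(ζ))` with representing measure `m`. -/
noncomputable def starF (m : Measure 𝕊) (z : ℂ) : ℂ :=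
  z * Complex.exp (-2 * ∫ ζ : 𝕊, Complex.log (1 - (starRingEnd ℂ) (ζ : ℂ) * z) ∂m)

end Pool.Agent.StarN
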