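import Pool.Agent.StarN.Parts

/-!
The measure of small balls around a point which is not an atom of mass `≥ 1/2`.
-/

namespace Pool.Agent.StarN

open Complex Metric Set Filter Topology MeasureTheory intervalIntegral Interval

variable {m : Measure 𝕊} [IsProbabilityMeasure m] {F : ℂ → ℂ}

lemma Gs_shift (b : ℕ → ℂ) (μ z : ℂ) :
    (1 + μ) * Gs b (1 + μ) z = Gs (fun n => b n * (n + μ)) μ z := by
  unfold Gs
  rw [← tsum_mul_left]
  congr 1
  funext n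
  have := q_shift μ n
  linear_combination (b n * z ^ n) * this

/-- the key inequality -/
lemma key_ineq (hb : ∀ n, ‖tc F n‖ ≤ n) (hd : DifferentiableOn ℂ F (ball 0 1))
    (hF : ∀ z ∈ ball (0 : ℂ) 1, F z = starF m z) {μ : ℝ} (hμ0 : 0 < μ) (hμ1 : μ < 1)
    {h : ℝ} (hh0 : 0 < h) (hh : h ≤ 1 / 16) :
    ‖κ (μ : ℂ)‖ * (μ * (4 * h * ((8 * h) ^ (-μ - 1) *
      (3 / 4 * m.real (closedBall e1 h) * (1 / 8))))) ≤
      ‖(1 + (μ : ℂ)) * Gs (tc F) (1 + (μ : ℂ)) ((1 - h : ℝ) : ℂ)‖ := by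
  set r : ℝ := 1 - h with hr
  have hrI : r ∈ Ioo (0 : ℝ) 1 := ⟨by linarith, by linarith⟩
  have h1r : 1 - r = h := by rw [hr]; ring
  have hb0 : tc F 0 = 0 := by
    have := hb 0
    simpa using this
  have hint := int_formula (μ := (μ : ℂ)) (N := 1) (Or.inl rfl) (by push_cast; simp; linarith)
    (by simpa using hμ1) (a := fun n => tc F n * (n + (μ : ℂ))) (fun n hn => by
      have : n = 0 := by omega
      rw [this, hb0, zero_mul])
    (r := r) hrI.1.le (H_summable hb hμ0 hμ1 hrI)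
  have hHint : (∫ t in (0 : ℝ)..1, W (μ : ℂ) t *
      ∑' n : ℕ, tc F n * (n + (μ : ℂ)) * ((t * r : ℝ) : ℂ) ^ n) =
      ∫ t in (0 : ℝ)..1, W (μ : ℂ) t * Hf F μ (t * r) := by
    refine intervalIntegral.integral_congr_ae ?_
    rw [uIoc_of_le zero_le_one]
    filter_upwards [ae_mem_Ioo] with t ht h
    have htr : t * r ∈ Ioo (0 : ℝ) 1 := mem_Ioo_mul (ht h) hrI
    rw [(hasSum_H hd μ htr.1.le htr.2).tsum_eq]
  rw [Gs_shift, hint, hHint, norm_mul]
  obtain ⟨C, hC0, hC⟩ := H_bd hb hd hμ0 hμ1 hrI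
  have hHc : ContinuousOn (fun t : ℝ => Hf F μ (t * r)) (Ioo 0 1) := by
    have hmaps : MapsTo (fun t : ℝ => ((t * r : ℝ) : ℂ)) (Ioo 0 1) (ball (0 : ℂ) 1) := by
      intro t ht
      rw [mem_ball_zero_iff]
      exact norm_real_lt (mem_Ioo_mul ht hrI)
    unfold Hf
    refine ContinuousOn.add (ContinuousOn.mul (by fun_prop) ?_) (continuousOn_const.mul ?_)
    · exact (hd.deriv isOpen_ball).continuousOn.comp (by fun_prop) hmaps
    · exact hd.continuousOn.comp (by fun_prop) hmaps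
  have hAint : IntervalIntegrable (fun t : ℝ => W (μ : ℂ) t * Hf F μ (t * r)) volume 0 1 := by
    refine W_integrable (N := 1) (c' := 0) (C := C) (by simp; linarith) (by simpa using hμ1)
      hHc (fun t ht => ?_)
    rw [pow_one, neg_zero, Real.rpow_zero, mul_one]
    exact hC t ⟨ht.1, ht.2.le⟩
  -- the direction
  have hmemr : (r : ℂ) ∈ ball (0 : ℂ) 1 := by
    rw [mem_ball_zero_iff]; exact norm_real_lt hrI
  have hFr : (1 / 8 : ℝ) ≤ ‖F (r : ℂ)‖ := by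
    rw [hF _ hmemr]
    refine le_trans ?_ (starF_lower hrI)
    rw [h1r]
    have e1 : 1 ≤ h ^ (-(2 * m.real {e1})) := by
      refine Real.one_le_rpow_of_pos_of_le_one_of_nonpos hh0 (by linarith) ?_
      have : 0 ≤ m.real {e1} := measureReal_nonneg
      linarith
    have e2 : 1 / 8 ≤ r / 4 := by linarith
    calc (1 / 8 : ℝ) ≤ r / 4 * 1 := by linarith
      _ ≤ _ := by
        have := hrI.1
        gcongr
  have hFr0 : F (r : ℂ) ≠ 0 := by
    intro h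
    rw [h, norm_zero] at hFr
    linarith
  have hFrn : ((‖F (r : ℂ)‖ : ℝ) : ℂ) ≠ 0 := by
    exact_mod_cast (norm_pos_iff.mpr hFr0).ne'
  set ω : ℂ := (starRingEnd ℂ) (F (r : ℂ)) / ((‖F (r : ℂ)‖ : ℝ) : ℂ) with hωdef
  have hω : ‖ω‖ = 1 := by
    rw [hωdef, norm_div, Complex.norm_conj, Complex.norm_real, norm_norm,
      div_self (norm_pos_iff.mpr hFr0).ne']
  have hωF : ω * F (r : ℂ) = ((‖F (r : ℂ)‖ : ℝ) : ℂ) := by
    rw [hωdef, div_mul_eq_mul_div, mul_comm ((starRingEnd ℂ) (F (r : ℂ))), Complex.mul_conj,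
      Complex.normSq_eq_norm_sq]
    rw [div_eq_iff hFrn]
    push_cast
    ring
  obtain ⟨hI1, hI2⟩ := re_int ω hAint
  obtain ⟨hp1, hp2⟩ := parts hb hd hω hμ0 hμ1 hrI hI2
  have hnorm : (ω * ∫ t in (0 : ℝ)..1, W (μ : ℂ) t * Hf F μ (t * r)).re ≤
      ‖∫ t in (0 : ℝ)..1, W (μ : ℂ) t * Hf F μ (t * r)‖ := by
    refine (Complex.re_le_norm _).trans ?_
    rw [norm_mul, hω, one_mul]
  rw [hI1, hp1] at hnorm
  have hpf1 : pf F ω μ r 1 = ‖F (r : ℂ)‖ := by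
    unfold pf
    rw [Real.one_rpow, one_mul, one_mul, hωF, Complex.ofReal_re]
  have hpft : ∀ t ∈ Ioo (0 : ℝ) 1, pf F ω μ r t ≤ ‖F ((t * r : ℝ) : ℂ)‖ := by
    intro t ht
    unfold pf
    have e1 : (ω * F ((t * r : ℝ) : ℂ)).re ≤ ‖F ((t * r : ℝ) : ℂ)‖ := by
      refine (Complex.re_le_norm _).trans ?_
      rw [norm_mul, hω, one_mul]
    have e2 : t ^ μ ≤ 1 := Real.rpow_le_one ht.1.le ht.2.le hμ0.le
    have e3 : 0 ≤ t ^ μ := Real.rpow_nonneg ht.1.le _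
    calc t ^ μ * (ω * F ((t * r : ℝ) : ℂ)).re ≤ t ^ μ * ‖F ((t * r : ℝ) : ℂ)‖ := by gcongr
      _ ≤ 1 * ‖F ((t * r : ℝ) : ℂ)‖ := by gcongr
      _ = _ := one_mul _
  have hFt : ∀ t ∈ Ioo (0 : ℝ) 1, F ((t * r : ℝ) : ℂ) = starF m ((t * r : ℝ) : ℂ) := by
    intro t ht
    rw [hF _ (by rw [mem_ball_zero_iff]; exact norm_real_lt (mem_Ioo_mul ht hrI))]
  have hnn : ∀ t ∈ Ioo (0 : ℝ) 1,
      0 ≤ (1 - t) ^ (-μ - 1) * (pf F ω μ r 1 - pf F ω μ r t) := by
    intro t ht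
    have h1t : 0 < 1 - t := by linarith [ht.2]
    refine mul_nonneg (Real.rpow_nonneg h1t.le _) ?_
    have e1 := hpft t ht
    have e2 := starF_mono (m := m) ht hrI
    rw [← hFt t ht, ← hF _ hmemr] at e2
    rw [hpf1]
    linarith
  set B : ℝ := m.real (closedBall e1 h) with hB
  have hB0 : 0 ≤ B := measureReal_nonneg
  have hmono : ∫ t in (1 - 8 * h)..(1 - 4 * h),
      (1 - t) ^ (-μ - 1) * (pf F ω μ r 1 - pf F ω μ r t) ≤
      ∫ t in (0 : ℝ)..1, (1 - t) ^ (-μ - 1) * (pf F ω μ r 1 - pf F ω μ r t) := by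
    refine intervalIntegral.integral_mono_interval (by linarith) (by linarith) (by linarith) ?_
      hp2
    rw [Filter.EventuallyLE, ae_restrict_iff' measurableSet_Ioc]
    filter_upwards [ae_mem_Ioo] with t ht h
    exact hnn t (ht h)
  have hlow : ∫ t in (1 - 8 * h)..(1 - 4 * h), (8 * h) ^ (-μ - 1) * (3 / 4 * B * (1 / 8)) ≤
      ∫ t in (1 - 8 * h)..(1 - 4 * h),
        (1 - t) ^ (-μ - 1) * (pf F ω μ r 1 - pf F ω μ r t) := by
    refine intervalIntegral.integral_mono_on (by linarith) intervalIntegrable_const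
      (hp2.mono_set ?_) (fun t ht => ?_)
    · rw [uIcc_of_le (by linarith), uIcc_of_le zero_le_one]
      exact Icc_subset_Icc (by linarith) (by linarith)
    · have htI : t ∈ Ioo (0 : ℝ) 1 := ⟨by linarith [ht.1], by linarith [ht.2]⟩
      have h1t : 0 < 1 - t := by linarith [htI.2]
      have e1 : (8 * h) ^ (-μ - 1) ≤ (1 - t) ^ (-μ - 1) :=
        Real.rpow_le_rpow_of_nonpos h1t (by linarith [ht.1]) (by linarith)
      have e2 := starF_incr (m := m) htI hrI (by rw [h1r]; exact ht.2)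
      rw [← hFt t htI, ← hF _ hmemr, h1r] at e2
      have e3 := hpft t htI
      have e4 : 3 / 4 * B * (1 / 8) ≤ pf F ω μ r 1 - pf F ω μ r t := by
        rw [hpf1]
        have : 3 / 4 * B * (1 / 8) ≤ 3 / 4 * B * ‖F (r : ℂ)‖ := by gcongr
        linarith
      have p1 : 0 ≤ (8 * h) ^ (-μ - 1) := by positivity
      gcongr
  rw [intervalIntegral.integral_const, smul_eq_mul] at hlow
  have e5 : (1 - 4 * h - (1 - 8 * h)) = 4 * h := by ring
  rw [e5] at hlow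
  gcongr
  refine le_trans ?_ hnorm
  rw [hpf1]
  have e6 := hlow.trans hmono
  have e7 : μ * (4 * h * ((8 * h) ^ (-μ - 1) * (3 / 4 * B * (1 / 8)))) ≤
      μ * ∫ t in (0 : ℝ)..1, (1 - t) ^ (-μ - 1) * (pf F ω μ r 1 - pf F ω μ r t) := by gcongr
  have e8 := norm_nonneg (F (r : ℂ))
  rw [hpf1] at e7
  linarith

/-- the measure bound -/
lemma dim_bound (hN : PropN F) (h0 : F 0 = 0) (h1 : deriv F 0 = 1)
    (hd : DifferentiableOn ℂ F (ball 0 1)) (hF : ∀ z ∈ ball (0 : ℂ) 1, F z = starF m z)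
    (hc : 2 * m.real {e1} < 1) {ε : ℝ} (hε : 0 < ε) :
    ∃ C : ℝ, 0 < C ∧ ∀ h : ℝ, 0 < h → h ≤ 1 → m.real (closedBall e1 h) ≤ C * h ^ (1 - ε) := by
  have hb := hN.tc_le h0 h1
  set δ : ℝ := min ε (1 / 2) with hδ
  have hδ0 : 0 < δ := lt_min hε (by norm_num)
  have hδε : δ ≤ ε := min_le_left _ _
  have hδ2 : δ ≤ 1 / 2 := min_le_right _ _
  set μ : ℝ := 1 - δ / 2 with hμ
  have hμ0 : 0 < μ := by rw [hμ]; linarith
  have hμ1 : μ < 1 := by rw [hμ]; linarith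
  obtain ⟨r1, hr1, hup⟩ := disc_one hN h0 h1 hd hF hc (μ := 1 + (μ : ℂ)) (by
    have : 1 + (μ : ℂ) - 1 = ((μ : ℝ) : ℂ) := by ring
    rw [this, Complex.norm_real, Real.norm_eq_abs, abs_lt]
    constructor <;> linarith) (ε := δ / 2) (by linarith)
  have hκ : 0 < ‖κ (μ : ℂ)‖ := norm_pos_iff.mpr (κ_pos (by linarith) hμ1)
  set K2 : ℝ := ‖κ (μ : ℂ)‖ * (μ * (4 * (8 ^ (-μ - 1) * (3 / 4 * (1 / 8))))) with hK2
  have hK20 : 0 < K2 := by positivity
  set h0' : ℝ := min (1 / 16) (1 - r1) with hh0'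
  have hh0'0 : 0 < h0' := lt_min (by norm_num) (by linarith)
  have hsmall : ∀ h : ℝ, 0 < h → h ≤ h0' → m.real (closedBall e1 h) ≤ 2 / K2 * h ^ (1 - δ) := by
    intro h hh hhle
    have hh16 : h ≤ 1 / 16 := hhle.trans (min_le_left _ _)
    have hhr : h ≤ 1 - r1 := hhle.trans (min_le_right _ _)
    have hk := key_ineq hb hd hF hμ0 hμ1 hh hh16
    have hG := hup (1 - h) (by linarith) (by linarith)
    have e0 : (1 : ℝ) - (1 - h) = h := by ring
    rw [e0] at hG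
    have g1 : ‖(1 + (μ : ℂ)) * Gs (tc F) (1 + (μ : ℂ)) ((1 - h : ℝ) : ℂ)‖ ≤ 2 * h ^ (-(δ / 2)) := by
      rw [norm_mul]
      have e2 : ‖1 + (μ : ℂ)‖ ≤ 2 := by
        refine (norm_add_le _ _).trans ?_
        rw [norm_one, Complex.norm_real, Real.norm_eq_abs, abs_of_pos hμ0]
        linarith
      gcongr
    have e3 := hk.trans g1
    have e4 : ‖κ (μ : ℂ)‖ * (μ * (4 * h * ((8 * h) ^ (-μ - 1) *
        (3 / 4 * m.real (closedBall e1 h) * (1 / 8))))) =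
        K2 * m.real (closedBall e1 h) * (h ^ (-μ - 1) * h) := by
      rw [Real.mul_rpow (by norm_num) hh.le, hK2]; ring
    have e5 : h ^ (-μ - 1) * h = h ^ (-μ) := by
      rw [Real.rpow_sub_one hh.ne', div_mul_cancel₀ _ hh.ne']
    rw [e4, e5] at e3
    have e6 : h ^ (-(δ / 2)) = h ^ (1 - δ) * h ^ (-μ) := by
      rw [← Real.rpow_add hh]; congr 1; rw [hμ]; ring
    rw [e6, ← mul_assoc] at e3
    have e7 := le_of_mul_le_mul_right e3 (Real.rpow_pos_of_pos hh (-μ))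
    rw [div_mul_eq_mul_div, le_div_iff₀ hK20]
    linarith
  refine ⟨2 / K2 + h0' ^ (-(1 - δ)), by positivity, fun h hh hh1 => ?_⟩
  have hmonoexp : h ^ (1 - δ) ≤ h ^ (1 - ε) :=
    Real.rpow_le_rpow_of_exponent_ge hh hh1 (by linarith)
  have p1 : 0 ≤ h ^ (1 - δ) := by positivity
  have p2 : 0 ≤ h ^ (1 - ε) := by positivity
  rcases le_total h h0' with hle | hle
  · calc m.real (closedBall e1 h) ≤ 2 / K2 * h ^ (1 - δ) := hsmall h hh hle
      _ ≤ 2 / K2 * h ^ (1 - ε) := by gcongr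
      _ ≤ _ := by
        have : 0 ≤ h0' ^ (-(1 - δ)) := by positivity
        nlinarith
  · have g1 : m.real (closedBall e1 h) ≤ 1 := measureReal_le_one
    have e2 : h0' ^ (1 - δ) ≤ h ^ (1 - δ) := Real.rpow_le_rpow hh0'0.le hle (by linarith)
    have e3 : 1 ≤ h0' ^ (-(1 - δ)) * h ^ (1 - δ) := by
      calc (1 : ℝ) = h0' ^ (-(1 - δ)) * h0' ^ (1 - δ) := by
            rw [← Real.rpow_add hh0'0]; simp
        _ ≤ _ := by gcongr
    calc m.real (closedBall e1 h) ≤ h0' ^ (-(1 - δ)) * h ^ (1 - δ) := g1.trans e3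
      _ ≤ h0' ^ (-(1 - δ)) * h ^ (1 - ε) := by gcongr
      _ ≤ _ := by
        have : 0 ≤ 2 / K2 * h ^ (1 - ε) := by positivity
        nlinarith

/-- Summary at the point `1`. -/
lemma at_one (hN : PropN F) (h0 : F 0 = 0) (h1 : deriv F 0 = 1)
    (hd : DifferentiableOn ℂ F (ball 0 1)) (hF : ∀ z ∈ ball (0 : ℂ) 1, F z = starF m z) :
    m.real {e1} = 1 ∨ m.real {e1} = 1 / 2 ∨ ∀ ε : ℝ, 0 < ε →
      ∃ C : ℝ, 0 < C ∧ ∀ h : ℝ, 0 < h → h ≤ 1 → m.real (closedBall e1 h) ≤ C * h ^ (1 - ε) := by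
  have hle : m.real {e1} ≤ 1 := measureReal_le_one
  rcases lt_trichotomy (2 * m.real {e1}) 1 with h | h | h
  · exact Or.inr (Or.inr (fun ε hε => dim_bound hN h0 h1 hd hF h hε))
  · exact Or.inr (Or.inl (by linarith))
  · rcases hle.lt_or_eq with h2 | h2
    · exact (no_mid hN h0 h1 hd hF h (by linarith)).elim
    · exact Or.inl h2

end Pool.Agent.StarN
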