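import Pool.Agent.StarN.GsBound
import Pool.Agent.StarN.Soft

/-!
The soft lemma applied to `Gs`.
-/

namespace Pool.Agent.StarN

open Complex Metric Set Filter Topology

lemma exp_mul_log {x ε : ℝ} (hx : 0 < x) : Real.exp (ε * -Real.log x) = x ^ (-ε) := by
  rw [Real.rpow_def_of_pos hx]; congr 1; ring

/-- `Gs` is at most a small power on the disc `‖μ - a‖ < 1`, if it is controlled at a base point. -/
lemma Gs_soft {F : ℂ → ℂ} (hN : PropN F) (h0 : F 0 = 0) (h1 : deriv F 0 = 1) {a : ℂ}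
    (ha : a = 1 ∨ a = -1) {μ0 : ℂ} (hμ0 : ‖μ0 - a‖ < 1) {C ρ r0 : ℝ} (hC : 1 ≤ C) (hρ : 0 < ρ)
    (hr0 : r0 < 1)
    (hup : ∀ r : ℝ, r0 ≤ r → r < 1 → ∀ w ∈ ball a 1, ‖w - μ0‖ < ρ → ‖Gs (tc F) w r‖ ≤ C)
    (hlo : ∀ r : ℝ, r0 ≤ r → r < 1 → 1 / C ≤ ‖Gs (tc F) μ0 r‖)
    {μ : ℂ} (hμ : ‖μ - a‖ < 1) {ε : ℝ} (hε : 0 < ε) :
    ∃ r1 : ℝ, r1 < 1 ∧ ∀ r : ℝ, r1 ≤ r → r < 1 → ‖Gs (tc F) μ r‖ ≤ (1 - r) ^ (-ε) := by
  obtain ⟨L0, hL0⟩ := soft a μ0 μ hμ0 hμ 3 C ρ ε (by norm_num) hC hρ hε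
  have hb := hN.tc_le h0 h1
  have hanorm : ‖a‖ = 1 := by rcases ha with rfl | rfl <;> simp
  refine ⟨max (max r0 (1 / 2)) (1 - Real.exp (-L0)), ?_, ?_⟩
  · refine max_lt (max_lt hr0 (by norm_num)) ?_
    have := Real.exp_pos (-L0)
    linarith
  · intro r hr hr1
    have hr0' : r0 ≤ r := (le_max_left _ _).trans ((le_max_left _ _).trans hr)
    have hrh : 1 / 2 ≤ r := (le_max_right _ _).trans ((le_max_left _ _).trans hr)
    have hre : 1 - Real.exp (-L0) ≤ r := (le_max_right _ _).trans hr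
    have h1r : 0 < 1 - r := by linarith
    have hnr : ‖(r : ℂ)‖ = r := by
      rw [Complex.norm_real, Real.norm_eq_abs, abs_of_pos (by linarith)]
    have hnr1 : ‖(r : ℂ)‖ < 1 := by rw [hnr]; exact hr1
    have hL : L0 ≤ -Real.log (1 - r) := by
      have h2 : 1 - r ≤ Real.exp (-L0) := by linarith
      have h3 := Real.log_le_log h1r h2
      rw [Real.log_exp] at h3
      linarith
    have hball : ball a 1 ⊆ ball (0 : ℂ) 2 := by
      intro w hw
      rw [mem_ball_iff_norm] at hw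
      rw [mem_ball_zero_iff]
      calc ‖w‖ = ‖(w - a) + a‖ := by ring_nf
        _ ≤ ‖w - a‖ + ‖a‖ := norm_add_le _ _
        _ < 1 + 1 := by rw [hanorm]; linarith
        _ = 2 := by norm_num
    have := hL0 _ hL (fun w => Gs (tc F) w r) ((Gs_differentiableOn hb hnr1).mono hball)
      (fun w hw => hN.Gs_ne (by
        rw [mem_ball_iff_norm] at hw
        have hw2 : ‖w - a‖ ^ 2 < 1 := by nlinarith [norm_nonneg (w - a)]
        rw [Complex.sq_norm, Complex.normSq_apply] at hw2 ⊢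
        rcases ha with rfl | rfl
        · simp at hw2
          have : w.re ≤ |w.re| := le_abs_self _
          nlinarith
        · simp at hw2
          have : -w.re ≤ |w.re| := neg_le_abs _
          nlinarith) (by rw [hnr]; linarith) hnr1)
      (fun w hw => by
        have h4 := Gs_le hb (mem_ball_zero_iff.mp (hball hw)).le hnr1
        rw [hnr] at h4
        refine h4.trans (le_of_eq ?_)
        rw [exp_mul_log h1r, Real.rpow_neg h1r.le, one_div]
        congr 1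
        exact_mod_cast (Real.rpow_natCast (1 - r) 3).symm)
      (fun w hw hwρ => hup r hr0' hr1 w hw hwρ) (hlo r hr0' hr1)
    rwa [exp_mul_log h1r] at this

end Pool.Agent.StarN
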