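import Pool.Agent.StarN.Upper
import Pool.Agent.StarN.GsSoft

/-!
The disc `‖μ - 1‖ < 1`.
-/

namespace Pool.Agent.StarN

open Complex Metric Set Filter Topology MeasureTheory intervalIntegral Interval

variable {m : Measure 𝕊} [IsProbabilityMeasure m] {F : ℂ → ℂ}

/-- integrability -/
lemma W_integrable {μ : ℂ} {c' C : ℝ} {N : ℕ} (hα : 0 < μ.re + N) (hβ : μ.re + c' < 1)
    {A : ℝ → ℂ} (hAc : ContinuousOn A (Ioo 0 1))
    (hA : ∀ t ∈ Ioo (0 : ℝ) 1, ‖A t‖ ≤ C * t ^ N * (1 - t) ^ (-c')) :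
    IntervalIntegrable (fun t => W μ t * A t) volume 0 1 := by
  have hdom := (real_beta_integrable (a := μ.re - 1 + N) (b := -μ.re - c') (by linarith)
    (by linarith)).const_mul C
  refine hdom.mono_fun' ?_ ?_
  · rw [uIoc_of_le zero_le_one, ← restrict_Ioo_eq_restrict_Ioc]
    exact (W_measurable μ).aestronglyMeasurable.mul (hAc.aestronglyMeasurable measurableSet_Ioo)
  · rw [uIoc_of_le zero_le_one, ← restrict_Ioo_eq_restrict_Ioc, Filter.EventuallyLE,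
      ae_restrict_iff' measurableSet_Ioo]
    refine Eventually.of_forall (fun t ht => ?_)
    have h1t : 0 < 1 - t := by linarith [ht.2]
    rw [norm_mul, norm_W ht, Real.rpow_add ht.1, Real.rpow_natCast,
      show -μ.re - c' = -μ.re + -c' by ring, Real.rpow_add h1t]
    have p1 : 0 ≤ t ^ (μ.re - 1) := Real.rpow_nonneg ht.1.le _
    have p2 : 0 ≤ (1 - t) ^ (-μ.re) := Real.rpow_nonneg h1t.le _
    calc t ^ (μ.re - 1) * (1 - t) ^ (-μ.re) * ‖A t‖
        ≤ t ^ (μ.re - 1) * (1 - t) ^ (-μ.re) * (C * t ^ N * (1 - t) ^ (-c')) := by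
          gcongr; exact hA t ht
      _ = _ := by ring

lemma cont_F (hd : DifferentiableOn ℂ F (ball 0 1)) {r : ℝ} (hr : r ∈ Ioo (0 : ℝ) 1) :
    ContinuousOn (fun t : ℝ => F ((t * r : ℝ) : ℂ)) (Icc 0 1) := by
  refine hd.continuousOn.comp (by fun_prop) (fun t ht => ?_)
  rw [mem_ball_zero_iff, Complex.norm_real, Real.norm_eq_abs,
    abs_of_nonneg (mul_nonneg ht.1 hr.1.le)]
  nlinarith [ht.1, ht.2, hr.1, hr.2]

omit [IsProbabilityMeasure m] in
lemma F_upper_mul (hF : ∀ z ∈ ball (0 : ℂ) 1, F z = starF m z) {c' C : ℝ} (hc0 : 0 ≤ c')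
    (hC0 : 0 < C) (hC : ∀ x ∈ Ioo (0 : ℝ) 1, ‖starF m (x : ℂ)‖ ≤ C * x * (1 - x) ^ (-c'))
    {t r : ℝ} (ht : t ∈ Ioo (0 : ℝ) 1) (hr : r ∈ Ioo (0 : ℝ) 1) :
    ‖F ((t * r : ℝ) : ℂ)‖ ≤ C * t ^ 1 * (1 - t) ^ (-c') := by
  have htr : t * r ∈ Ioo (0 : ℝ) 1 := mem_Ioo_mul ht hr
  rw [hF _ (by rw [mem_ball_zero_iff]; exact norm_real_lt htr)]
  refine (hC _ htr).trans ?_
  have h1t : 0 < 1 - t := by linarith [ht.2]
  have e1 : (1 - t * r) ^ (-c') ≤ (1 - t) ^ (-c') := by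
    refine Real.rpow_le_rpow_of_nonpos h1t ?_ (by linarith)
    nlinarith [ht.1, hr.2]
  have e2 : t * r ≤ t ^ 1 := by
    rw [pow_one]
    nlinarith [ht.1, hr.2]
  have : 0 ≤ (1 - t * r) ^ (-c') := Real.rpow_nonneg (by linarith [htr.2]) _
  have ht0 := ht.1
  gcongr

/-- the integral formula for `F` -/
lemma Gs_int (hb : ∀ n, ‖tc F n‖ ≤ n) (hd : DifferentiableOn ℂ F (ball 0 1)) {μ : ℂ}
    (hμ : -1 < μ.re) (hμ1 : μ.re < 1) {r : ℝ} (hr : r ∈ Ioo (0 : ℝ) 1) :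
    Gs (tc F) μ r = κ μ * ∫ t in (0 : ℝ)..1, W μ t * F ((t * r : ℝ) : ℂ) := by
  have hb0 : tc F 0 = 0 := by
    have := hb 0
    simpa using this
  have hint := int_formula (μ := μ) (N := 1) (Or.inl rfl) (by push_cast; linarith)
    hμ1 (a := tc F) (fun n hn => by
      have : n = 0 := by omega
      rw [this]; exact hb0)
    (r := r) hr.1.le (summable_abs hb hr.1.le hr.2)
  rw [hint]
  congr 1
  refine intervalIntegral.integral_congr_ae ?_
  rw [uIoc_of_le zero_le_one]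
  filter_upwards [ae_mem_Ioo] with t ht h
  have htr : t * r ∈ Ioo (0 : ℝ) 1 := mem_Ioo_mul (ht h) hr
  rw [(hasSum_F hd htr.1.le htr.2).tsum_eq]

/-- real part from below on the radius -/
lemma re_lower : ∃ (ω : ℂ) (C2 : ℝ), ‖ω‖ = 1 ∧ 0 ≤ C2 ∧ ∀ x ∈ Ioo (0 : ℝ) 1,
    x / 8 * (1 - x) ^ (-(2 * m.real {e1})) - C2 * x * (1 - x) ≤ (ω * starF m (x : ℂ)).re := by
  obtain ⟨ω, x0, hω, hx00, hx01, hx0⟩ := exists_half (m := m)
  obtain ⟨C, hC0, hC⟩ := starF_upper (m := m) (c' := 2 * m.real {e1} + 1) (by linarith)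
  set c : ℝ := 2 * m.real {e1} with hcdef
  have hc0 : 0 ≤ c := by positivity
  have h1x0 : 0 < 1 - x0 := by linarith
  have hp1 : 0 ≤ (1 - x0) ^ (-(c + 1)) := Real.rpow_nonneg h1x0.le _
  have hp2 : 0 ≤ (1 - x0) ^ (-c) := Real.rpow_nonneg h1x0.le _
  refine ⟨ω, (C * (1 - x0) ^ (-(c + 1)) + 1 / 8 * (1 - x0) ^ (-c)) / (1 - x0), hω,
    by positivity, fun x hx => ?_⟩
  have h1x : 0 < 1 - x := by linarith [hx.2]
  rcases le_total x0 x with h | h
  · have h2 := hx0 x hx h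
    have h3 := starF_lower (m := m) hx
    have h4 : 0 ≤ (C * (1 - x0) ^ (-(c + 1)) + 1 / 8 * (1 - x0) ^ (-c)) / (1 - x0) * x * (1 - x) := by
      have := hx.1
      positivity
    linarith
  · have h2 : -‖starF m (x : ℂ)‖ ≤ (ω * starF m (x : ℂ)).re := by
      have := Complex.abs_re_le_norm (ω * starF m (x : ℂ))
      rw [norm_mul, hω, one_mul] at this
      exact (abs_le.mp this).1
    have h3 := hC x hx
    have e1 : (1 - x) ^ (-(c + 1)) ≤ (1 - x0) ^ (-(c + 1)) :=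
      Real.rpow_le_rpow_of_nonpos h1x0 (by linarith) (by linarith)
    have e2 : (1 - x) ^ (-c) ≤ (1 - x0) ^ (-c) :=
      Real.rpow_le_rpow_of_nonpos h1x0 (by linarith) (by linarith)
    have h4 : C * x * (1 - x) ^ (-(c + 1)) ≤ C * x * (1 - x0) ^ (-(c + 1)) := by
      have := hx.1
      gcongr
    have h5 : x / 8 * (1 - x) ^ (-c) ≤ x / 8 * (1 - x0) ^ (-c) := by
      have := hx.1
      gcongr
    have h6 : (C * (1 - x0) ^ (-(c + 1)) + 1 / 8 * (1 - x0) ^ (-c)) * x ≤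
        (C * (1 - x0) ^ (-(c + 1)) + 1 / 8 * (1 - x0) ^ (-c)) / (1 - x0) * x * (1 - x) := by
      have h7 : (C * (1 - x0) ^ (-(c + 1)) + 1 / 8 * (1 - x0) ^ (-c)) / (1 - x0) * x * (1 - x) =
          (C * (1 - x0) ^ (-(c + 1)) + 1 / 8 * (1 - x0) ^ (-c)) * x * ((1 - x) / (1 - x0)) := by
        field_simp
      rw [h7]
      have h8 : 1 ≤ (1 - x) / (1 - x0) := by rw [one_le_div h1x0]; linarith
      have h9 : 0 ≤ (C * (1 - x0) ^ (-(c + 1)) + 1 / 8 * (1 - x0) ^ (-c)) * x := by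
        have := hx.1
        positivity
      nlinarith
    linarith

/-- the basic integral -/
lemma int_one_sub {s a b : ℝ} (hs : 0 < s) :
    ∫ t in a..b, (1 - t) ^ (s - 1) = ((1 - a) ^ s - (1 - b) ^ s) / s := by
  have h := intervalIntegral.integral_comp_sub_left (a := a) (b := b)
    (fun x : ℝ => x ^ (s - 1)) 1
  rw [h, integral_rpow (Or.inl (by linarith))]
  rw [show s - 1 + 1 = s by ring]

lemma one_sub_integrable {s a b : ℝ} (hs : 0 < s) :
    IntervalIntegrable (fun t : ℝ => (1 - t) ^ (s - 1)) volume a b := by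
  have h := (intervalIntegral.intervalIntegrable_rpow' (a := 1 - a) (b := 1 - b)
    (r := s - 1) (by linarith)).comp_sub_left 1
  simpa using h

/-- `W` is real for real `μ` -/
lemma W_real {μ t : ℝ} (ht : t ∈ Ioo (0 : ℝ) 1) :
    W (μ : ℂ) t = ((t ^ (μ - 1) * (1 - t) ^ (-μ) : ℝ) : ℂ) := by
  unfold W
  have h3 : (1 : ℂ) - (t : ℂ) = ((1 - t : ℝ) : ℂ) := by push_cast; ring
  rw [h3, show (μ : ℂ) - 1 = ((μ - 1 : ℝ) : ℂ) by push_cast; ring, ← Complex.ofReal_neg,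
    ← Complex.ofReal_cpow ht.1.le, ← Complex.ofReal_cpow (by linarith [ht.2])]
  push_cast
  ring

/-- real part of the integral -/
lemma re_int {μ : ℝ} {A : ℝ → ℂ} (ω : ℂ)
    (hA : IntervalIntegrable (fun t => W (μ : ℂ) t * A t) volume 0 1) :
    (ω * ∫ t in (0 : ℝ)..1, W (μ : ℂ) t * A t).re =
      ∫ t in (0 : ℝ)..1, t ^ (μ - 1) * (1 - t) ^ (-μ) * (ω * A t).re ∧
    IntervalIntegrable (fun t => t ^ (μ - 1) * (1 - t) ^ (-μ) * (ω * A t).re) volume 0 1 := by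
  have h1 := hA.const_mul ω
  have h2 := Complex.reCLM.intervalIntegral_comp_comm h1
  rw [intervalIntegral.integral_const_mul] at h2
  have h3 : ∀ t ∈ Ioo (0 : ℝ) 1, Complex.reCLM (ω * (W (μ : ℂ) t * A t)) =
      t ^ (μ - 1) * (1 - t) ^ (-μ) * (ω * A t).re := by
    intro t ht
    rw [W_real ht, Complex.reCLM_apply,
      show ω * (((t ^ (μ - 1) * (1 - t) ^ (-μ) : ℝ) : ℂ) * A t) =
        ((t ^ (μ - 1) * (1 - t) ^ (-μ) : ℝ) : ℂ) * (ω * A t) by ring, Complex.re_ofReal_mul]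
  constructor
  · rw [Complex.reCLM_apply] at h2
    rw [← h2]
    refine intervalIntegral.integral_congr_ae ?_
    rw [uIoc_of_le zero_le_one]
    filter_upwards [ae_mem_Ioo] with t ht h
    exact h3 t (ht h)
  · have h4 : IntervalIntegrable (fun t => Complex.reCLM (ω * (W (μ : ℂ) t * A t))) volume 0 1 := by
      rw [intervalIntegrable_iff] at h1 ⊢
      exact Complex.reCLM.integrable_comp h1
    refine h4.congr_ae ?_
    rw [uIoc_of_le zero_le_one, Filter.EventuallyEq, ae_restrict_iff' measurableSet_Ioc]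
    filter_upwards [ae_mem_Ioo] with t ht h
    exact h3 t (ht h)

/-- lower bound at a base point near `1 - c` -/
lemma lower_base (hb : ∀ n, ‖tc F n‖ ≤ n) (hd : DifferentiableOn ℂ F (ball 0 1))
    (hF : ∀ z ∈ ball (0 : ℂ) 1, F z = starF m z) (hc : 2 * m.real {e1} < 1) :
    ∃ μ0 : ℝ, 0 < μ0 ∧ μ0 < 1 - 2 * m.real {e1} ∧ ∃ r0 : ℝ, r0 < 1 ∧ ∃ C : ℝ, 0 < C ∧
      ∀ r : ℝ, r0 ≤ r → r < 1 → C ≤ ‖Gs (tc F) μ0 r‖ := by
  obtain ⟨ω, C2, hω, hC20, hre⟩ := re_lower (m := m)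
  obtain ⟨c', hc1, hc2⟩ := exists_between hc
  obtain ⟨C, hC0, hC⟩ := starF_upper hc1
  set c : ℝ := 2 * m.real {e1} with hcdef
  have hc0 : 0 ≤ c := by positivity
  set s : ℝ := min ((1 - c') / 2) (1 / (128 * (2 * C2 + 1))) with hs
  have hs0 : 0 < s := lt_min (by linarith) (by positivity)
  have hs1 : s ≤ (1 - c') / 2 := min_le_left _ _
  have hs2 : s ≤ 1 / (128 * (2 * C2 + 1)) := min_le_right _ _
  have hsle1 : s ≤ 1 := by linarith
  set μ0 : ℝ := 1 - c - s with hμ0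
  have hμ00 : 0 < μ0 := by rw [hμ0]; linarith
  have hμ01 : μ0 < 1 := by rw [hμ0]; linarith
  -- the cut-off
  set η : ℝ := (1 / 4 : ℝ) ^ (1 / s) with hη
  have hη0 : 0 < η := by positivity
  have hηs : η ^ s = 1 / 4 := by
    rw [hη, ← Real.rpow_mul (by norm_num), one_div_mul_cancel hs0.ne', Real.rpow_one]
  have hη4 : η ≤ 1 / 4 := by
    rw [hη]
    calc (1 / 4 : ℝ) ^ (1 / s) ≤ (1 / 4 : ℝ) ^ (1 : ℝ) :=
          Real.rpow_le_rpow_of_exponent_ge (by norm_num) (by norm_num)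
            (by rw [le_div_iff₀ hs0]; linarith)
      _ = 1 / 4 := Real.rpow_one _
  refine ⟨μ0, hμ00, by rw [hμ0]; linarith, max (max (1 / 2) μ0) (1 - η), ?_,
    ‖κ (μ0 : ℂ)‖ * (1 / 2), ?_, ?_⟩
  · exact max_lt (max_lt (by norm_num) hμ01) (by linarith)
  · have := norm_pos_iff.mpr (κ_pos (by linarith : -1 < μ0) hμ01)
    positivity
  intro r hr hr1
  have hrh : 1 / 2 ≤ r := (le_max_left _ _).trans ((le_max_left _ _).trans hr)
  have hrμ : μ0 ≤ r := (le_max_right _ _).trans ((le_max_left _ _).trans hr)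
  have hrη : 1 - η ≤ r := (le_max_right _ _).trans hr
  have hrI : r ∈ Ioo (0 : ℝ) 1 := ⟨by linarith, hr1⟩
  rw [Gs_int hb hd (by simp; linarith) (by simpa using hμ01) hrI, norm_mul]
  gcongr
  -- now the integral
  have hAint : IntervalIntegrable (fun t : ℝ => W (μ0 : ℂ) t * F ((t * r : ℝ) : ℂ)) volume 0 1 := by
    refine W_integrable (N := 1) (c' := c) (C := ‖(1 : ℂ)‖ * (C * (1 - r) ^ (-c'))) (by
      simp; linarith) (by simp; linarith) ((cont_F hd hrI).mono Ioo_subset_Icc_self) ?_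
    intro t ht
    have htr : t * r ∈ Ioo (0 : ℝ) 1 := mem_Ioo_mul ht hrI
    rw [hF _ (by rw [mem_ball_zero_iff]; exact norm_real_lt htr), norm_one, one_mul, pow_one]
    refine (hC _ htr).trans ?_
    have h1r : 0 < 1 - r := by linarith
    have e1 : (1 - t * r) ^ (-c') ≤ (1 - r) ^ (-c') := by
      refine Real.rpow_le_rpow_of_nonpos h1r ?_ (by linarith)
      nlinarith [ht.1, ht.2]
    have e2 : t * r ≤ t := by nlinarith [ht.1, hr1]
    have e3 : 1 ≤ (1 - t) ^ (-c) :=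
      Real.one_le_rpow_of_pos_of_le_one_of_nonpos (by linarith [ht.2]) (by linarith [ht.1])
        (by linarith)
    have p1 : 0 ≤ (1 - t * r) ^ (-c') := Real.rpow_nonneg (by linarith [htr.2]) _
    have p2 : 0 ≤ (1 - r) ^ (-c') := Real.rpow_nonneg h1r.le _
    have p3 := ht.1
    calc C * (t * r) * (1 - t * r) ^ (-c') ≤ C * t * (1 - r) ^ (-c') := by gcongr
      _ = C * (1 - r) ^ (-c') * t * 1 := by ring
      _ ≤ _ := by gcongr
  obtain ⟨hI1, hI2⟩ := re_int ω hAint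
  have hnorm : (ω * ∫ t in (0 : ℝ)..1, W (μ0 : ℂ) t * F ((t * r : ℝ) : ℂ)).re ≤
      ‖∫ t in (0 : ℝ)..1, W (μ0 : ℂ) t * F ((t * r : ℝ) : ℂ)‖ := by
    refine (Complex.re_le_norm _).trans ?_
    rw [norm_mul, hω, one_mul]
  refine le_trans ?_ hnorm
  rw [hI1]
  -- the error term
  have hE : IntervalIntegrable (fun t : ℝ => C2 * r * (1 + (1 - r) * (1 - t) ^ ((1 - μ0) - 1)))
      volume 0 1 :=
    ((intervalIntegrable_const (c := (1 : ℝ))).add
      ((one_sub_integrable (by linarith : 0 < 1 - μ0)).const_mul (1 - r))).const_mul (C2 * r)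
  have hEval : ∫ t in (0 : ℝ)..1, C2 * r * (1 + (1 - r) * (1 - t) ^ ((1 - μ0) - 1)) ≤
      2 * C2 * r := by
    rw [intervalIntegral.integral_const_mul, intervalIntegral.integral_add
      intervalIntegrable_const ((one_sub_integrable (by linarith : 0 < 1 - μ0)).const_mul (1 - r)),
      intervalIntegral.integral_const_mul, int_one_sub (by linarith : 0 < 1 - μ0)]
    have h1 : ((1 : ℝ) - 0) ^ (1 - μ0) = 1 := by rw [sub_zero, Real.one_rpow]
    have h2 : ((1 : ℝ) - 1) ^ (1 - μ0) = 0 := by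
      rw [sub_self, Real.zero_rpow (by linarith)]
    rw [h1, h2]
    have h3 : (1 - r) * ((1 - 0) / (1 - μ0)) ≤ 1 := by
      rw [sub_zero, mul_one_div, div_le_one (by linarith)]
      linarith
    simp only [intervalIntegral.integral_const, smul_eq_mul]
    have h4 : 0 ≤ C2 * r := mul_nonneg hC20 hrI.1.le
    nlinarith
  set Φ : ℝ → ℝ := fun t => t ^ (μ0 - 1) * (1 - t) ^ (-μ0) * (ω * F ((t * r : ℝ) : ℂ)).re +
    C2 * r * (1 + (1 - r) * (1 - t) ^ ((1 - μ0) - 1)) with hΦ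
  have hΦint : IntervalIntegrable Φ volume 0 1 := hI2.add hE
  have hsum : ∫ t in (0 : ℝ)..1, Φ t =
      (∫ t in (0 : ℝ)..1, t ^ (μ0 - 1) * (1 - t) ^ (-μ0) * (ω * F ((t * r : ℝ) : ℂ)).re) +
      ∫ t in (0 : ℝ)..1, C2 * r * (1 + (1 - r) * (1 - t) ^ ((1 - μ0) - 1)) :=
    intervalIntegral.integral_add hI2 hE
  have hpt : ∀ t ∈ Ioo (0 : ℝ) 1,
      r / 8 * (t ^ μ0 * ((1 - t) ^ (-μ0) * (1 - t * r) ^ (-c))) ≤ Φ t := by
    intro t ht
    have htr : t * r ∈ Ioo (0 : ℝ) 1 := mem_Ioo_mul ht hrI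
    have h1t : 0 < 1 - t := by linarith [ht.2]
    have h1 := hre _ htr
    rw [← hF _ (by rw [mem_ball_zero_iff]; exact norm_real_lt htr)] at h1
    have p1 : 0 ≤ t ^ (μ0 - 1) := Real.rpow_nonneg ht.1.le _
    have p2 : 0 ≤ (1 - t) ^ (-μ0) := Real.rpow_nonneg h1t.le _
    have h2 : t ^ (μ0 - 1) * (1 - t) ^ (-μ0) *
        (t * r / 8 * (1 - t * r) ^ (-c) - C2 * (t * r) * (1 - t * r)) ≤
        t ^ (μ0 - 1) * (1 - t) ^ (-μ0) * (ω * F ((t * r : ℝ) : ℂ)).re := by gcongr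
    have h3 : t ^ (μ0 - 1) * t = t ^ μ0 := by
      rw [Real.rpow_sub_one ht.1.ne', div_mul_cancel₀ _ ht.1.ne']
    have h4 : t ^ (μ0 - 1) * (1 - t) ^ (-μ0) *
        (t * r / 8 * (1 - t * r) ^ (-c) - C2 * (t * r) * (1 - t * r)) =
        r / 8 * (t ^ μ0 * ((1 - t) ^ (-μ0) * (1 - t * r) ^ (-c))) -
          C2 * r * (t ^ μ0 * ((1 - t) ^ (-μ0) * (1 - t * r))) := by
      rw [← h3]; ring
    rw [h4] at h2
    have h5 : t ^ μ0 ≤ 1 := Real.rpow_le_one ht.1.le ht.2.le hμ00.le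
    have h6 : (1 - t) ^ (-μ0) * (1 - t * r) ≤ 1 + (1 - r) * (1 - t) ^ ((1 - μ0) - 1) := by
      have e1 : 1 - t * r ≤ (1 - t) + (1 - r) := by nlinarith [ht.1, ht.2, hr1]
      have e2 : (1 - t) ^ (-μ0) * (1 - t) = (1 - t) ^ (1 - μ0) := by
        rw [show (1 - μ0) = -μ0 + 1 by ring, Real.rpow_add_one h1t.ne']
      have e3 : (1 - t) ^ (1 - μ0) ≤ 1 := Real.rpow_le_one h1t.le (by linarith [ht.1])
        (by linarith)
      rw [show (1 - μ0) - 1 = -μ0 by ring]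
      calc (1 - t) ^ (-μ0) * (1 - t * r) ≤ (1 - t) ^ (-μ0) * ((1 - t) + (1 - r)) := by gcongr
        _ = (1 - t) ^ (-μ0) * (1 - t) + (1 - r) * (1 - t) ^ (-μ0) := by ring
        _ ≤ _ := by rw [e2]; gcongr
    have h7 : t ^ μ0 * ((1 - t) ^ (-μ0) * (1 - t * r)) ≤
        1 + (1 - r) * (1 - t) ^ ((1 - μ0) - 1) := by
      have p3 : 0 ≤ (1 - t) ^ (-μ0) * (1 - t * r) := mul_nonneg p2 (by linarith [htr.2])
      calc t ^ μ0 * ((1 - t) ^ (-μ0) * (1 - t * r)) ≤ 1 * ((1 - t) ^ (-μ0) * (1 - t * r)) := by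
            gcongr
        _ ≤ _ := by rw [one_mul]; exact h6
    have h8 : C2 * r * (t ^ μ0 * ((1 - t) ^ (-μ0) * (1 - t * r))) ≤
        C2 * r * (1 + (1 - r) * (1 - t) ^ ((1 - μ0) - 1)) := by
      have : 0 ≤ C2 * r := mul_nonneg hC20 hrI.1.le
      gcongr
    simp only [hΦ]
    linarith
  have hΦ0 : ∀ t ∈ Ioo (0 : ℝ) 1, 0 ≤ Φ t := by
    intro t ht
    refine le_trans ?_ (hpt t ht)
    have htr : t * r ∈ Ioo (0 : ℝ) 1 := mem_Ioo_mul ht hrI
    have p1 : 0 ≤ t ^ μ0 := Real.rpow_nonneg ht.1.le _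
    have p2 : 0 ≤ (1 - t) ^ (-μ0) := Real.rpow_nonneg (by linarith [ht.2]) _
    have p3 : 0 ≤ (1 - t * r) ^ (-c) := Real.rpow_nonneg (by linarith [htr.2]) _
    have := hrI.1
    positivity
  have hmono : ∫ t in (1 / 2 : ℝ)..(1 - η), Φ t ≤ ∫ t in (0 : ℝ)..1, Φ t := by
    refine intervalIntegral.integral_mono_interval (by norm_num) (by linarith) (by linarith) ?_
      hΦint
    rw [Filter.EventuallyLE, ae_restrict_iff' measurableSet_Ioc]
    filter_upwards [ae_mem_Ioo] with t ht h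
    exact hΦ0 t (ht h)
  have hlow : ∫ t in (1 / 2 : ℝ)..(1 - η), r / 32 * (1 - t) ^ (s - 1) ≤
      ∫ t in (1 / 2 : ℝ)..(1 - η), Φ t := by
    refine intervalIntegral.integral_mono_on (by linarith) ((one_sub_integrable hs0).const_mul _)
      (hΦint.mono_set ?_) (fun t ht => ?_)
    · rw [uIcc_of_le (by linarith), uIcc_of_le zero_le_one]
      exact Icc_subset_Icc (by norm_num) (by linarith)
    · have htI : t ∈ Ioo (0 : ℝ) 1 := ⟨by linarith [ht.1], by linarith [ht.2]⟩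
      refine le_trans ?_ (hpt t htI)
      have htr : t * r ∈ Ioo (0 : ℝ) 1 := mem_Ioo_mul htI hrI
      have h1t : 0 < 1 - t := by linarith [htI.2]
      have e1 : 1 / 2 ≤ t ^ μ0 := by
        calc (1 / 2 : ℝ) ≤ t := ht.1
          _ = t ^ (1 : ℝ) := (Real.rpow_one t).symm
          _ ≤ t ^ μ0 := Real.rpow_le_rpow_of_exponent_ge htI.1 htI.2.le hμ01.le
      have e2 : 1 - t * r ≤ 2 * (1 - t) := by
        have : η ≤ 1 - t := by linarith [ht.2]
        nlinarith [htI.1, htI.2, hr1]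
      have e3 : 1 / 2 * (1 - t) ^ (-c) ≤ (1 - t * r) ^ (-c) := by
        have f1 : (2 * (1 - t)) ^ (-c) ≤ (1 - t * r) ^ (-c) :=
          Real.rpow_le_rpow_of_nonpos (by linarith [htr.2]) e2 (by linarith)
        rw [Real.mul_rpow (by norm_num) h1t.le] at f1
        have f2 : (1 / 2 : ℝ) ≤ 2 ^ (-c) := by
          have : (1 / 2 : ℝ) = 2 ^ (-1 : ℝ) := by
            rw [Real.rpow_neg_one]; norm_num
          rw [this]
          exact Real.rpow_le_rpow_of_exponent_le (by norm_num) (by linarith)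
        have f3 : 0 ≤ (1 - t) ^ (-c) := Real.rpow_nonneg h1t.le _
        nlinarith
      have e4 : (1 - t) ^ (s - 1) = (1 - t) ^ (-μ0) * (1 - t) ^ (-c) := by
        rw [← Real.rpow_add h1t]; congr 1; rw [hμ0]; ring
      rw [e4]
      have p2 : 0 ≤ (1 - t) ^ (-μ0) := Real.rpow_nonneg h1t.le _
      have p3 : 0 ≤ (1 - t) ^ (-c) := Real.rpow_nonneg h1t.le _
      have p4 := hrI.1
      calc r / 32 * ((1 - t) ^ (-μ0) * (1 - t) ^ (-c))
          = r / 8 * (1 / 2 * ((1 - t) ^ (-μ0) * (1 / 2 * (1 - t) ^ (-c)))) := by ring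
        _ ≤ _ := by gcongr
  rw [intervalIntegral.integral_const_mul, int_one_sub hs0] at hlow
  have hval : 1 / (4 * s) ≤ ((1 - 1 / 2) ^ s - (1 - (1 - η)) ^ s) / s := by
    have e1 : (1 : ℝ) - (1 - η) = η := by ring
    rw [e1, hηs]
    have e2 : (1 / 2 : ℝ) ≤ (1 - 1 / 2) ^ s := by
      have : (1 : ℝ) - 1 / 2 = 1 / 2 := by norm_num
      rw [this]
      calc (1 / 2 : ℝ) = (1 / 2) ^ (1 : ℝ) := (Real.rpow_one _).symm
        _ ≤ (1 / 2) ^ s := Real.rpow_le_rpow_of_exponent_ge (by norm_num) (by norm_num) hsle1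
    rw [div_le_div_iff₀ (by positivity) hs0]
    nlinarith
  have hbig : r * (2 * C2 + 1) ≤ r / 32 * (1 / (4 * s)) := by
    have e1 : 2 * C2 + 1 ≤ 1 / (128 * s) := by
      rw [le_div_iff₀ (by positivity)]
      have : s * (128 * (2 * C2 + 1)) ≤ 1 := by
        rwa [le_div_iff₀ (by positivity)] at hs2
      linarith
    have e2 : r / 32 * (1 / (4 * s)) = r * (1 / (128 * s)) := by
      field_simp; ring
    rw [e2]
    have := hrI.1
    gcongr
  have hfin : r / 32 * (1 / (4 * s)) ≤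
      r / 32 * (((1 - 1 / 2) ^ s - (1 - (1 - η)) ^ s) / s) := by
    have := hrI.1
    gcongr
  linarith

end Pool.Agent.StarN
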