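import Pool.Agent.StarN.DiscOne

/-!
The disc `‖μ - 1‖ < 1`, conclusion.
-/

namespace Pool.Agent.StarN

open Complex Metric Set Filter Topology MeasureTheory intervalIntegral Interval

variable {m : Measure 𝕊} [IsProbabilityMeasure m] {F : ℂ → ℂ}

/-- upper bound near a point of `(0, 1 - c)` -/
lemma upper_base (hb : ∀ n, ‖tc F n‖ ≤ n)
    (hd : DifferentiableOn ℂ F (ball 0 1)) (hF : ∀ z ∈ ball (0 : ℂ) 1, F z = starF m z)
    {μ0 : ℝ} (h0 : 0 < μ0) (h1 : μ0 < 1 - 2 * m.real {e1}) :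
    ∃ C ρ : ℝ, 1 ≤ C ∧ 0 < ρ ∧ ∀ r : ℝ, 1 / 2 ≤ r → r < 1 → ∀ w ∈ ball (1 : ℂ) 1,
      ‖w - (μ0 : ℂ)‖ < ρ → ‖Gs (tc F) w r‖ ≤ C := by
  obtain ⟨c', hc1, hc2⟩ := exists_between (show 2 * m.real {e1} < 1 - μ0 by linarith)
  obtain ⟨C, hC0, hC⟩ := starF_upper hc1
  have hc0 : 0 ≤ c' := le_trans (by positivity) hc1.le
  obtain ⟨K, hK0, hK⟩ := κ_bound
  set ρ : ℝ := (1 - μ0 - c') / 2 with hρ
  have hρ0 : 0 < ρ := by rw [hρ]; linarith
  set J : ℝ := ∫ t in (0 : ℝ)..1, t ^ (0 : ℝ) * (1 - t) ^ (-(μ0 + ρ) - c') with hJ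
  have hJ0 : 0 ≤ J := by
    refine intervalIntegral.integral_nonneg zero_le_one (fun t ht => ?_)
    have : 0 ≤ 1 - t := by linarith [ht.2]
    have := ht.1
    positivity
  refine ⟨1 + K * (C * J), ρ, by
    have : 0 ≤ K * (C * J) := by positivity
    linarith, hρ0, fun r hr hr1 w hw hwρ => ?_⟩
  rw [mem_ball_iff_norm] at hw
  have hrI : r ∈ Ioo (0 : ℝ) 1 := ⟨by linarith, hr1⟩
  have hw2 : ‖w‖ ≤ 2 := by
    calc ‖w‖ = ‖(w - 1) + 1‖ := by ring_nf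
      _ ≤ ‖w - 1‖ + ‖(1 : ℂ)‖ := norm_add_le _ _
      _ ≤ 1 + 1 := by
        rw [norm_one]; linarith
      _ = 2 := by norm_num
  have hre : |w.re - μ0| < ρ := by
    have := Complex.abs_re_le_norm (w - (μ0 : ℂ))
    simp only [Complex.sub_re, Complex.ofReal_re] at this
    linarith
  have hre1 : |w.re - 1| < 1 := by
    have := Complex.abs_re_le_norm (w - 1)
    simp only [Complex.sub_re, Complex.one_re] at this
    linarith
  rw [abs_lt] at hre hre1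
  have hwlt : w.re + c' < 1 := by
    have : ρ + ρ = 1 - μ0 - c' := by rw [hρ]; ring
    linarith [hre.2]
  rw [Gs_int hb hd (by linarith [hre1.1]) (by linarith) hrI, norm_mul]
  have hA : ‖∫ t in (0 : ℝ)..1, W w t * F ((t * r : ℝ) : ℂ)‖ ≤ C * J := by
    refine W_int_le (N := 1) (c' := c') (by linarith) (by linarith) (by push_cast; linarith [hre1.1])
      (by linarith [hre.2]) hC0.le (fun t ht => ?_)
    exact F_upper_mul hF hc0 hC0 hC ht hrI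
  calc ‖κ w‖ * ‖∫ t in (0 : ℝ)..1, W w t * F ((t * r : ℝ) : ℂ)‖ ≤ K * (C * J) := by
        have := hK w (by linarith)
        gcongr
    _ ≤ 1 + K * (C * J) := by linarith

/-- the disc `‖μ - 1‖ < 1` -/
lemma disc_one (hN : PropN F) (h0 : F 0 = 0) (h1 : deriv F 0 = 1)
    (hd : DifferentiableOn ℂ F (ball 0 1)) (hF : ∀ z ∈ ball (0 : ℂ) 1, F z = starF m z)
    (hc : 2 * m.real {e1} < 1) {μ : ℂ} (hμ : ‖μ - 1‖ < 1) {ε : ℝ} (hε : 0 < ε) :
    ∃ r1 : ℝ, r1 < 1 ∧ ∀ r : ℝ, r1 ≤ r → r < 1 → ‖Gs (tc F) μ r‖ ≤ (1 - r) ^ (-ε) := by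
  have hb := hN.tc_le h0 h1
  obtain ⟨μ0, hμ00, hμ01, r0, hr0, c, hc0, hlo⟩ := lower_base hb hd hF hc
  obtain ⟨C, ρ, hC, hρ, hup⟩ := upper_base hb hd hF hμ00 hμ01
  have hm0 : 0 ≤ m.real {e1} := measureReal_nonneg
  refine Gs_soft hN h0 h1 (a := 1) (Or.inl rfl) (μ0 := μ0) ?_ (C := max C (1 / c)) (ρ := ρ)
    (r0 := max r0 (1 / 2)) (hC.trans (le_max_left _ _)) hρ (max_lt hr0 (by norm_num))
    (fun r hr hr1 w hw hwρ => (hup r ((le_max_right _ _).trans hr) hr1 w hw hwρ).trans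
      (le_max_left _ _))
    (fun r hr hr1 => ?_) hμ hε
  · have : (μ0 : ℂ) - 1 = ((μ0 - 1 : ℝ) : ℂ) := by push_cast; ring
    rw [this, Complex.norm_real, Real.norm_eq_abs, abs_lt]
    constructor <;> linarith
  · refine le_trans ?_ (hlo r ((le_max_left _ _).trans hr) hr1)
    have h2 : 1 / c ≤ max C (1 / c) := le_max_right _ _
    calc 1 / max C (1 / c) ≤ 1 / (1 / c) := one_div_le_one_div_of_le (by positivity) h2
      _ = c := by field_simp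

end Pool.Agent.StarN
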