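import Pool.Agent.StarN.Upper
import Pool.Agent.StarN.GsSoft

/-!
The disc `‖μ + 1‖ < 1`.
-/

namespace Pool.Agent.StarN

open Complex Metric Set Filter Topology MeasureTheory intervalIntegral Interval

variable {m : Measure 𝕊} [IsProbabilityMeasure m] {F : ℂ → ℂ}

/-- upper bound near `-1` -/
lemma upper_neg_one (hb : ∀ n, ‖tc F n‖ ≤ n) (h1 : deriv F 0 = 1)
    (hd : DifferentiableOn ℂ F (ball 0 1)) (hF : ∀ z ∈ ball (0 : ℂ) 1, F z = starF m z)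
    (hc : 2 * m.real {e1} < 2) :
    ∃ C ρ : ℝ, 1 ≤ C ∧ 0 < ρ ∧ ∀ r : ℝ, 1 / 2 ≤ r → r < 1 → ∀ w ∈ ball (-1 : ℂ) 1,
      ‖w - (-1)‖ < ρ → ‖Gs (tc F) w r‖ ≤ C := by
  obtain ⟨c', hc1, hc2⟩ := exists_between hc
  obtain ⟨C2, hC20, hC2⟩ := F2_bound hb h1 hd hF hc1
  have hc0 : 0 ≤ c' := le_trans (by positivity) hc1.le
  obtain ⟨K, hK0, hK⟩ := κ_bound
  have hb0 : tc F 0 = 0 := by
    have := hb 0
    simpa using this
  have hb1 : tc F 1 = 1 := by rw [tc_one, h1]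
  set ρ : ℝ := min (1 / 2) ((2 - c') / 2) with hρ
  have hρ0 : 0 < ρ := lt_min (by norm_num) (by linarith)
  have hρ1 : ρ ≤ 1 / 2 := min_le_left _ _
  have hρ2 : ρ ≤ (2 - c') / 2 := min_le_right _ _
  set J : ℝ := ∫ t in (0 : ℝ)..1, t ^ (-ρ) * (1 - t) ^ (1 - ρ - c') with hJ
  have hJ0 : 0 ≤ J := by
    refine intervalIntegral.integral_nonneg zero_le_one (fun t ht => ?_)
    have : 0 ≤ 1 - t := by linarith [ht.2]
    have := ht.1
    positivity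
  refine ⟨1 + K * (C2 * J), ρ, by
    have : 0 ≤ K * (C2 * J) := by positivity
    linarith, hρ0, fun r hr hr1 w hw hwρ => ?_⟩
  rw [mem_ball_iff_norm] at hw
  have hnr : ‖(r : ℂ)‖ = r := by
    rw [Complex.norm_real, Real.norm_eq_abs, abs_of_pos (by linarith)]
  have hnr1 : ‖(r : ℂ)‖ < 1 := by rw [hnr]; exact hr1
  have hw2 : ‖w‖ ≤ 2 := by
    calc ‖w‖ = ‖(w - (-1)) + (-1)‖ := by ring_nf
      _ ≤ ‖w - (-1)‖ + ‖(-1 : ℂ)‖ := norm_add_le _ _
      _ ≤ 1 + 1 := by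
        have : ‖(-1 : ℂ)‖ = 1 := by simp
        rw [this]; linarith
      _ = 2 := by norm_num
  have hre : |w.re - (-1)| < ρ := by
    have := Complex.abs_re_le_norm (w - (-1))
    simp only [Complex.sub_re, Complex.neg_re, Complex.one_re] at this
    linarith
  rw [abs_lt] at hre
  rw [Gs_rm hb hw2 hnr1, hb1, one_mul]
  have hint := int_formula (μ := w) (N := 2) (Or.inr rfl) (by push_cast; linarith [hre.1])
    (by linarith [hre.2]) (a := rm (tc F)) (fun n hn => by simp [rm, hn])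
    (r := r) (by linarith) (summable_abs (rm_le hb) (by linarith) hr1)
  rw [hint]
  have hA : ‖∫ t in (0 : ℝ)..1, W w t * ∑' n : ℕ, rm (tc F) n * ((t * r : ℝ) : ℂ) ^ n‖ ≤
      C2 * J := by
    refine W_int_le (N := 2) (c' := c') (by linarith) (by linarith) (by push_cast; linarith [hre.1])
      (by linarith [hre.2]) hC20.le (fun t ht => ?_)
    have htr : t * r ∈ Ioo (0 : ℝ) 1 := mem_Ioo_mul ht ⟨by linarith, hr1⟩
    have hs := hasSum_rm hb0 (hasSum_F hd htr.1.le htr.2)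
    rw [hb1, one_mul] at hs
    rw [hs.tsum_eq]
    refine (hC2 _ htr).trans ?_
    have h1t : 0 < 1 - t := by linarith [ht.2]
    have e1 : (1 - t * r) ^ (-c') ≤ (1 - t) ^ (-c') := by
      refine Real.rpow_le_rpow_of_nonpos h1t ?_ (by linarith)
      nlinarith [ht.1]
    have e2 : (t * r) ^ 2 ≤ t ^ 2 := by
      apply pow_le_pow_left₀ htr.1.le
      nlinarith [ht.1]
    have : 0 ≤ (1 - t * r) ^ (-c') := Real.rpow_nonneg (by linarith [htr.2]) _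
    gcongr
  calc ‖(r : ℂ) + κ w * ∫ t in (0 : ℝ)..1, W w t * ∑' n : ℕ, rm (tc F) n * ((t * r : ℝ) : ℂ) ^ n‖
      ≤ ‖(r : ℂ)‖ + ‖κ w‖ * ‖∫ t in (0 : ℝ)..1, W w t *
          ∑' n : ℕ, rm (tc F) n * ((t * r : ℝ) : ℂ) ^ n‖ := by
        refine (norm_add_le _ _).trans ?_
        rw [norm_mul]
    _ ≤ 1 + K * (C2 * J) := by
        rw [hnr]
        have := hK w (by linarith)
        gcongr

/-- the disc `‖μ + 1‖ < 1` -/
lemma disc_neg_one (hN : PropN F) (h0 : F 0 = 0) (h1 : deriv F 0 = 1)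
    (hd : DifferentiableOn ℂ F (ball 0 1)) (hF : ∀ z ∈ ball (0 : ℂ) 1, F z = starF m z)
    (hc : 2 * m.real {e1} < 2) {μ : ℂ} (hμ : ‖μ - (-1)‖ < 1) {ε : ℝ} (hε : 0 < ε) :
    ∃ r1 : ℝ, r1 < 1 ∧ ∀ r : ℝ, r1 ≤ r → r < 1 → ‖Gs (tc F) μ r‖ ≤ (1 - r) ^ (-ε) := by
  have hb := hN.tc_le h0 h1
  have hb0 : tc F 0 = 0 := by
    have := hb 0
    simpa using this
  have hb1 : tc F 1 = 1 := by rw [tc_one, h1]
  obtain ⟨C, ρ, hC, hρ, hup⟩ := upper_neg_one hb h1 hd hF hc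
  refine Gs_soft hN h0 h1 (a := -1) (Or.inr rfl) (μ0 := -1) (by simp) (C := max C 2) (ρ := ρ)
    (r0 := 1 / 2) (hC.trans (le_max_left _ _)) hρ (by norm_num)
    (fun r hr hr1 w hw hwρ => (hup r hr hr1 w hw hwρ).trans (le_max_left _ _))
    (fun r hr hr1 => ?_) hμ hε
  rw [Gs_neg_one _ hb0, hb1, one_mul, Complex.norm_real, Real.norm_eq_abs,
    abs_of_pos (by linarith)]
  have h2 : (2 : ℝ) ≤ max C 2 := le_max_right _ _
  calc 1 / max C 2 ≤ 1 / 2 := one_div_le_one_div_of_le (by norm_num) h2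
    _ ≤ r := hr

end Pool.Agent.StarN
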