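import Pool.Agent.StarN.Dim

/-!
Rotations.
-/

namespace Pool.Agent.StarN

open Complex Metric Set Filter Topology MeasureTheory

variable {m : Measure 𝕊} [IsProbabilityMeasure m] {F : ℂ → ℂ}

/-- the rotated function -/
noncomputable def rotF (x : 𝕊) (F : ℂ → ℂ) (z : ℂ) : ℂ := (starRingEnd ℂ) (x : ℂ) * F (x * z)

lemma conj_coe (x : 𝕊) : (starRingEnd ℂ) (x : ℂ) = (x : ℂ)⁻¹ := by
  have h := norm_coe x
  have hx : (x : ℂ) ≠ 0 := by
    intro h0
    rw [h0, norm_zero] at h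
    norm_num at h
  have h2 : (x : ℂ) * (starRingEnd ℂ) (x : ℂ) = 1 := by
    rw [Complex.mul_conj, Complex.normSq_eq_norm_sq, h]; norm_num
  field_simp
  rw [mul_comm]; exact h2

lemma coe_ne (x : 𝕊) : (x : ℂ) ≠ 0 := by
  intro h0
  have h := norm_coe x
  rw [h0, norm_zero] at h
  norm_num at h

lemma mul_mem (x : 𝕊) {z : ℂ} (hz : z ∈ ball (0 : ℂ) 1) : (x : ℂ) * z ∈ ball (0 : ℂ) 1 := by
  rw [mem_ball_zero_iff] at *
  rw [norm_mul, norm_coe, one_mul]; exact hz

lemma rotF_diff (x : 𝕊) (hd : DifferentiableOn ℂ F (ball 0 1)) :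
    DifferentiableOn ℂ (rotF x F) (ball 0 1) := by
  unfold rotF
  refine DifferentiableOn.const_mul ?_ _
  exact hd.comp (by fun_prop) (fun z hz => mul_mem x hz)

lemma rotF_zero (x : 𝕊) (h0 : F 0 = 0) : rotF x F 0 = 0 := by simp [rotF, h0]

lemma tc_rotF (x : 𝕊) (hd : DifferentiableOn ℂ F (ball 0 1)) (n : ℕ) :
    tc (rotF x F) n = (starRingEnd ℂ) (x : ℂ) * tc F n * (x : ℂ) ^ n := by
  refine tc_of_hasSum (a := fun n => (starRingEnd ℂ) (x : ℂ) * tc F n * (x : ℂ) ^ n)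
    (fun z hz => ?_) n
  have h := (hasSum_tc hd (mul_mem x hz)).mul_left ((starRingEnd ℂ) (x : ℂ))
  have e : (fun n : ℕ => (starRingEnd ℂ) (x : ℂ) * tc F n * (x : ℂ) ^ n * z ^ n) =
      fun n : ℕ => (starRingEnd ℂ) (x : ℂ) * (tc F n * ((x : ℂ) * z) ^ n) := by
    funext n
    rw [mul_pow]; ring
  rw [e]; exact h

lemma rotF_deriv (x : 𝕊) (hd : DifferentiableOn ℂ F (ball 0 1)) (h1 : deriv F 0 = 1) :
    deriv (rotF x F) 0 = 1 := by
  rw [← tc_one, tc_rotF x hd, tc_one, h1, conj_coe]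
  have := coe_ne x
  field_simp

lemma rotF_propN (x : 𝕊) (hd : DifferentiableOn ℂ F (ball 0 1)) (hN : PropN F) :
    PropN (rotF x F) := by
  intro f hf z hz hz1
  have h := hN f hf ((x : ℂ) * z) (by rw [norm_mul, norm_coe, one_mul]; exact hz)
    (by rw [norm_mul, norm_coe, one_mul]; exact hz1)
  have e : had (rotF x F) f z = (starRingEnd ℂ) (x : ℂ) * had F f ((x : ℂ) * z) := by
    unfold had
    rw [← tsum_mul_left]
    congr 1
    funext n
    rw [tc_rotF x hd, mul_pow]; ring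
  rw [e, conj_coe]
  exact mul_ne_zero (inv_ne_zero (coe_ne x)) h

/-- the rotated measure -/
noncomputable def rotm (x : 𝕊) (m : Measure 𝕊) : Measure 𝕊 := m.map (fun ζ => ζ * x⁻¹)

lemma rot_measurable (x : 𝕊) : Measurable (fun ζ : 𝕊 => ζ * x⁻¹) :=
  (continuous_mul_const x⁻¹).measurable

instance (x : 𝕊) : IsProbabilityMeasure (rotm x m) :=
  Measure.isProbabilityMeasure_map (rot_measurable x).aemeasurable

omit [IsProbabilityMeasure m] in
lemma rotm_ball (x : 𝕊) (h : ℝ) :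
    (rotm x m).real (closedBall e1 h) = m.real (closedBall x h) := by
  unfold rotm
  rw [map_measureReal_apply (rot_measurable x) measurableSet_closedBall]
  congr 1
  ext ζ
  simp only [mem_preimage, mem_closedBall]
  have e : dist (ζ * x⁻¹) e1 = dist ζ x := by
    rw [Subtype.dist_eq, Subtype.dist_eq, dist_eq_norm, dist_eq_norm, Metric.unitSphere.coe_mul,
      Metric.unitSphere.coe_inv]
    have h1 : (ζ : ℂ) * (x : ℂ)⁻¹ - (e1 : ℂ) = ((ζ : ℂ) - x) * (x : ℂ)⁻¹ := by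
      have := coe_ne x
      simp only [e1]
      field_simp
    rw [h1, norm_mul, norm_inv, norm_coe, inv_one, mul_one]
  rw [e]

omit [IsProbabilityMeasure m] in
lemma rotm_singleton (x : 𝕊) : (rotm x m).real {e1} = m.real {x} := by
  have h1 : ({e1} : Set 𝕊) = closedBall e1 0 := by rw [closedBall_zero]
  have h2 : ({x} : Set 𝕊) = closedBall x 0 := by rw [closedBall_zero]
  rw [h1, h2, rotm_ball]

omit [IsProbabilityMeasure m] in
lemma starF_rotm (x : 𝕊) {z : ℂ} (hz : ‖z‖ < 1) : starF (rotm x m) z = rotF x (starF m) z := by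
  unfold rotF starF rotm
  rw [integral_map (rot_measurable x).aemeasurable]
  · have e : ∀ ζ : 𝕊, Complex.log (1 - (starRingEnd ℂ) ((ζ * x⁻¹ : 𝕊) : ℂ) * z) =
        Complex.log (1 - (starRingEnd ℂ) (ζ : ℂ) * ((x : ℂ) * z)) := by
      intro ζ
      rw [Metric.unitSphere.coe_mul, Metric.unitSphere.coe_inv, ← conj_coe, map_mul,
        Complex.conj_conj]
      congr 1
      ring
    simp only [e]
    rw [conj_coe, ← mul_assoc, ← mul_assoc, inv_mul_cancel₀ (coe_ne x), one_mul]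
  · exact (continuous_log_lf hz).aestronglyMeasurable

/-- Local structure of the representing measure at every point. -/
theorem at_point (hN : PropN F) (h0 : F 0 = 0) (h1 : deriv F 0 = 1)
    (hd : DifferentiableOn ℂ F (ball 0 1)) (hF : ∀ z ∈ ball (0 : ℂ) 1, F z = starF m z) (x : 𝕊) :
    m.real {x} = 1 ∨ m.real {x} = 1 / 2 ∨ ∀ ε : ℝ, 0 < ε →
      ∃ C : ℝ, 0 < C ∧ ∀ h : ℝ, 0 < h → h ≤ 1 → m.real (closedBall x h) ≤ C * h ^ (1 - ε) := by
  have := at_one (m := rotm x m) (rotF_propN x hd hN) (rotF_zero x h0) (rotF_deriv x hd h1)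
    (rotF_diff x hd) (fun z hz => by
      rw [starF_rotm x (mem_ball_zero_iff.mp hz)]
      unfold rotF
      rw [hF _ (mul_mem x hz)])
  rw [rotm_singleton] at this
  simpa only [rotm_ball] using this

/-- a point which is not an atom of mass `1` or `1/2` is not an atom. -/
lemma atom_zero {x : 𝕊} (h : ∀ ε : ℝ, 0 < ε →
      ∃ C : ℝ, 0 < C ∧ ∀ h : ℝ, 0 < h → h ≤ 1 → m.real (closedBall x h) ≤ C * h ^ (1 - ε)) :
    m.real {x} = 0 := by
  obtain ⟨C, hC0, hC⟩ := h (1 / 2) (by norm_num)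
  by_contra hne
  have hpos : 0 < m.real {x} := lt_of_le_of_ne measureReal_nonneg (Ne.symm hne)
  have h2 : ∀ h : ℝ, 0 < h → h ≤ 1 → m.real {x} ≤ C * h ^ (1 - 1 / 2 : ℝ) := by
    intro h hh hh1
    refine le_trans (measureReal_mono ?_) (hC h hh hh1)
    intro y hy
    rw [mem_singleton_iff] at hy
    subst hy
    exact mem_closedBall_self hh.le
  have hlim : Tendsto (fun h : ℝ => C * h ^ (1 - 1 / 2 : ℝ)) (𝓝[>] 0) (𝓝 0) := by
    have h5 : ContinuousAt (fun h : ℝ => C * h ^ (1 - 1 / 2 : ℝ)) 0 :=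
      continuousAt_const.mul (Real.continuousAt_rpow_const 0 _ (Or.inr (by norm_num)))
    have := h5.tendsto
    rw [Real.zero_rpow (by norm_num), mul_zero] at this
    exact this.mono_left nhdsWithin_le_nhds
  have h6 := hlim.eventually (gt_mem_nhds hpos)
  have h7 : ∀ᶠ h : ℝ in 𝓝[>] 0, h ∈ Ioo (0 : ℝ) 1 := Ioo_mem_nhdsGT (by norm_num)
  obtain ⟨h, h8, h9⟩ := (h6.and h7).exists
  have := h2 h h9.1 h9.2.le
  linarith

end Pool.Agent.StarN
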