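import Pool.Agent.StarN.MeasU
import Pool.Agent.StarN.Rot

/-!
Uniform version of the estimates on the disc `‖μ - 1‖ < 1`.
-/

namespace Pool.Agent.StarN

open Complex Metric Set Filter Topology MeasureTheory intervalIntegral Interval

/-- `Gs` is at most a small power on the disc `‖μ - a‖ < 1`, uniform version. -/
lemma Gs_soft_unif {μ0 : ℂ} (hμ0 : ‖μ0 - 1‖ < 1) {C ρ r0 : ℝ} (hC : 1 ≤ C) (hρ : 0 < ρ)
    (hr0 : r0 < 1) {μ : ℂ} (hμ : ‖μ - 1‖ < 1) {ε : ℝ} (hε : 0 < ε) :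
    ∃ r1 : ℝ, r1 < 1 ∧ ∀ F : ℂ → ℂ, PropN F → F 0 = 0 → deriv F 0 = 1 →
      (∀ r : ℝ, r0 ≤ r → r < 1 → ∀ w ∈ ball (1 : ℂ) 1, ‖w - μ0‖ < ρ → ‖Gs (tc F) w r‖ ≤ C) →
      (∀ r : ℝ, r0 ≤ r → r < 1 → 1 / C ≤ ‖Gs (tc F) μ0 r‖) →
      ∀ r : ℝ, r1 ≤ r → r < 1 → ‖Gs (tc F) μ r‖ ≤ (1 - r) ^ (-ε) := by
  obtain ⟨L0, hL0⟩ := soft 1 μ0 μ hμ0 hμ 3 C ρ ε (by norm_num) hC hρ hε
  refine ⟨max (max r0 (1 / 2)) (1 - Real.exp (-L0)), ?_, ?_⟩
  · refine max_lt (max_lt hr0 (by norm_num)) ?_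
    have := Real.exp_pos (-L0)
    linarith
  · intro F hN h0 h1 hup hlo r hr hr1
    have hb := hN.tc_le h0 h1
    have hr0' : r0 ≤ r := (le_max_left _ _).trans ((le_max_left _ _).trans hr)
    have hrh : 1 / 2 ≤ r := (le_max_right _ _).trans ((le_max_left _ _).trans hr)
    have hre : 1 - Real.exp (-L0) ≤ r := (le_max_right _ _).trans hr
    have h1r : 0 < 1 - r := by linarith
    have hnr : ‖(r : ℂ)‖ = r := by
      rw [Complex.norm_real, Real.norm_eq_abs, abs_of_pos (by linarith)]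
    have hnr1 : ‖(r : ℂ)‖ < 1 := by rw [hnr]; exact hr1
    have hL : L0 ≤ -Real.log (1 - r) := by
      have h2 : 1 - r ≤ Real.exp (-L0) := by linarith
      have h3 := Real.log_le_log h1r h2
      rw [Real.log_exp] at h3
      linarith
    have hball : ball (1 : ℂ) 1 ⊆ ball (0 : ℂ) 2 := by
      intro w hw
      rw [mem_ball_iff_norm] at hw
      rw [mem_ball_zero_iff]
      calc ‖w‖ = ‖(w - 1) + 1‖ := by ring_nf
        _ ≤ ‖w - 1‖ + ‖(1 : ℂ)‖ := norm_add_le _ _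
        _ < 1 + 1 := by rw [norm_one]; linarith
        _ = 2 := by norm_num
    have := hL0 _ hL (fun w => Gs (tc F) w r) ((Gs_differentiableOn hb hnr1).mono hball)
      (fun w hw => hN.Gs_ne (by
        rw [mem_ball_iff_norm] at hw
        have hw2 : ‖w - 1‖ ^ 2 < 1 := by nlinarith [norm_nonneg (w - 1)]
        rw [Complex.sq_norm, Complex.normSq_apply] at hw2 ⊢
        simp at hw2
        have : w.re ≤ |w.re| := le_abs_self _
        nlinarith) (by rw [hnr]; linarith) hnr1)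
      (fun w hw => by
        have h4 := Gs_le hb (mem_ball_zero_iff.mp (hball hw)).le hnr1
        rw [hnr] at h4
        refine h4.trans (le_of_eq ?_)
        rw [exp_mul_log h1r, Real.rpow_neg h1r.le, one_div]
        congr 1
        exact_mod_cast (Real.rpow_natCast (1 - r) 3).symm)
      (fun w hw hwρ => hup r hr0' hr1 w hw hwρ) (hlo r hr0' hr1)
    rwa [exp_mul_log h1r] at this

/-- real part from below on the radius -/
lemma re_lower_unif {δ : ℝ} (hδ0 : 0 < δ) (hδ1 : δ ≤ 1) :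
    ∃ C2 : ℝ, 0 ≤ C2 ∧ ∀ (m : Measure 𝕊) [IsProbabilityMeasure m], m.real {e1} = 0 →
      m.real (closedBall e1 δ) ≤ 1 / 100 → ∃ ω : ℂ, ‖ω‖ = 1 ∧ ∀ x ∈ Ioo (0 : ℝ) 1,
        x / 8 - C2 * x * (1 - x) ≤ (ω * starF m (x : ℂ)).re := by
  set x0 : ℝ := 1 - δ / 8 with hx0
  set E : ℝ := Real.exp (2 * |Real.log (δ / 2)|) with hE
  have hE0 : 0 < E := Real.exp_pos _
  have h1x0 : 0 < 1 - x0 := by rw [hx0]; linarith
  have hp1 : 0 ≤ (1 - x0) ^ (-(1 : ℝ)) := Real.rpow_nonneg h1x0.le _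
  refine ⟨(E * (1 - x0) ^ (-(1 : ℝ)) + 1 / 8) / (1 - x0), by positivity, ?_⟩
  intro m _ hm0 hmδ
  obtain ⟨ω, hω, hhalf⟩ := exists_half_delta hδ0 hδ1 hmδ
  have hC := starF_upper_delta (m := m) (c' := 1) hδ0 (by linarith)
  refine ⟨ω, hω, fun x hx => ?_⟩
  have h1x : 0 < 1 - x := by linarith [hx.2]
  rcases le_total x0 x with h | h
  · have h2 := hhalf x hx h
    have h3 := starF_lower (m := m) hx
    rw [hm0, mul_zero, neg_zero, Real.rpow_zero, mul_one] at h3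
    have h4 : 0 ≤ (E * (1 - x0) ^ (-(1 : ℝ)) + 1 / 8) / (1 - x0) * x * (1 - x) := by
      have := hx.1
      positivity
    linarith
  · have h2 : -‖starF m (x : ℂ)‖ ≤ (ω * starF m (x : ℂ)).re := by
      have := Complex.abs_re_le_norm (ω * starF m (x : ℂ))
      rw [norm_mul, hω, one_mul] at this
      exact (abs_le.mp this).1
    have h3 := hC x hx
    have e1' : (1 - x) ^ (-(1 : ℝ)) ≤ (1 - x0) ^ (-(1 : ℝ)) :=
      Real.rpow_le_rpow_of_nonpos h1x0 (by linarith) (by linarith)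
    have h4 : E * x * (1 - x) ^ (-(1 : ℝ)) ≤ E * x * (1 - x0) ^ (-(1 : ℝ)) := by
      have := hx.1
      gcongr
    have h6 : (E * (1 - x0) ^ (-(1 : ℝ)) + 1 / 8) * x ≤
        (E * (1 - x0) ^ (-(1 : ℝ)) + 1 / 8) / (1 - x0) * x * (1 - x) := by
      have h7 : (E * (1 - x0) ^ (-(1 : ℝ)) + 1 / 8) / (1 - x0) * x * (1 - x) =
          (E * (1 - x0) ^ (-(1 : ℝ)) + 1 / 8) * x * ((1 - x) / (1 - x0)) := by
        field_simp
      rw [h7]
      have h8 : 1 ≤ (1 - x) / (1 - x0) := by rw [one_le_div h1x0]; linarith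
      have h9 : 0 ≤ (E * (1 - x0) ^ (-(1 : ℝ)) + 1 / 8) * x := by
        have := hx.1
        positivity
      nlinarith
    linarith

/-- lower bound at a base point near `1` -/
lemma lower_base_unif {δ : ℝ} (hδ0 : 0 < δ) (hδ1 : δ ≤ 1) :
    ∃ μ0 : ℝ, 0 < μ0 ∧ μ0 < 1 ∧ ∃ r0 : ℝ, r0 < 1 ∧ ∃ C : ℝ, 0 < C ∧
      ∀ (m : Measure 𝕊) [IsProbabilityMeasure m] (F : ℂ → ℂ), (∀ n, ‖tc F n‖ ≤ n) →
      DifferentiableOn ℂ F (ball 0 1) → (∀ z ∈ ball (0 : ℂ) 1, F z = starF m z) →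
      m.real {e1} = 0 → m.real (closedBall e1 δ) ≤ 1 / 100 →
      ∀ r : ℝ, r0 ≤ r → r < 1 → C ≤ ‖Gs (tc F) μ0 r‖ := by
  obtain ⟨C2, hC20, hre0⟩ := re_lower_unif hδ0 hδ1
  set s : ℝ := min (1 / 2) (1 / (32 * (2 * C2 + 1))) with hs
  have hs0 : 0 < s := lt_min (by norm_num) (by positivity)
  have hs1 : s ≤ 1 / 2 := min_le_left _ _
  have hs2 : s ≤ 1 / (32 * (2 * C2 + 1)) := min_le_right _ _
  have hsle1 : s ≤ 1 := by linarith
  set μ0 : ℝ := 1 - s with hμ0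
  have hμ00 : 0 < μ0 := by rw [hμ0]; linarith
  have hμ01 : μ0 < 1 := by rw [hμ0]; linarith
  refine ⟨μ0, hμ00, hμ01, max (1 / 2) μ0, max_lt (by norm_num) hμ01,
    ‖κ (μ0 : ℂ)‖ * (1 / 2), ?_, ?_⟩
  · have := norm_pos_iff.mpr (κ_pos (by linarith : -1 < μ0) hμ01)
    positivity
  intro m _ F hb hd hF hm0 hmδ r hr hr1
  obtain ⟨ω, hω, hre⟩ := hre0 m hm0 hmδ
  have hrh : 1 / 2 ≤ r := (le_max_left _ _).trans hr
  have hrμ : μ0 ≤ r := (le_max_right _ _).trans hr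
  have hrI : r ∈ Ioo (0 : ℝ) 1 := ⟨by linarith, hr1⟩
  rw [Gs_int hb hd (by simp; linarith) (by simpa using hμ01) hrI, norm_mul]
  gcongr
  -- now the integral
  obtain ⟨C, hC0, hC⟩ := F_bd hF hrI
  have hAint : IntervalIntegrable (fun t : ℝ => W (μ0 : ℂ) t * F ((t * r : ℝ) : ℂ)) volume 0 1 :=
    W_integrable (N := 1) (c' := 0) (C := C) (by simp; linarith) (by simp; linarith)
      ((cont_F hd hrI).mono Ioo_subset_Icc_self) hC
  obtain ⟨hI1, hI2⟩ := re_int ω hAint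
  have hnorm : (ω * ∫ t in (0 : ℝ)..1, W (μ0 : ℂ) t * F ((t * r : ℝ) : ℂ)).re ≤
      ‖∫ t in (0 : ℝ)..1, W (μ0 : ℂ) t * F ((t * r : ℝ) : ℂ)‖ := by
    refine (Complex.re_le_norm _).trans ?_
    rw [norm_mul, hω, one_mul]
  refine le_trans ?_ hnorm
  rw [hI1]
  -- the error term
  have hE : IntervalIntegrable (fun t : ℝ => C2 * r * (1 + (1 - r) * (1 - t) ^ ((1 - μ0) - 1)))
      volume 0 1 :=
    ((intervalIntegrable_const (c := (1 : ℝ))).add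
      ((one_sub_integrable (by linarith : 0 < 1 - μ0)).const_mul (1 - r))).const_mul (C2 * r)
  have hEval : ∫ t in (0 : ℝ)..1, C2 * r * (1 + (1 - r) * (1 - t) ^ ((1 - μ0) - 1)) ≤
      2 * C2 * r := by
    rw [intervalIntegral.integral_const_mul, intervalIntegral.integral_add
      intervalIntegrable_const ((one_sub_integrable (by linarith : 0 < 1 - μ0)).const_mul (1 - r)),
      intervalIntegral.integral_const_mul, int_one_sub (by linarith : 0 < 1 - μ0)]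
    have h1 : ((1 : ℝ) - 0) ^ (1 - μ0) = 1 := by rw [sub_zero, Real.one_rpow]
    have h2 : ((1 : ℝ) - 1) ^ (1 - μ0) = 0 := by
      rw [sub_self, Real.zero_rpow (by linarith)]
    rw [h1, h2]
    have h3 : (1 - r) * ((1 - 0) / (1 - μ0)) ≤ 1 := by
      rw [sub_zero, mul_one_div, div_le_one (by linarith)]
      linarith
    simp only [intervalIntegral.integral_const, smul_eq_mul]
    have h4 : 0 ≤ C2 * r := mul_nonneg hC20 hrI.1.le
    nlinarith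
  set Φ : ℝ → ℝ := fun t => t ^ (μ0 - 1) * (1 - t) ^ (-μ0) * (ω * F ((t * r : ℝ) : ℂ)).re +
    C2 * r * (1 + (1 - r) * (1 - t) ^ ((1 - μ0) - 1)) with hΦ
  have hΦint : IntervalIntegrable Φ volume 0 1 := hI2.add hE
  have hsum : ∫ t in (0 : ℝ)..1, Φ t =
      (∫ t in (0 : ℝ)..1, t ^ (μ0 - 1) * (1 - t) ^ (-μ0) * (ω * F ((t * r : ℝ) : ℂ)).re) +
      ∫ t in (0 : ℝ)..1, C2 * r * (1 + (1 - r) * (1 - t) ^ ((1 - μ0) - 1)) :=
    intervalIntegral.integral_add hI2 hE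
  have hpt : ∀ t ∈ Ioo (0 : ℝ) 1,
      r / 8 * (t ^ μ0 * (1 - t) ^ (-μ0)) ≤ Φ t := by
    intro t ht
    have htr : t * r ∈ Ioo (0 : ℝ) 1 := mem_Ioo_mul ht hrI
    have h1t : 0 < 1 - t := by linarith [ht.2]
    have h1 := hre _ htr
    rw [← hF _ (by rw [mem_ball_zero_iff]; exact norm_real_lt htr)] at h1
    have p1 : 0 ≤ t ^ (μ0 - 1) := Real.rpow_nonneg ht.1.le _
    have p2 : 0 ≤ (1 - t) ^ (-μ0) := Real.rpow_nonneg h1t.le _
    have h2 : t ^ (μ0 - 1) * (1 - t) ^ (-μ0) *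
        (t * r / 8 - C2 * (t * r) * (1 - t * r)) ≤
        t ^ (μ0 - 1) * (1 - t) ^ (-μ0) * (ω * F ((t * r : ℝ) : ℂ)).re := by gcongr
    have h3 : t ^ (μ0 - 1) * t = t ^ μ0 := by
      rw [Real.rpow_sub_one ht.1.ne', div_mul_cancel₀ _ ht.1.ne']
    have h4 : t ^ (μ0 - 1) * (1 - t) ^ (-μ0) *
        (t * r / 8 - C2 * (t * r) * (1 - t * r)) =
        r / 8 * (t ^ μ0 * (1 - t) ^ (-μ0)) -
          C2 * r * (t ^ μ0 * ((1 - t) ^ (-μ0) * (1 - t * r))) := by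
      rw [← h3]; ring
    rw [h4] at h2
    have h5 : t ^ μ0 ≤ 1 := Real.rpow_le_one ht.1.le ht.2.le hμ00.le
    have h6 : (1 - t) ^ (-μ0) * (1 - t * r) ≤ 1 + (1 - r) * (1 - t) ^ ((1 - μ0) - 1) := by
      have e1' : 1 - t * r ≤ (1 - t) + (1 - r) := by nlinarith [ht.1, ht.2, hr1]
      have e2 : (1 - t) ^ (-μ0) * (1 - t) = (1 - t) ^ (1 - μ0) := by
        rw [show (1 - μ0) = -μ0 + 1 by ring, Real.rpow_add_one h1t.ne']
      have e3 : (1 - t) ^ (1 - μ0) ≤ 1 := Real.rpow_le_one h1t.le (by linarith [ht.1])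
        (by linarith)
      rw [show (1 - μ0) - 1 = -μ0 by ring]
      calc (1 - t) ^ (-μ0) * (1 - t * r) ≤ (1 - t) ^ (-μ0) * ((1 - t) + (1 - r)) := by gcongr
        _ = (1 - t) ^ (-μ0) * (1 - t) + (1 - r) * (1 - t) ^ (-μ0) := by ring
        _ ≤ _ := by rw [e2]; gcongr
    have h7 : t ^ μ0 * ((1 - t) ^ (-μ0) * (1 - t * r)) ≤
        1 + (1 - r) * (1 - t) ^ ((1 - μ0) - 1) := by
      have p3 : 0 ≤ (1 - t) ^ (-μ0) * (1 - t * r) := mul_nonneg p2 (by linarith [htr.2])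
      calc t ^ μ0 * ((1 - t) ^ (-μ0) * (1 - t * r)) ≤ 1 * ((1 - t) ^ (-μ0) * (1 - t * r)) := by
            gcongr
        _ ≤ _ := by rw [one_mul]; exact h6
    have h8 : C2 * r * (t ^ μ0 * ((1 - t) ^ (-μ0) * (1 - t * r))) ≤
        C2 * r * (1 + (1 - r) * (1 - t) ^ ((1 - μ0) - 1)) := by
      have : 0 ≤ C2 * r := mul_nonneg hC20 hrI.1.le
      gcongr
    simp only [hΦ]
    linarith
  have hΦ0 : ∀ t ∈ Ioo (0 : ℝ) 1, 0 ≤ Φ t := by
    intro t ht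
    refine le_trans ?_ (hpt t ht)
    have p1 : 0 ≤ t ^ μ0 := Real.rpow_nonneg ht.1.le _
    have p2 : 0 ≤ (1 - t) ^ (-μ0) := Real.rpow_nonneg (by linarith [ht.2]) _
    have := hrI.1
    positivity
  have hmono : ∫ t in (1 / 2 : ℝ)..1, Φ t ≤ ∫ t in (0 : ℝ)..1, Φ t := by
    refine intervalIntegral.integral_mono_interval (by norm_num) (by norm_num) le_rfl ?_
      hΦint
    rw [Filter.EventuallyLE, ae_restrict_iff' measurableSet_Ioc]
    filter_upwards [ae_mem_Ioo] with t ht h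
    exact hΦ0 t (ht h)
  have hlow : ∫ t in (1 / 2 : ℝ)..1, r / 16 * (1 - t) ^ (s - 1) ≤
      ∫ t in (1 / 2 : ℝ)..1, Φ t := by
    refine intervalIntegral.integral_mono_on_of_le_Ioo (by norm_num)
      ((one_sub_integrable hs0).const_mul _)
      (hΦint.mono_set ?_) (fun t ht => ?_)
    · rw [uIcc_of_le (by norm_num), uIcc_of_le zero_le_one]
      exact Icc_subset_Icc (by norm_num) le_rfl
    · have htI : t ∈ Ioo (0 : ℝ) 1 := ⟨by linarith [ht.1], ht.2⟩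
      refine le_trans ?_ (hpt t htI)
      have h1t : 0 < 1 - t := by linarith [htI.2]
      have e1' : 1 / 2 ≤ t ^ μ0 := by
        calc (1 / 2 : ℝ) ≤ t := ht.1.le
          _ = t ^ (1 : ℝ) := (Real.rpow_one t).symm
          _ ≤ t ^ μ0 := Real.rpow_le_rpow_of_exponent_ge htI.1 htI.2.le hμ01.le
      have e4 : (1 - t) ^ (s - 1) = (1 - t) ^ (-μ0) := by
        congr 1; rw [hμ0]; ring
      rw [e4]
      have p2 : 0 ≤ (1 - t) ^ (-μ0) := Real.rpow_nonneg h1t.le _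
      have p4 := hrI.1
      calc r / 16 * (1 - t) ^ (-μ0)
          = r / 8 * (1 / 2 * (1 - t) ^ (-μ0)) := by ring
        _ ≤ _ := by gcongr
  rw [intervalIntegral.integral_const_mul, int_one_sub hs0] at hlow
  have hval : 1 / (2 * s) ≤ ((1 - 1 / 2) ^ s - (1 - 1) ^ s) / s := by
    rw [sub_self, Real.zero_rpow hs0.ne']
    have e2 : (1 / 2 : ℝ) ≤ (1 - 1 / 2) ^ s := by
      have : (1 : ℝ) - 1 / 2 = 1 / 2 := by norm_num
      rw [this]
      calc (1 / 2 : ℝ) = (1 / 2) ^ (1 : ℝ) := (Real.rpow_one _).symm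
        _ ≤ (1 / 2) ^ s := Real.rpow_le_rpow_of_exponent_ge (by norm_num) (by norm_num) hsle1
    rw [div_le_div_iff₀ (by positivity) hs0]
    nlinarith
  have hbig : r * (2 * C2 + 1) ≤ r / 16 * (1 / (2 * s)) := by
    have e1' : 2 * C2 + 1 ≤ 1 / (32 * s) := by
      rw [le_div_iff₀ (by positivity)]
      have : s * (32 * (2 * C2 + 1)) ≤ 1 := by
        rwa [le_div_iff₀ (by positivity)] at hs2
      linarith
    have e2 : r / 16 * (1 / (2 * s)) = r * (1 / (32 * s)) := by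
      field_simp; ring
    rw [e2]
    have := hrI.1
    gcongr
  have hfin : r / 16 * (1 / (2 * s)) ≤
      r / 16 * (((1 - 1 / 2) ^ s - (1 - 1) ^ s) / s) := by
    have := hrI.1
    gcongr
  linarith

/-- upper bound near a point of `(0, 1)` -/
lemma upper_base_unif {μ0 c' δ : ℝ} (h0 : 0 < μ0) (hc0 : 0 ≤ c') (h1 : μ0 + c' < 1)
    (hδ0 : 0 < δ) :
    ∃ C ρ : ℝ, 1 ≤ C ∧ 0 < ρ ∧
      ∀ (m : Measure 𝕊) [IsProbabilityMeasure m] (F : ℂ → ℂ), (∀ n, ‖tc F n‖ ≤ n) →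
      DifferentiableOn ℂ F (ball 0 1) → (∀ z ∈ ball (0 : ℂ) 1, F z = starF m z) →
      2 * m.real (closedBall e1 δ) < c' →
      ∀ r : ℝ, 1 / 2 ≤ r → r < 1 → ∀ w ∈ ball (1 : ℂ) 1,
        ‖w - (μ0 : ℂ)‖ < ρ → ‖Gs (tc F) w r‖ ≤ C := by
  obtain ⟨K, hK0, hK⟩ := κ_bound
  set C : ℝ := Real.exp (2 * |Real.log (δ / 2)|) with hCdef
  have hC0 : 0 < C := Real.exp_pos _
  set ρ : ℝ := (1 - μ0 - c') / 2 with hρ
  have hρ0 : 0 < ρ := by rw [hρ]; linarith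
  set J : ℝ := ∫ t in (0 : ℝ)..1, t ^ (0 : ℝ) * (1 - t) ^ (-(μ0 + ρ) - c') with hJ
  have hJ0 : 0 ≤ J := by
    refine intervalIntegral.integral_nonneg zero_le_one (fun t ht => ?_)
    have : 0 ≤ 1 - t := by linarith [ht.2]
    have := ht.1
    positivity
  refine ⟨1 + K * (C * J), ρ, by
    have : 0 ≤ K * (C * J) := by positivity
    linarith, hρ0, fun m _ F hb hd hF hmδ r hr hr1 w hw hwρ => ?_⟩
  have hC := starF_upper_delta (m := m) (c' := c') hδ0 hmδ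
  rw [mem_ball_iff_norm] at hw
  have hrI : r ∈ Ioo (0 : ℝ) 1 := ⟨by linarith, hr1⟩
  have hw2 : ‖w‖ ≤ 2 := by
    calc ‖w‖ = ‖(w - 1) + 1‖ := by ring_nf
      _ ≤ ‖w - 1‖ + ‖(1 : ℂ)‖ := norm_add_le _ _
      _ ≤ 1 + 1 := by
        rw [norm_one]; linarith
      _ = 2 := by norm_num
  have hre : |w.re - μ0| < ρ := by
    have := Complex.abs_re_le_norm (w - (μ0 : ℂ))
    simp only [Complex.sub_re, Complex.ofReal_re] at this
    linarith
  have hre1 : |w.re - 1| < 1 := by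
    have := Complex.abs_re_le_norm (w - 1)
    simp only [Complex.sub_re, Complex.one_re] at this
    linarith
  rw [abs_lt] at hre hre1
  have hwlt : w.re + c' < 1 := by
    have : ρ + ρ = 1 - μ0 - c' := by rw [hρ]; ring
    linarith [hre.2]
  rw [Gs_int hb hd (by linarith [hre1.1]) (by linarith) hrI, norm_mul]
  have hA : ‖∫ t in (0 : ℝ)..1, W w t * F ((t * r : ℝ) : ℂ)‖ ≤ C * J := by
    refine W_int_le (N := 1) (c' := c') (by linarith) (by linarith) (by push_cast; linarith [hre1.1])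
      (by linarith [hre.2]) hC0.le (fun t ht => ?_)
    exact F_upper_mul hF hc0 hC0 hC ht hrI
  calc ‖κ w‖ * ‖∫ t in (0 : ℝ)..1, W w t * F ((t * r : ℝ) : ℂ)‖ ≤ K * (C * J) := by
        have := hK w (by linarith)
        gcongr
    _ ≤ 1 + K * (C * J) := by linarith

/-- the disc `‖μ - 1‖ < 1`, uniform version -/
lemma disc_one_unif {δ : ℝ} (hδ0 : 0 < δ) (hδ1 : δ ≤ 1) :
    ∃ η : ℝ, 0 < η ∧ ∀ δ' : ℝ, 0 < δ' → ∀ μ : ℂ, ‖μ - 1‖ < 1 → ∀ ε : ℝ, 0 < ε →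
    ∃ r1 : ℝ, r1 < 1 ∧ ∀ (m : Measure 𝕊) [IsProbabilityMeasure m] (F : ℂ → ℂ), PropN F →
      F 0 = 0 → deriv F 0 = 1 →
      DifferentiableOn ℂ F (ball 0 1) → (∀ z ∈ ball (0 : ℂ) 1, F z = starF m z) →
      m.real {e1} = 0 → m.real (closedBall e1 δ) ≤ 1 / 100 → m.real (closedBall e1 δ') ≤ η →
      ∀ r : ℝ, r1 ≤ r → r < 1 → ‖Gs (tc F) μ r‖ ≤ (1 - r) ^ (-ε) := by
  obtain ⟨μ0, hμ00, hμ01, r0, hr0, c, hc0, hlo⟩ := lower_base_unif hδ0 hδ1
  refine ⟨(1 - μ0) / 8, by linarith, fun δ' hδ' μ hμ ε hε => ?_⟩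
  obtain ⟨C, ρ, hC, hρ, hup⟩ := upper_base_unif (μ0 := μ0) (c' := (1 - μ0) / 2) (δ := δ') hμ00
    (by linarith) (by linarith) hδ'
  obtain ⟨r1, hr1, hsoft⟩ := Gs_soft_unif (μ0 := (μ0 : ℂ)) (by
    have : (μ0 : ℂ) - 1 = ((μ0 - 1 : ℝ) : ℂ) := by push_cast; ring
    rw [this, Complex.norm_real, Real.norm_eq_abs, abs_lt]
    constructor <;> linarith) (C := max C (1 / c)) (ρ := ρ)
    (r0 := max r0 (1 / 2)) (hC.trans (le_max_left _ _)) hρ (max_lt hr0 (by norm_num)) hμ hε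
  refine ⟨r1, hr1, fun m _ F hN h0 h1 hd hF hm0 hmδ hmδ' => ?_⟩
  have hb := hN.tc_le h0 h1
  refine hsoft F hN h0 h1
    (fun r hr hr1 w hw hwρ => (hup m F hb hd hF (by linarith) r ((le_max_right _ _).trans hr) hr1
      w hw hwρ).trans (le_max_left _ _))
    (fun r hr hr1 => ?_)
  refine le_trans ?_ (hlo m F hb hd hF hm0 hmδ r ((le_max_left _ _).trans hr) hr1)
  have h2 : 1 / c ≤ max C (1 / c) := le_max_right _ _
  calc 1 / max C (1 / c) ≤ 1 / (1 / c) := one_div_le_one_div_of_le (by positivity) h2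
    _ = c := by field_simp

/-- the measure bound, uniform version -/
lemma dim_bound_unif {δ0 : ℝ} (hδ00 : 0 < δ0) (hδ01 : δ0 ≤ 1) :
    ∃ η : ℝ, 0 < η ∧ ∀ δ' : ℝ, 0 < δ' → ∀ ε : ℝ, 0 < ε →
    ∃ C : ℝ, 0 < C ∧ ∀ (m : Measure 𝕊) [IsProbabilityMeasure m] (F : ℂ → ℂ), PropN F →
      F 0 = 0 → deriv F 0 = 1 →
      DifferentiableOn ℂ F (ball 0 1) → (∀ z ∈ ball (0 : ℂ) 1, F z = starF m z) →
      m.real {e1} = 0 → m.real (closedBall e1 δ0) ≤ 1 / 100 → m.real (closedBall e1 δ') ≤ η →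
      ∀ h : ℝ, 0 < h → h ≤ 1 → m.real (closedBall e1 h) ≤ C * h ^ (1 - ε) := by
  obtain ⟨η, hη0, hη⟩ := disc_one_unif hδ00 hδ01
  refine ⟨η, hη0, fun δ' hδ' ε hε => ?_⟩
  set δ : ℝ := min ε (1 / 2) with hδ
  have hδ0 : 0 < δ := lt_min hε (by norm_num)
  have hδε : δ ≤ ε := min_le_left _ _
  have hδ2 : δ ≤ 1 / 2 := min_le_right _ _
  set μ : ℝ := 1 - δ / 2 with hμ
  have hμ0 : 0 < μ := by rw [hμ]; linarith
  have hμ1 : μ < 1 := by rw [hμ]; linarith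
  obtain ⟨r1, hr1, hup0⟩ := hη δ' hδ' (1 + (μ : ℂ)) (by
    have : 1 + (μ : ℂ) - 1 = ((μ : ℝ) : ℂ) := by ring
    rw [this, Complex.norm_real, Real.norm_eq_abs, abs_lt]
    constructor <;> linarith) (δ / 2) (by linarith)
  have hκ : 0 < ‖κ (μ : ℂ)‖ := norm_pos_iff.mpr (κ_pos (by linarith) hμ1)
  set K2 : ℝ := ‖κ (μ : ℂ)‖ * (μ * (4 * (8 ^ (-μ - 1) * (3 / 4 * (1 / 8))))) with hK2
  have hK20 : 0 < K2 := by positivity
  set h0' : ℝ := min (1 / 16) (1 - r1) with hh0'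
  have hh0'0 : 0 < h0' := lt_min (by norm_num) (by linarith)
  refine ⟨2 / K2 + h0' ^ (-(1 - δ)), by positivity, fun m _ F hN h0 h1 hd hF hm0 hmδ hmδ' => ?_⟩
  have hb := hN.tc_le h0 h1
  have hup := hup0 m F hN h0 h1 hd hF hm0 hmδ hmδ'
  have hsmall : ∀ h : ℝ, 0 < h → h ≤ h0' → m.real (closedBall e1 h) ≤ 2 / K2 * h ^ (1 - δ) := by
    intro h hh hhle
    have hh16 : h ≤ 1 / 16 := hhle.trans (min_le_left _ _)
    have hhr : h ≤ 1 - r1 := hhle.trans (min_le_right _ _)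
    have hk := key_ineq hb hd hF hμ0 hμ1 hh hh16
    have hG := hup (1 - h) (by linarith) (by linarith)
    have e0 : (1 : ℝ) - (1 - h) = h := by ring
    rw [e0] at hG
    have g1 : ‖(1 + (μ : ℂ)) * Gs (tc F) (1 + (μ : ℂ)) ((1 - h : ℝ) : ℂ)‖ ≤ 2 * h ^ (-(δ / 2)) := by
      rw [norm_mul]
      have e2 : ‖1 + (μ : ℂ)‖ ≤ 2 := by
        refine (norm_add_le _ _).trans ?_
        rw [norm_one, Complex.norm_real, Real.norm_eq_abs, abs_of_pos hμ0]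
        linarith
      gcongr
    have e3 := hk.trans g1
    have e4 : ‖κ (μ : ℂ)‖ * (μ * (4 * h * ((8 * h) ^ (-μ - 1) *
        (3 / 4 * m.real (closedBall e1 h) * (1 / 8))))) =
        K2 * m.real (closedBall e1 h) * (h ^ (-μ - 1) * h) := by
      rw [Real.mul_rpow (by norm_num) hh.le, hK2]; ring
    have e5 : h ^ (-μ - 1) * h = h ^ (-μ) := by
      rw [Real.rpow_sub_one hh.ne', div_mul_cancel₀ _ hh.ne']
    rw [e4, e5] at e3
    have e6 : h ^ (-(δ / 2)) = h ^ (1 - δ) * h ^ (-μ) := by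
      rw [← Real.rpow_add hh]; congr 1; rw [hμ]; ring
    rw [e6, ← mul_assoc] at e3
    have e7 := le_of_mul_le_mul_right e3 (Real.rpow_pos_of_pos hh (-μ))
    rw [div_mul_eq_mul_div, le_div_iff₀ hK20]
    linarith
  intro h hh hh1
  have hmonoexp : h ^ (1 - δ) ≤ h ^ (1 - ε) :=
    Real.rpow_le_rpow_of_exponent_ge hh hh1 (by linarith)
  have p1 : 0 ≤ h ^ (1 - δ) := by positivity
  have p2 : 0 ≤ h ^ (1 - ε) := by positivity
  rcases le_total h h0' with hle | hle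
  · calc m.real (closedBall e1 h) ≤ 2 / K2 * h ^ (1 - δ) := hsmall h hh hle
      _ ≤ 2 / K2 * h ^ (1 - ε) := by gcongr
      _ ≤ _ := by
        have : 0 ≤ h0' ^ (-(1 - δ)) := by positivity
        nlinarith
  · have g1 : m.real (closedBall e1 h) ≤ 1 := measureReal_le_one
    have e2 : h0' ^ (1 - δ) ≤ h ^ (1 - δ) := Real.rpow_le_rpow hh0'0.le hle (by linarith)
    have e3 : 1 ≤ h0' ^ (-(1 - δ)) * h ^ (1 - δ) := by
      calc (1 : ℝ) = h0' ^ (-(1 - δ)) * h0' ^ (1 - δ) := by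
            rw [← Real.rpow_add hh0'0]; simp
        _ ≤ _ := by gcongr
    calc m.real (closedBall e1 h) ≤ h0' ^ (-(1 - δ)) * h ^ (1 - δ) := g1.trans e3
      _ ≤ h0' ^ (-(1 - δ)) * h ^ (1 - ε) := by gcongr
      _ ≤ _ := by
        have : 0 ≤ 2 / K2 * h ^ (1 - ε) := by positivity
        nlinarith

variable {m : Measure 𝕊} [IsProbabilityMeasure m] {F : ℂ → ℂ}

/-- small balls around an arbitrary point -/
lemma exists_small_ball_pt {x : 𝕊} {η : ℝ} (hη : m.real {x} < η) :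
    ∃ δ : ℝ, 0 < δ ∧ m.real (closedBall x δ) < η := by
  have h := exists_small_ball (m := rotm x m) (c' := 2 * η) (by rw [rotm_singleton]; linarith)
  obtain ⟨δ, hδ0, hδ⟩ := h
  rw [rotm_ball] at hδ
  exact ⟨δ, hδ0, by linarith⟩

/-- uniform smallness on compact sets without atoms -/
lemma exists_small_unif {K : Set 𝕊} (hK : IsClosed K) (hK0 : ∀ x ∈ K, m.real {x} = 0) {η : ℝ}
    (hη : 0 < η) : ∃ δ : ℝ, 0 < δ ∧ δ ≤ 1 ∧ ∀ x ∈ K, m.real (closedBall x δ) ≤ η := by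
  have hKc : IsCompact K := hK.isCompact
  have h1 : ∀ x ∈ K, ∃ δ : ℝ, 0 < δ ∧ m.real (closedBall x δ) < η := fun x hx =>
    exists_small_ball_pt (by rw [hK0 x hx]; exact hη)
  choose! f hf0 hf using h1
  obtain ⟨t, htK, hcov⟩ := hKc.elim_nhds_subcover (fun x => ball x (f x / 2))
    (fun x hx => ball_mem_nhds x (by have := hf0 x hx; linarith))
  by_cases hne : t.Nonempty
  · obtain ⟨x0, hx0, hmin⟩ := t.exists_min_image (fun x => f x / 2) hne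
    refine ⟨min (f x0 / 2) 1, lt_min (by have := hf0 x0 (htK x0 hx0); linarith) one_pos,
      min_le_right _ _, fun y hy => ?_⟩
    obtain ⟨x, hx, hyx⟩ := mem_iUnion₂.mp (hcov hy)
    refine le_trans (measureReal_mono ?_) (hf x (htK x hx)).le
    intro z hz
    rw [mem_closedBall] at hz ⊢
    rw [mem_ball] at hyx
    have h2 := hmin x hx
    have h3 := min_le_left (f x0 / 2) 1
    calc dist z x ≤ dist z y + dist y x := dist_triangle _ _ _
      _ ≤ f x / 2 + f x / 2 := by linarith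
      _ = f x := by ring
  · rw [Finset.not_nonempty_iff_eq_empty] at hne
    subst hne
    refine ⟨1, one_pos, le_rfl, fun y hy => ?_⟩
    have := hcov hy
    simp at this

/-- Uniform bound on closed sets without atoms. -/
theorem unif_bound (hN : PropN F) (h0 : F 0 = 0) (h1 : deriv F 0 = 1)
    (hd : DifferentiableOn ℂ F (ball 0 1)) (hF : ∀ z ∈ ball (0 : ℂ) 1, F z = starF m z)
    {K : Set 𝕊} (hK : IsClosed K) (hK0 : ∀ x ∈ K, m.real {x} = 0) {ε : ℝ} (hε : 0 < ε) :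
    ∃ C : ℝ, 0 < C ∧ ∀ x ∈ K, ∀ h : ℝ, 0 < h → h ≤ 1 →
      m.real (closedBall x h) ≤ C * h ^ (1 - ε) := by
  obtain ⟨δ, hδ0, hδ1, hδ⟩ := exists_small_unif hK hK0 (by norm_num : (0 : ℝ) < 1 / 100)
  obtain ⟨η, hη0, hη⟩ := dim_bound_unif hδ0 hδ1
  obtain ⟨δ', hδ'0, _, hδ'⟩ := exists_small_unif hK hK0 hη0
  obtain ⟨C, hC0, hC⟩ := hη δ' hδ'0 ε hε
  refine ⟨C, hC0, fun x hx h hh hh1 => ?_⟩
  have := hC (rotm x m) (rotF x F) (rotF_propN x hd hN) (rotF_zero x h0) (rotF_deriv x hd h1)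
    (rotF_diff x hd) (fun z hz => by
      rw [starF_rotm x (mem_ball_zero_iff.mp hz)]
      unfold rotF
      rw [hF _ (mul_mem x hz)]) (by rw [rotm_singleton]; exact hK0 x hx)
    (by rw [rotm_ball]; exact hδ x hx) (by rw [rotm_ball]; exact hδ' x hx) h hh hh1
  rwa [rotm_ball] at this

end Pool.Agent.StarN
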