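import Pool.Agent.StarN.KMu

/-!
Coefficient bound for functions with (N); the series `Gs` is holomorphic in `μ`.
-/

namespace Pool.Agent.StarN

open Complex Metric Set Filter Topology

lemma poly_mem {n : ℕ} (hn : 2 ≤ n) {t : ℂ} (ht : ‖t‖ * n ≤ 1) :
    (fun z : ℂ => z + t * z ^ n) ∈ ClassS := by
  refine ⟨?_, ?_, ?_, ?_⟩
  · exact (differentiable_id.add ((differentiable_id.pow n).const_mul t)).differentiableOn
  · intro z1 hz1 z2 hz2 he
    rw [mem_ball_zero_iff] at hz1 hz2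
    simp only at he
    have hg := geom_sum₂_mul z1 z2 n
    set Sg := ∑ i ∈ Finset.range n, z1 ^ i * z2 ^ (n - 1 - i) with hSg
    have hprod : (z1 - z2) * (1 + t * Sg) = 0 := by
      linear_combination he + t * hg
    rcases mul_eq_zero.mp hprod with h | h
    · exact sub_eq_zero.mp h
    · exfalso
      have hlt : ‖Sg‖ < n := by
        have h1 : ‖Sg‖ ≤ ∑ i ∈ Finset.range n, ‖z1‖ ^ i * ‖z2‖ ^ (n - 1 - i) := by
          refine (norm_sum_le _ _).trans (le_of_eq ?_)
          refine Finset.sum_congr rfl fun i _ => ?_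
          rw [norm_mul, norm_pow, norm_pow]
        have h2 : ∑ i ∈ Finset.range n, ‖z1‖ ^ i * ‖z2‖ ^ (n - 1 - i) <
            ∑ i ∈ Finset.range n, (1 : ℝ) := by
          refine Finset.sum_lt_sum (fun i _ => ?_) ⟨n - 1, Finset.mem_range.mpr (by omega), ?_⟩
          · have h3 : ‖z1‖ ^ i ≤ 1 := pow_le_one₀ (norm_nonneg _) hz1.le
            have h4 : ‖z2‖ ^ (n - 1 - i) ≤ 1 := pow_le_one₀ (norm_nonneg _) hz2.le
            have h5 : 0 ≤ ‖z1‖ ^ i := by positivity
            have h6 : 0 ≤ ‖z2‖ ^ (n - 1 - i) := by positivity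
            nlinarith
          · have h3 : ‖z1‖ ^ (n - 1) < 1 := pow_lt_one₀ (norm_nonneg _) hz1 (by omega)
            simpa using h3
        simpa using h1.trans_lt h2
      have h1 : t * Sg = -1 := by linear_combination h
      have h2 : ‖t‖ * ‖Sg‖ = 1 := by rw [← norm_mul, h1]; simp
      have ht0 : 0 < ‖t‖ := by
        rcases (norm_nonneg t).lt_or_eq with h3 | h3
        · exact h3
        · rw [← h3] at h2; simp at h2
      nlinarith
  · simp; omega
  · have h1 : HasDerivAt (fun z : ℂ => z + t * z ^ n) (1 + t * (n * (0 : ℂ) ^ (n - 1))) 0 :=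
      (hasDerivAt_id (0 : ℂ)).add ((hasDerivAt_pow n (0 : ℂ)).const_mul t)
    rw [h1.deriv, zero_pow (by omega)]
    simp

lemma tc_poly {n : ℕ} (hn : 2 ≤ n) (t : ℂ) (k : ℕ) :
    tc (fun z : ℂ => z + t * z ^ n) k = (if k = 1 then 1 else 0) + (if k = n then t else 0) := by
  refine tc_of_hasSum (a := fun k => (if k = 1 then 1 else 0) + (if k = n then t else 0)) ?_ k
  intro z _
  have h1 : HasSum (fun k => (if k = 1 then z else 0)) z := hasSum_ite_eq 1 z
  have h2 : HasSum (fun k => (if k = n then t * z ^ n else 0)) (t * z ^ n) :=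
    hasSum_ite_eq n (t * z ^ n)
  have h3 := h1.add h2
  have e : (fun k : ℕ => ((if k = 1 then (1 : ℂ) else 0) + (if k = n then t else 0)) * z ^ k) =
      fun k => (if k = 1 then z else 0) + (if k = n then t * z ^ n else 0) := by
    funext k
    by_cases h1 : k = 1
    · by_cases h2 : k = n
      · omega
      · simp [h1, show ¬ (1 = n) by omega]
    · by_cases h2 : k = n
      · simp [h2, show ¬ (n = 1) by omega]
      · simp [h1, h2]
  rw [e]; exact h3

lemma had_poly (F : ℂ → ℂ) {n : ℕ} (hn : 2 ≤ n) (t z : ℂ) :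
    had F (fun z : ℂ => z + t * z ^ n) z = tc F 1 * z + tc F n * t * z ^ n := by
  unfold had
  simp only [tc_poly hn]
  have h1 : HasSum (fun k => (if k = 1 then tc F 1 * z else 0)) (tc F 1 * z) := hasSum_ite_eq 1 _
  have h2 : HasSum (fun k => (if k = n then tc F n * t * z ^ n else 0)) (tc F n * t * z ^ n) :=
    hasSum_ite_eq n _
  rw [← (h1.add h2).tsum_eq]
  congr 1
  funext k
  by_cases h1 : k = 1
  · by_cases h2 : k = n
    · omega
    · simp [h1, show ¬ (1 = n) by omega]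
  · by_cases h2 : k = n
    · simp [h2, show ¬ (n = 1) by omega]
    · simp [h1, h2]

/-- Coefficient bound. -/
lemma PropN.tc_le {F : ℂ → ℂ} (hN : PropN F) (h0 : F 0 = 0) (h1 : deriv F 0 = 1) (n : ℕ) :
    ‖tc F n‖ ≤ n := by
  rcases n with _ | _ | n
  · rw [tc_zero, h0]; simp
  · rw [zero_add, tc_one, h1]; simp
  · by_contra hcon
    push Not at hcon
    set N : ℕ := n + 1 + 1 with hN'
    have hN2 : 2 ≤ N := by omega
    set b : ℂ := tc F N with hb
    have hNpos : (0 : ℝ) < (N : ℝ) := by exact_mod_cast (by omega : 0 < N)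
    have hbpos : 0 < ‖b‖ := hNpos.trans hcon
    set x : ℝ := (N : ℝ) / ‖b‖ with hx
    have hx0 : 0 < x := by positivity
    have hx1 : x < 1 := by rw [hx, div_lt_one hbpos]; exact hcon
    set s : ℝ := 1 - (1 - x) / N with hs
    have hdiv : (1 - x) / N < 1 := by
      rw [div_lt_one hNpos]
      have : (2 : ℝ) ≤ N := by exact_mod_cast hN2
      linarith
    have hdiv0 : 0 < (1 - x) / N := div_pos (by linarith) hNpos
    have hs0 : 0 < s := by rw [hs]; linarith
    have hs1 : s < 1 := by rw [hs]; linarith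
    have hsp : x ≤ s ^ (N - 1) := by
      have h2 := one_add_mul_le_pow (a := -((1 - x) / N)) (by linarith) (N - 1)
      have h3 : (1 : ℝ) + -((1 - x) / N) = s := by rw [hs]; ring
      rw [h3] at h2
      refine le_trans ?_ h2
      have h4 : ((N - 1 : ℕ) : ℝ) = (N : ℝ) - 1 := by
        rw [Nat.cast_sub (by omega)]; simp
      rw [h4]
      have h5 : ((N : ℝ) - 1) * -((1 - x) / N) = -(1 - x) + (1 - x) / N := by
        field_simp; ring
      rw [h5]; linarith
    have hspos : 0 < s ^ (N - 1) := by positivity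
    have hbs : (N : ℝ) ≤ ‖b‖ * s ^ (N - 1) := by
      have : x * ‖b‖ = N := by rw [hx]; field_simp
      nlinarith
    have hbne : b ≠ 0 := norm_pos_iff.mp hbpos
    have hsne : ((s : ℝ) : ℂ) ≠ 0 := by exact_mod_cast hs0.ne'
    set t : ℂ := -1 / (b * (s : ℂ) ^ (N - 1)) with ht
    have htn : ‖t‖ * N ≤ 1 := by
      have : ‖t‖ = 1 / (‖b‖ * s ^ (N - 1)) := by
        rw [ht, norm_div, norm_mul, norm_pow, Complex.norm_real, Real.norm_eq_abs, abs_of_pos hs0]
        simp
      rw [this, one_div, inv_mul_le_one₀ (by positivity)]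
      exact hbs
    have hz := hN _ (poly_mem hN2 htn) (s : ℂ) (by
      rw [Complex.norm_real, Real.norm_eq_abs, abs_of_pos hs0]; exact hs0) (by
      rw [Complex.norm_real, Real.norm_eq_abs, abs_of_pos hs0]; exact hs1)
    apply hz
    rw [had_poly F hN2, tc_one, h1, ← hb, ht]
    have : (s : ℂ) ^ N = (s : ℂ) ^ (N - 1) * s := by
      rw [← pow_succ]; congr 1
    rw [this]
    field_simp
    ring

/-- the terms of `Gs` -/
lemma Gs_term_le {b : ℕ → ℂ} (hb : ∀ n, ‖b n‖ ≤ n) {μ z : ℂ} (hμ : ‖μ‖ ≤ 2) (hz : ‖z‖ < 1) (m : ℕ) :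
    ‖b (m + 1) * q μ (m + 1) * z ^ (m + 1)‖ ≤ ((m + 2).choose 2 : ℝ) * ‖z‖ ^ m := by
  rw [norm_mul, norm_mul, norm_pow]
  have h1 := hb (m + 1)
  have h2 := q_bound hμ m
  have h3 : (((m + 2).choose 2 : ℕ) : ℝ) = ((m : ℝ) + 1) * ((m : ℝ) + 2) / 2 := by
    rw [Nat.cast_choose_two]; push_cast; ring
  rw [h3]
  have h4 : ‖z‖ ^ (m + 1) ≤ ‖z‖ ^ m := pow_le_pow_of_le_one (norm_nonneg _) hz.le (by omega)
  push_cast at h1
  calc ‖b (m + 1)‖ * ‖q μ (m + 1)‖ * ‖z‖ ^ (m + 1)
      ≤ ((m : ℝ) + 1) * (((m : ℝ) + 2) / 2) * ‖z‖ ^ m := by gcongr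
    _ = _ := by ring

lemma q_differentiable (n : ℕ) : Differentiable ℂ (fun μ => q μ n) := by
  induction n with
  | zero => simp only [q]; exact differentiable_const _
  | succ n ih =>
    rcases n with _ | n
    · simp only [q]; exact differentiable_const _
    · simp only [q]
      exact ((ih.mul (differentiable_id.add_const _)).div_const _)

lemma Gs_eq_succ {b : ℕ → ℂ} (hb0 : b 0 = 0) (μ z : ℂ)
    (hs : Summable fun n : ℕ => b n * q μ n * z ^ n) :
    Gs b μ z = ∑' m : ℕ, b (m + 1) * q μ (m + 1) * z ^ (m + 1) := by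
  unfold Gs
  rw [hs.tsum_eq_zero_add, hb0]
  simp

lemma summable_choose {x : ℝ} (h0 : 0 ≤ x) (h1 : x < 1) :
    Summable fun m : ℕ => ((m + 2).choose 2 : ℝ) * x ^ m :=
  summable_choose_mul_geometric_of_norm_lt_one 2 (by rwa [Real.norm_eq_abs, abs_of_nonneg h0])

lemma Gs_summable {b : ℕ → ℂ} (hb : ∀ n, ‖b n‖ ≤ n) {μ z : ℂ} (hμ : ‖μ‖ ≤ 2) (hz : ‖z‖ < 1) :
    Summable fun n : ℕ => b n * q μ n * z ^ n := by
  rw [← summable_nat_add_iff 1]
  exact Summable.of_norm_bounded (summable_choose (norm_nonneg z) hz) (Gs_term_le hb hμ hz)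

/-- bound for `Gs` -/
lemma Gs_le {b : ℕ → ℂ} (hb : ∀ n, ‖b n‖ ≤ n) {μ z : ℂ} (hμ : ‖μ‖ ≤ 2) (hz : ‖z‖ < 1) :
    ‖Gs b μ z‖ ≤ 1 / (1 - ‖z‖) ^ 3 := by
  have hb0 : b 0 = 0 := by
    have := hb 0
    simpa using this
  rw [Gs_eq_succ hb0 μ z (Gs_summable hb hμ hz)]
  have h1 : HasSum (fun m : ℕ => ((m + 2).choose 2 : ℝ) * ‖z‖ ^ m) (1 / (1 - ‖z‖) ^ (2 + 1)) :=
    hasSum_choose_mul_geometric_of_norm_lt_one 2 (by simpa using hz)
  exact tsum_of_norm_bounded h1 (Gs_term_le hb hμ hz)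

/-- `Gs` is holomorphic in `μ` -/
lemma Gs_differentiableOn {b : ℕ → ℂ} (hb : ∀ n, ‖b n‖ ≤ n) {z : ℂ} (hz : ‖z‖ < 1) :
    DifferentiableOn ℂ (fun μ => Gs b μ z) (ball 0 2) := by
  have hb0 : b 0 = 0 := by
    have := hb 0
    simpa using this
  have h1 : DifferentiableOn ℂ
      (fun μ => ∑' m : ℕ, b (m + 1) * q μ (m + 1) * z ^ (m + 1)) (ball 0 2) := by
    refine differentiableOn_tsum_of_summable_norm (summable_choose (norm_nonneg z) hz)
      (fun m => ?_) isOpen_ball (fun m μ hμ => ?_)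
    · exact (((q_differentiable (m + 1)).const_mul _).mul_const _).differentiableOn
    · exact Gs_term_le hb (mem_ball_zero_iff.mp hμ).le hz m
  refine h1.congr fun μ hμ => ?_
  exact Gs_eq_succ hb0 μ z (Gs_summable hb (mem_ball_zero_iff.mp hμ).le hz)

end Pool.Agent.StarN
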