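import Pool.Agent.StarN.RePos

/-!
The Herglotz representation.
-/

namespace Pool.Agent.StarN

open Complex Metric Set Filter Topology MeasureTheory

/-- the kernel -/
noncomputable def ker (ζ : 𝕊) (w : ℂ) : ℂ := ((ζ : ℂ) + w) / ((ζ : ℂ) - w)

lemma coe_sub_ne (ζ : 𝕊) {w : ℂ} (hw : ‖w‖ < 1) : (ζ : ℂ) - w ≠ 0 := by
  intro h
  have h1 : (ζ : ℂ) = w := sub_eq_zero.mp h
  have := norm_coe ζ
  rw [h1] at this
  linarith

lemma ker_continuous {w : ℂ} (hw : ‖w‖ < 1) : Continuous fun ζ : 𝕊 => ker ζ w := by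
  unfold ker
  exact (by fun_prop : Continuous fun ζ : 𝕊 => (ζ : ℂ) + w).div (by fun_prop)
    (fun ζ => coe_sub_ne ζ hw)

/-- the point of the circle with argument `θ` -/
noncomputable def cp (θ : ℝ) : 𝕊 := ⟨circleMap 0 1 θ, by simp⟩

lemma cp_continuous : Continuous cp := by
  unfold cp
  exact Continuous.subtype_mk (continuous_circleMap 0 1) _

/-- Poisson representation on a slightly larger disc -/
lemma exists_meas {P : ℂ → ℂ} {R : ℝ} (hR : 1 < R) (hP : DifferentiableOn ℂ P (ball 0 R))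
    (hP0 : P 0 = 1) (hpos : ∀ z ∈ ball (0 : ℂ) R, 0 ≤ (P z).re) :
    ∃ m : ProbabilityMeasure 𝕊, ∀ w ∈ ball (0 : ℂ) 1,
      ∫ ζ, (ker ζ w).re ∂(m : Measure 𝕊) = (P w).re := by
  have hsub : closedBall (0 : ℂ) 1 ⊆ ball 0 R := closedBall_subset_ball hR
  have hDC : DiffContOnCl ℂ P (ball 0 1) := by
    refine ⟨hP.mono (ball_subset_ball hR.le), ?_⟩
    rw [closure_ball 0 one_ne_zero]
    exact hP.continuousOn.mono hsub
  set d : ℝ → ℝ := fun θ => (2 * Real.pi)⁻¹ * (P (circleMap 0 1 θ)).re with hd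
  have hmem : ∀ θ : ℝ, circleMap 0 1 θ ∈ ball (0 : ℂ) R := fun θ => hsub (by simp)
  have hdc : Continuous d := by
    have : Continuous fun θ : ℝ => P (circleMap 0 1 θ) :=
      hP.continuousOn.comp_continuous (continuous_circleMap 0 1) hmem
    exact continuous_const.mul (Complex.continuous_re.comp this)
  have hd0 : ∀ θ, 0 ≤ d θ := fun θ => by
    have := hpos _ (hmem θ)
    have := Real.pi_pos
    positivity
  set ν : Measure ℝ := (volume.restrict (Ioc 0 (2 * Real.pi))).withDensity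
    (fun θ => ENNReal.ofReal (d θ)) with hν
  have hdi : Integrable d (volume.restrict (Ioc 0 (2 * Real.pi))) :=
    (hdc.integrableOn_Icc (a := 0) (b := 2 * Real.pi)).mono_set Ioc_subset_Icc_self
  have hpi2 : (0 : ℝ) ≤ 2 * Real.pi := by positivity
  -- total mass
  have hmass : ∫ θ in Ioc 0 (2 * Real.pi), d θ = 1 := by
    have h1 := hDC.circleAverage_re_herglotzRieszKernel_smul (w := 0) (by simp)
    have h2 : Real.circleAverage ((re ∘ herglotzRieszKernel 0 0) • P) 0 1 =
        Real.circleAverage P 0 1 := by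
      refine Real.circleAverage_congr_sphere fun z hz => ?_
      rw [abs_one, mem_sphere_zero_iff_norm] at hz
      have hz0 : z ≠ 0 := by rw [← norm_pos_iff, hz]; norm_num
      simp [herglotzRieszKernel_def, div_self hz0]
    rw [h2] at h1
    have h3 : CircleIntegrable P 0 1 := by
      refine ContinuousOn.circleIntegrable zero_le_one ?_
      exact hP.continuousOn.mono (sphere_subset_closedBall.trans hsub)
    have h4 := Complex.reCLM.circleAverage_comp_comm h3
    rw [h1, hP0, Real.circleAverage_def] at h4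
    simp only [Function.comp_apply, Complex.reCLM_apply, Complex.one_re, smul_eq_mul] at h4
    rw [← intervalIntegral.integral_of_le hpi2, ← h4]
    rw [hd, intervalIntegral.integral_const_mul]
  have hprobν : IsProbabilityMeasure ν := by
    constructor
    rw [hν, withDensity_apply _ MeasurableSet.univ, Measure.restrict_univ,
      ← ofReal_integral_eq_lintegral_ofReal hdi (Eventually.of_forall hd0), hmass,
      ENNReal.ofReal_one]
  have hprob : IsProbabilityMeasure (ν.map cp) :=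
    Measure.isProbabilityMeasure_map cp_continuous.measurable.aemeasurable
  refine ⟨⟨ν.map cp, hprob⟩, fun w hw => ?_⟩
  have hwn : ‖w‖ < 1 := mem_ball_zero_iff.mp hw
  change ∫ ζ, (ker ζ w).re ∂(ν.map cp) = (P w).re
  have hkc : Continuous fun ζ : 𝕊 => (ker ζ w).re := Complex.continuous_re.comp (ker_continuous hwn)
  rw [integral_map cp_continuous.measurable.aemeasurable hkc.aestronglyMeasurable, hν,
    integral_withDensity_eq_integral_toReal_smul (by fun_prop) (by simp)]
  have h1 := hDC.circleAverage_re_herglotzRieszKernel_smul hw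
  have hcont : ContinuousOn ((re ∘ herglotzRieszKernel 0 w) • P) (sphere 0 1) := by
    have h5 : ContinuousOn (herglotzRieszKernel 0 w) (sphere 0 |1|) :=
      continuousOn_herglotzRieszKernel_sphere hw
    rw [abs_one] at h5
    exact (Complex.continuous_re.comp_continuousOn h5).smul
      (hP.continuousOn.mono (sphere_subset_closedBall.trans hsub))
  have h3 : CircleIntegrable ((re ∘ herglotzRieszKernel 0 w) • P) 0 1 :=
    ContinuousOn.circleIntegrable zero_le_one hcont
  have h4 := Complex.reCLM.circleAverage_comp_comm h3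
  rw [h1, Real.circleAverage_def] at h4
  rw [Complex.reCLM_apply] at h4
  rw [← h4, ← intervalIntegral.integral_of_le hpi2, smul_eq_mul,
    ← intervalIntegral.integral_const_mul]
  refine intervalIntegral.integral_congr fun θ _ => ?_
  simp only [Function.comp_apply, Complex.reCLM_apply, Pi.smul_apply', smul_eq_mul, Complex.real_smul]
  rw [ENNReal.toReal_ofReal (hd0 θ), Complex.re_ofReal_mul]
  simp only [hd, ker, cp, herglotzRieszKernel_def, sub_zero]
  ring

/-- Herglotz representation, real parts -/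
lemma exists_meas_lim {p : ℂ → ℂ} (hp : DifferentiableOn ℂ p (ball 0 1)) (hp0 : p 0 = 1)
    (hpos : ∀ z ∈ ball (0 : ℂ) 1, 0 ≤ (p z).re) :
    ∃ m : ProbabilityMeasure 𝕊, ∀ w ∈ ball (0 : ℂ) 1,
      ∫ ζ, (ker ζ w).re ∂(m : Measure 𝕊) = (p w).re := by
  set r : ℕ → ℝ := fun n => 1 - 1 / ((n : ℝ) + 2) with hr
  have hr0 : ∀ n, 0 < r n := fun n => by
    simp only [hr]
    have : 1 / ((n : ℝ) + 2) < 1 := by
      rw [div_lt_one (by positivity)]
      have : (0 : ℝ) ≤ n := Nat.cast_nonneg n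
      linarith
    linarith
  have hr1 : ∀ n, r n < 1 := fun n => by
    simp only [hr]
    have : 0 < 1 / ((n : ℝ) + 2) := by positivity
    linarith
  have hmaps : ∀ n, ∀ z ∈ ball (0 : ℂ) (1 / r n), (r n : ℂ) * z ∈ ball (0 : ℂ) 1 := by
    intro n z hz
    rw [mem_ball_zero_iff] at hz ⊢
    rw [norm_mul, Complex.norm_real, Real.norm_eq_abs, abs_of_pos (hr0 n)]
    rw [lt_div_iff₀ (hr0 n)] at hz
    linarith
  have hex : ∀ n, ∃ m : ProbabilityMeasure 𝕊, ∀ w ∈ ball (0 : ℂ) 1,
      ∫ ζ, (ker ζ w).re ∂(m : Measure 𝕊) = (p (r n * w)).re := fun n => by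
    refine exists_meas (P := fun z => p (r n * z)) (R := 1 / r n) ?_ ?_ ?_ ?_
    · rw [lt_div_iff₀ (hr0 n)]; linarith [hr1 n]
    · exact hp.comp (by fun_prop) (hmaps n)
    · simp [hp0]
    · intro z hz
      exact hpos _ (hmaps n z hz)
  choose M hM using hex
  obtain ⟨m, -, hm⟩ := (isCompact_univ (X := ProbabilityMeasure 𝕊)).ultrafilter_le_nhds
    ((hyperfilter ℕ).map M) (by simp)
  have htend : Tendsto M (hyperfilter ℕ : Filter ℕ) (𝓝 m) := hm
  refine ⟨m, fun w hw => ?_⟩
  have hwn : ‖w‖ < 1 := mem_ball_zero_iff.mp hw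
  have hkc : Continuous fun ζ : 𝕊 => (ker ζ w).re := Complex.continuous_re.comp (ker_continuous hwn)
  have h1 := (ProbabilityMeasure.tendsto_iff_forall_integral_tendsto.mp htend)
    (BoundedContinuousFunction.mkOfCompact ⟨fun ζ : 𝕊 => (ker ζ w).re, hkc⟩)
  simp only [BoundedContinuousFunction.mkOfCompact_apply, ContinuousMap.coe_mk] at h1
  have h2 : Tendsto (fun n => (p (r n * w)).re) (hyperfilter ℕ : Filter ℕ) (𝓝 (p w).re) := by
    have hrt : Tendsto r atTop (𝓝 1) := by
      have h3 : Tendsto (fun n : ℕ => 1 / ((n : ℝ) + 2)) atTop (𝓝 0) := by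
        have h4 : Tendsto (fun n : ℕ => (n : ℝ) + 2) atTop atTop :=
          tendsto_atTop_add_const_right _ _ tendsto_natCast_atTop_atTop
        simp only [one_div]
        exact h4.inv_tendsto_atTop
      have h5 := h3.const_sub 1
      rwa [sub_zero] at h5
    have h6 : Tendsto (fun n => (r n : ℂ) * w) atTop (𝓝 w) := by
      have h7 : Tendsto (fun n => ((r n : ℝ) : ℂ)) atTop (𝓝 ((1 : ℝ) : ℂ)) :=
        (Complex.continuous_ofReal.tendsto 1).comp hrt
      have h8 := h7.mul_const w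
      simpa using h8
    have h9 : ContinuousAt p w := (hp.differentiableAt (isOpen_ball.mem_nhds hw)).continuousAt
    exact ((Complex.continuous_re.tendsto _).comp (h9.tendsto.comp h6)).mono_left
      Nat.hyperfilter_le_atTop
  refine tendsto_nhds_unique (f := fun n => ∫ ζ, (ker ζ w).re ∂(M n : Measure 𝕊)) h1 ?_
  refine h2.congr fun n => ?_
  exact (hM n w hw).symm

/-- the exponent -/
noncomputable def Lm (m : Measure 𝕊) (z : ℂ) : ℂ := -2 * ∫ ζ : 𝕊, Complex.log (lf ζ z) ∂m

/-- its derivative -/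
lemma Lm_hasDerivAt (m : Measure 𝕊) [IsProbabilityMeasure m] {z0 : ℂ}
    (hz0 : z0 ∈ ball (0 : ℂ) 1) :
    HasDerivAt (Lm m) (-2 * ∫ ζ : 𝕊, (-(starRingEnd ℂ) (ζ : ℂ) / lf ζ z0) ∂m) z0 := by
  rw [mem_ball_zero_iff] at hz0
  set ε : ℝ := (1 - ‖z0‖) / 2 with hε
  have hε0 : 0 < ε := by rw [hε]; linarith
  have hball : ∀ z ∈ ball z0 ε, ‖z‖ < 1 - ε := by
    intro z hz
    rw [mem_ball_iff_norm] at hz
    calc ‖z‖ = ‖(z - z0) + z0‖ := by ring_nf
      _ ≤ ‖z - z0‖ + ‖z0‖ := norm_add_le _ _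
      _ < 1 - ε := by
        have : ε + ε = 1 - ‖z0‖ := by rw [hε]; ring
        linarith
  have key := (hasDerivAt_integral_of_dominated_loc_of_deriv_le (μ := m) (𝕜 := ℂ)
    (F := fun z (ζ : 𝕊) => Complex.log (lf ζ z))
    (F' := fun z (ζ : 𝕊) => -(starRingEnd ℂ) (ζ : ℂ) / lf ζ z)
    (bound := fun _ => 1 / ε) (x₀ := z0) (s := ball z0 ε) (ball_mem_nhds z0 hε0)
    ?_ ?_ ?_ ?_ ?_ ?_).2
  · exact key.const_mul (-2 : ℂ)
  · filter_upwards [ball_mem_nhds z0 hε0] with z hz
    exact (continuous_log_lf (by have := hball z hz; linarith)).aestronglyMeasurable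
  · exact integrable_of_cont (continuous_log_lf (by linarith))
  · have : Continuous fun ζ : 𝕊 => -(starRingEnd ℂ) (ζ : ℂ) / lf ζ z0 :=
      (by fun_prop : Continuous fun ζ : 𝕊 => -(starRingEnd ℂ) (ζ : ℂ)).div (continuous_lf z0)
        (fun ζ => lf_ne ζ hz0)
    exact this.aestronglyMeasurable
  · filter_upwards with ζ z hz
    rw [norm_div, norm_neg, Complex.norm_conj, norm_coe]
    apply one_div_le_one_div_of_le hε0
    have h1 := norm_lf_ge ζ z
    have h2 := hball z hz
    linarith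
  · exact integrable_const _
  · filter_upwards with ζ z hz
    have h1 : HasDerivAt (fun z : ℂ => lf ζ z) (-(starRingEnd ℂ) (ζ : ℂ)) z := by
      unfold lf
      have := ((hasDerivAt_id z).const_mul ((starRingEnd ℂ) (ζ : ℂ))).const_sub 1
      simpa using this
    exact h1.clog (lf_slit ζ (by have := hball z hz; linarith))

lemma Lm_diff (m : Measure 𝕊) [IsProbabilityMeasure m] : DifferentiableOn ℂ (Lm m) (ball 0 1) :=
  fun _ hz => (Lm_hasDerivAt m hz).differentiableAt.differentiableWithinAt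

lemma starF_eq_Lm (m : Measure 𝕊) (z : ℂ) : starF m z = z * Complex.exp (Lm m z) := rfl

lemma starF_diff (m : Measure 𝕊) [IsProbabilityMeasure m] :
    DifferentiableOn ℂ (starF m) (ball 0 1) := by
  have : starF m = fun z => z * Complex.exp (Lm m z) := rfl
  rw [this]
  exact differentiableOn_id.mul (Lm_diff m).cexp

lemma Lm_zero (m : Measure 𝕊) : Lm m 0 = 0 := by simp [Lm, lf]

lemma starF_zero (m : Measure 𝕊) : starF m 0 = 0 := by simp [starF]

lemma starF_deriv_zero (m : Measure 𝕊) [IsProbabilityMeasure m] : deriv (starF m) 0 = 1 := by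
  have h0 : (0 : ℂ) ∈ ball (0 : ℂ) 1 := by simp
  have h1 : HasDerivAt (fun z => z * Complex.exp (Lm m z))
      (1 * Complex.exp (Lm m 0) + 0 * (Complex.exp (Lm m 0) *
        (-2 * ∫ ζ : 𝕊, (-(starRingEnd ℂ) (ζ : ℂ) / lf ζ 0) ∂m))) 0 :=
    (hasDerivAt_id (0 : ℂ)).mul (Lm_hasDerivAt m h0).cexp
  have h2 : deriv (starF m) 0 = _ := h1.deriv
  rw [h2, Lm_zero]
  simp

/-- relation with the kernel -/
lemma ker_int (m : Measure 𝕊) [IsProbabilityMeasure m] {z : ℂ} (hz : z ∈ ball (0 : ℂ) 1) :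
    1 + z * deriv (Lm m) z = ∫ ζ : 𝕊, ker ζ z ∂m := by
  have hzn : ‖z‖ < 1 := mem_ball_zero_iff.mp hz
  rw [(Lm_hasDerivAt m hz).deriv]
  have hc : Continuous fun ζ : 𝕊 => -(starRingEnd ℂ) (ζ : ℂ) / lf ζ z :=
    (by fun_prop : Continuous fun ζ : 𝕊 => -(starRingEnd ℂ) (ζ : ℂ)).div (continuous_lf z)
      (fun ζ => lf_ne ζ hzn)
  have h1 : ∀ ζ : 𝕊, ker ζ z = 1 + (-2 * z) * (-(starRingEnd ℂ) (ζ : ℂ) / lf ζ z) := by
    intro ζ
    have e1 : (ζ : ℂ) * (starRingEnd ℂ) (ζ : ℂ) = 1 := by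
      rw [conj_coe, mul_inv_cancel₀ (coe_ne ζ)]
    have e2 := coe_sub_ne ζ hzn
    have e3 : lf ζ z = (starRingEnd ℂ) (ζ : ℂ) * ((ζ : ℂ) - z) := by
      unfold lf
      linear_combination -e1
    have e4 : (starRingEnd ℂ) (ζ : ℂ) ≠ 0 := by rw [conj_coe]; exact inv_ne_zero (coe_ne ζ)
    unfold ker
    rw [e3]
    field_simp
    ring
  have h2 : (fun ζ : 𝕊 => ker ζ z) =
      fun ζ : 𝕊 => 1 + (-2 * z) * (-(starRingEnd ℂ) (ζ : ℂ) / lf ζ z) := funext h1
  rw [h2, integral_add (integrable_const _) ((integrable_of_cont hc).const_mul _),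
    integral_const_mul]
  simp
  ring

/-- Herglotz representation of the functions with (N). -/
theorem PropN.exists_measure {F : ℂ → ℂ} (hN : PropN F) (hd : DifferentiableOn ℂ F (ball 0 1))
    (h0 : F 0 = 0) (h1 : deriv F 0 = 1) :
    ∃ m : Measure 𝕊, IsProbabilityMeasure m ∧ ∀ z ∈ ball (0 : ℂ) 1, F z = starF m z := by
  have h00 : (0 : ℂ) ∈ ball (0 : ℂ) 1 := by simp
  set g : ℂ → ℂ := dslope F 0 with hg
  have hgd : DifferentiableOn ℂ g (ball 0 1) := by
    rw [hg, Complex.differentiableOn_dslope (isOpen_ball.mem_nhds h00)]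
    exact hd
  have hgz : ∀ z, F z = z * g z := by
    intro z
    have := sub_smul_dslope F 0 z
    rw [h0, sub_zero, sub_zero, smul_eq_mul] at this
    exact this.symm
  have hg0 : g 0 = 1 := by rw [hg, dslope_same, h1]
  have hgne : ∀ z ∈ ball (0 : ℂ) 1, g z ≠ 0 := by
    intro z hz
    rcases eq_or_ne z 0 with rfl | hz0
    · rw [hg0]; exact one_ne_zero
    · intro h
      have := hN.F_ne hd h0 (norm_pos_iff.mpr hz0) (mem_ball_zero_iff.mp hz)
      rw [hgz, h, mul_zero] at this
      exact this rfl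
  set p : ℂ → ℂ := fun z => deriv F z / g z with hp
  have hpd : DifferentiableOn ℂ p (ball 0 1) := (hd.deriv isOpen_ball).div hgd hgne
  have hp0 : p 0 = 1 := by simp only [hp]; rw [h1, hg0, div_one]
  have hppos : ∀ z ∈ ball (0 : ℂ) 1, 0 ≤ (p z).re := by
    intro z hz
    rcases eq_or_ne z 0 with rfl | hz0
    · rw [hp0]; simp
    · have h2 := hN.re_pos hd h0 (norm_pos_iff.mpr hz0) (mem_ball_zero_iff.mp hz)
      have h3 : z * deriv F z / F z = p z := by
        simp only [hp]
        rw [hgz]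
        have := hgne z hz
        field_simp
      rw [h3] at h2
      exact h2.le
  obtain ⟨m, hm⟩ := exists_meas_lim hpd hp0 hppos
  refine ⟨m, inferInstance, ?_⟩
  -- the difference
  have hLd := Lm_diff (m : Measure 𝕊)
  set d : ℂ → ℂ := fun z => p z - (1 + z * deriv (Lm (m : Measure 𝕊)) z) with hdd
  have hddiff : DifferentiableOn ℂ d (ball 0 1) :=
    hpd.sub ((differentiableOn_const 1).add (differentiableOn_id.mul (hLd.deriv isOpen_ball)))
  have hdre : ∀ z ∈ ball (0 : ℂ) 1, (d z).re = 0 := by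
    intro z hz
    have hzn : ‖z‖ < 1 := mem_ball_zero_iff.mp hz
    simp only [hdd]
    rw [ker_int (m : Measure 𝕊) hz, Complex.sub_re]
    have h2 := Complex.reCLM.integral_comp_comm
      (integrable_of_cont (m := (m : Measure 𝕊)) (ker_continuous hzn))
    simp only [Complex.reCLM_apply] at h2
    rw [← h2, hm z hz, sub_self]
  have hd0 : d 0 = 0 := by simp [hdd, hp0]
  have hdz : ∀ z ∈ ball (0 : ℂ) 1, d z = 0 := by
    have han : AnalyticOnNhd ℂ d (ball 0 1) := hddiff.analyticOnNhd isOpen_ball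
    rcases han.is_constant_or_isOpen (convex_ball (0 : ℂ) 1).isPreconnected with ⟨w, hw⟩ | h
    · intro z hz
      rw [hw z hz, ← hw 0 h00, hd0]
    · exfalso
      have hop := h (ball 0 1) Subset.rfl isOpen_ball
      have h0m : (0 : ℂ) ∈ d '' ball 0 1 := ⟨0, h00, hd0⟩
      obtain ⟨ρ, hρ0, hρ⟩ := Metric.isOpen_iff.mp hop 0 h0m
      have h3 : ((ρ / 2 : ℝ) : ℂ) ∈ ball (0 : ℂ) ρ := by
        rw [mem_ball_zero_iff, Complex.norm_real, Real.norm_eq_abs, abs_of_pos (by linarith)]
        linarith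
      obtain ⟨z, hz, hz2⟩ := hρ h3
      have h4 := hdre z hz
      rw [hz2, Complex.ofReal_re] at h4
      linarith
  -- the quotient
  set Q : ℂ → ℂ := fun z => g z * Complex.exp (-Lm (m : Measure 𝕊) z) with hQ
  have hQd : DifferentiableOn ℂ Q (ball 0 1) := hgd.mul hLd.neg.cexp
  have hQder : ∀ z ∈ ball (0 : ℂ) 1, z ≠ 0 → deriv Q z = 0 := by
    intro z hz hz0
    have hgz' : HasDerivAt g (deriv g z) z :=
      (hgd.differentiableAt (isOpen_ball.mem_nhds hz)).hasDerivAt
    have hLz : HasDerivAt (Lm (m : Measure 𝕊)) (deriv (Lm (m : Measure 𝕊)) z) z :=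
      (hLd.differentiableAt (isOpen_ball.mem_nhds hz)).hasDerivAt
    have hQ' : HasDerivAt Q (deriv g z * Complex.exp (-Lm (m : Measure 𝕊) z) +
        g z * (Complex.exp (-Lm (m : Measure 𝕊) z) * -deriv (Lm (m : Measure 𝕊)) z)) z :=
      hgz'.mul hLz.neg.cexp
    rw [hQ'.deriv]
    have hF' : deriv F z = g z + z * deriv g z := by
      have : HasDerivAt (fun z => z * g z) (1 * g z + z * deriv g z) z :=
        (hasDerivAt_id z).mul hgz'
      have e : F = fun z => z * g z := funext hgz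
      rw [e, this.deriv, one_mul]
    have h5 := hdz z hz
    simp only [hdd, hp] at h5
    rw [hF'] at h5
    have hgn := hgne z hz
    have h6 : z * (deriv g z - g z * deriv (Lm (m : Measure 𝕊)) z) = 0 := by
      have h7 : (g z + z * deriv g z) / g z = 1 + z * deriv (Lm (m : Measure 𝕊)) z := by
        linear_combination h5
      rw [div_eq_iff hgn] at h7
      linear_combination h7
    have h8 : deriv g z - g z * deriv (Lm (m : Measure 𝕊)) z = 0 := by
      rcases mul_eq_zero.mp h6 with h | h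
      · exact absurd h hz0
      · exact h
    linear_combination Complex.exp (-Lm (m : Measure 𝕊) z) * h8
  have hQder0 : ∀ z ∈ ball (0 : ℂ) 1, deriv Q z = 0 := by
    intro z hz
    rcases eq_or_ne z 0 with rfl | hz0
    · have hcont : ContinuousAt (deriv Q) 0 :=
        ((hQd.deriv isOpen_ball).differentiableAt (isOpen_ball.mem_nhds h00)).continuousAt
      have h9 : Tendsto (deriv Q) (𝓝[≠] 0) (𝓝 (deriv Q 0)) :=
        hcont.tendsto.mono_left nhdsWithin_le_nhds
      have h10 : Tendsto (deriv Q) (𝓝[≠] 0) (𝓝 0) := by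
        refine tendsto_const_nhds.congr' ?_
        have h11 : ∀ᶠ z in 𝓝[≠] (0 : ℂ), z ∈ ball (0 : ℂ) 1 :=
          mem_nhdsWithin_of_mem_nhds (isOpen_ball.mem_nhds h00)
        filter_upwards [h11, self_mem_nhdsWithin] with w hw hw0
        exact (hQder w hw hw0).symm
      exact tendsto_nhds_unique h9 h10
    · exact hQder z hz hz0
  intro z hz
  have hconst := (convex_ball (0 : ℂ) 1).is_const_of_fderivWithin_eq_zero (𝕜 := ℂ) hQd
    (fun w hw => by
      rw [fderivWithin_of_isOpen isOpen_ball hw]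
      ext
      exact hQder0 w hw) hz h00
  have hQ0 : Q 0 = 1 := by simp [hQ, hg0, Lm_zero]
  rw [hQ0] at hconst
  simp only [hQ] at hconst
  rw [starF_eq_Lm, hgz]
  congr 1
  rw [Complex.exp_neg] at hconst
  have := Complex.exp_ne_zero (Lm (m : Measure 𝕊) z)
  field_simp at hconst
  exact hconst

end Pool.Agent.StarN
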