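import Pool.Agent.StarN.GsBound

/-!
The Beta integral formula for `Gs`.
-/

namespace Pool.Agent.StarN

open Complex Metric Set Filter Topology MeasureTheory intervalIntegral Interval

/-- the constant in the integral formula -/
noncomputable def κ (μ : ℂ) : ℂ := (μ + 1) / (Complex.Gamma (μ + 2) * Complex.Gamma (1 - μ))

lemma gamma_q {μ : ℂ} (hμ : -2 < μ.re) (n : ℕ) :
    (μ + 1) * Complex.Gamma (μ + (n + 2)) =
      Complex.Gamma (μ + 2) * ((n + 2).factorial * q μ (n + 2)) := by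
  induction n with
  | zero =>
    simp only [q]
    push_cast
    have : (((0 + 2).factorial : ℕ) : ℂ) = 2 := by norm_num [Nat.factorial]
    rw [this]
    simp
    ring
  | succ n ih =>
    have hne : μ + (n + 2) ≠ 0 := by
      intro h
      have := congrArg Complex.re h
      simp at this
      have h0 : (0 : ℝ) ≤ n := Nat.cast_nonneg n
      linarith
    have h1 : μ + ((n + 1 : ℕ) + 2) = (μ + (n + 2)) + 1 := by push_cast; ring
    rw [h1, Complex.Gamma_add_one _ hne, ← mul_assoc, mul_comm (μ + 1), mul_assoc, ih]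
    have h2 : q μ (n + 1 + 2) = q μ (n + 2) * (μ + ((n + 1 : ℕ) + 1)) / ((n + 1 : ℕ) + 2) := rfl
    rw [h2]
    have h3 : (((n + 1 + 2).factorial : ℕ) : ℂ) = ((n : ℂ) + 3) * ((n + 2).factorial : ℂ) := by
      rw [show n + 1 + 2 = (n + 2) + 1 by ring, Nat.factorial_succ]; push_cast; ring
    rw [h3]
    have h4 : (n : ℂ) + 3 ≠ 0 := by exact_mod_cast (by omega : n + 3 ≠ 0)
    have h5 : ((n + 1 : ℕ) : ℂ) + 2 = (n : ℂ) + 3 := by push_cast; ring
    rw [h5]
    field_simp
    push_cast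
    ring

lemma kappa_beta {μ : ℂ} {N : ℕ} (hN : N = 1 ∨ N = 2) (hμ : -(N : ℝ) < μ.re) (hμ1 : μ.re < 1)
    {n : ℕ} (hn : N ≤ n) : κ μ * Complex.betaIntegral (μ + n) (1 - μ) = q μ n := by
  have hn0 : (0 : ℝ) < (μ + n).re := by
    simp
    have : (N : ℝ) ≤ n := by exact_mod_cast hn
    linarith
  have h1 : (0 : ℝ) < (1 - μ).re := by simp; linarith
  have hB := Complex.Gamma_mul_Gamma_eq_betaIntegral hn0 h1
  have h2 : μ + n + (1 - μ) = n + 1 := by ring
  rw [h2, Complex.Gamma_nat_eq_factorial] at hB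
  have hμ2 : -2 < μ.re := by
    rcases hN with rfl | rfl
    · push_cast at hμ; linarith
    · push_cast at hμ; linarith
  have hG2 : Complex.Gamma (μ + 2) ≠ 0 := Complex.Gamma_ne_zero_of_re_pos (by simp; linarith)
  have hG1 : Complex.Gamma (1 - μ) ≠ 0 := Complex.Gamma_ne_zero_of_re_pos h1
  have hfac : ((n.factorial : ℕ) : ℂ) ≠ 0 := by exact_mod_cast n.factorial_ne_zero
  have hB' : Complex.betaIntegral (μ + n) (1 - μ) =
      Complex.Gamma (μ + n) * Complex.Gamma (1 - μ) / n.factorial := by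
    rw [hB]; field_simp
  have key : (μ + 1) * Complex.Gamma (μ + n) =
      Complex.Gamma (μ + 2) * (n.factorial * q μ n) := by
    rcases n with _ | _ | n
    · omega
    · have hN1 : N = 1 := by omega
      subst hN1
      have hne : μ + 1 ≠ 0 := by
        intro h
        have := congrArg Complex.re h
        simp at this hμ
        linarith
      have h3 : μ + 2 = (μ + 1) + 1 := by ring
      rw [h3, Complex.Gamma_add_one _ hne]
      simp [q]
    · have := gamma_q hμ2 n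
      push_cast at this ⊢
      rw [show (n : ℂ) + 1 + 1 = n + 2 by ring]
      exact this
  rw [hB', κ]
  calc (μ + 1) / (Complex.Gamma (μ + 2) * Complex.Gamma (1 - μ)) *
        (Complex.Gamma (μ + n) * Complex.Gamma (1 - μ) / n.factorial)
      = ((μ + 1) * Complex.Gamma (μ + n)) / (Complex.Gamma (μ + 2) * n.factorial) := by
        field_simp
    _ = q μ n := by rw [key]; field_simp

/-- real Beta integrands are integrable -/
lemma real_beta_integrable {a b : ℝ} (ha : -1 < a) (hb : -1 < b) :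
    IntervalIntegrable (fun t : ℝ => t ^ a * (1 - t) ^ b) volume 0 1 := by
  have h := (Complex.betaIntegral_convergent (u := ((a + 1 : ℝ) : ℂ)) (v := ((b + 1 : ℝ) : ℂ))
    (by simp; linarith) (by simp; linarith)).norm
  rw [intervalIntegrable_iff_integrableOn_Ioo_of_le zero_le_one] at h ⊢
  refine h.congr_fun (fun t ht => ?_) measurableSet_Ioo
  have h1 : 0 < t := ht.1
  have h2 : 0 < 1 - t := by linarith [ht.2]
  simp only
  rw [norm_mul, Complex.norm_cpow_eq_rpow_re_of_pos h1]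
  have h3 : (1 : ℂ) - (t : ℂ) = ((1 - t : ℝ) : ℂ) := by push_cast; ring
  rw [h3, Complex.norm_cpow_eq_rpow_re_of_pos h2]
  congr 2
  · simp
  · simp

/-- the weight -/
noncomputable def W (μ : ℂ) (t : ℝ) : ℂ := (t : ℂ) ^ (μ - 1) * (1 - (t : ℂ)) ^ (-μ)

lemma norm_W {μ : ℂ} {t : ℝ} (ht : t ∈ Ioo (0 : ℝ) 1) :
    ‖W μ t‖ = t ^ (μ.re - 1) * (1 - t) ^ (-μ.re) := by
  have h1 : 0 < t := ht.1
  have h2 : 0 < 1 - t := by linarith [ht.2]
  have h3 : (1 : ℂ) - (t : ℂ) = ((1 - t : ℝ) : ℂ) := by push_cast; ring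
  rw [W, norm_mul, Complex.norm_cpow_eq_rpow_re_of_pos h1, h3,
    Complex.norm_cpow_eq_rpow_re_of_pos h2]
  simp

lemma W_measurable (μ : ℂ) : Measurable (W μ) := by
  unfold W
  fun_prop

lemma W_mul_pow {μ : ℂ} {t : ℝ} (ht : t ∈ Ioo (0 : ℝ) 1) (n : ℕ) :
    W μ t * (t : ℂ) ^ n = (t : ℂ) ^ (μ + n - 1) * (1 - (t : ℂ)) ^ (1 - μ - 1) := by
  have h1 : (t : ℂ) ≠ 0 := by exact_mod_cast ht.1.ne'
  unfold W
  rw [show μ + n - 1 = (μ - 1) + n by ring, Complex.cpow_add _ _ h1, Complex.cpow_natCast,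
    show 1 - μ - 1 = -μ by ring]
  ring

/-- The integral formula. -/
lemma int_formula {μ : ℂ} {N : ℕ} (hN : N = 1 ∨ N = 2) (hμ : -(N : ℝ) < μ.re) (hμ1 : μ.re < 1)
    {a : ℕ → ℂ} (ha0 : ∀ n < N, a n = 0) {r : ℝ} (hr0 : 0 ≤ r) (hsum : Summable fun n => ‖a n‖ * r ^ n) :
    Gs a μ r = κ μ * ∫ t in (0 : ℝ)..1, W μ t * ∑' n : ℕ, a n * ((t * r : ℝ) : ℂ) ^ n := by
  have hae : ∀ᵐ t : ℝ, t ∈ Ι (0 : ℝ) 1 → t ∈ Ioo (0 : ℝ) 1 := by
    have : ∀ᵐ t : ℝ, t ≠ 1 := by
      rw [ae_iff]; simp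
    filter_upwards [this] with t ht h
    rw [uIoc_of_le zero_le_one] at h
    exact ⟨h.1, lt_of_le_of_ne h.2 ht⟩
  have hNpos : (1 : ℝ) ≤ N := by rcases hN with rfl | rfl <;> norm_num
  have key : HasSum (fun n : ℕ => ∫ t in (0 : ℝ)..1, W μ t * (a n * ((t * r : ℝ) : ℂ) ^ n))
      (∫ t in (0 : ℝ)..1, W μ t * ∑' n : ℕ, a n * ((t * r : ℝ) : ℂ) ^ n) := by
    refine intervalIntegral.hasSum_integral_of_dominated_convergence
      (fun n t => ‖a n‖ * r ^ n * (t ^ (μ.re - 1 + N) * (1 - t) ^ (-μ.re))) ?_ ?_ ?_ ?_ ?_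
    · intro n
      refine Measurable.aestronglyMeasurable ?_
      exact (W_measurable μ).mul (by fun_prop)
    · intro n
      filter_upwards [hae] with t ht h
      have ht' := ht h
      rcases lt_or_ge n N with hn | hn
      · rw [ha0 n hn]; simp
      · rw [norm_mul, norm_mul, norm_W ht', norm_pow, Complex.norm_real, Real.norm_eq_abs,
          abs_of_nonneg (mul_nonneg ht'.1.le hr0), mul_pow]
        have h1 : t ^ n ≤ t ^ N := pow_le_pow_of_le_one ht'.1.le ht'.2.le hn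
        have h2 : t ^ (μ.re - 1 + N) = t ^ (μ.re - 1) * t ^ N := by
          rw [Real.rpow_add ht'.1, Real.rpow_natCast]
        rw [h2]
        have h3 : 0 ≤ t ^ (μ.re - 1) := Real.rpow_nonneg ht'.1.le _
        have h4 : 0 ≤ (1 - t) ^ (-μ.re) := Real.rpow_nonneg (by linarith [ht'.2]) _
        have h5 : 0 ≤ r ^ n := pow_nonneg hr0 n
        calc t ^ (μ.re - 1) * (1 - t) ^ (-μ.re) * (‖a n‖ * (t ^ n * r ^ n))
            = (t ^ (μ.re - 1) * (1 - t) ^ (-μ.re) * (‖a n‖ * r ^ n)) * t ^ n := by ring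
          _ ≤ (t ^ (μ.re - 1) * (1 - t) ^ (-μ.re) * (‖a n‖ * r ^ n)) * t ^ N := by gcongr
          _ = _ := by ring
    · filter_upwards with t _
      exact hsum.mul_right _
    · have : (fun t : ℝ => ∑' n : ℕ, ‖a n‖ * r ^ n * (t ^ (μ.re - 1 + N) * (1 - t) ^ (-μ.re))) =
          fun t : ℝ => (∑' n : ℕ, ‖a n‖ * r ^ n) * (t ^ (μ.re - 1 + N) * (1 - t) ^ (-μ.re)) := by
        funext t
        rw [tsum_mul_right]
      rw [this]
      exact (real_beta_integrable (by linarith) (by linarith)).const_mul _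
    · filter_upwards [hae] with t ht h
      have ht' := ht h
      have hs : Summable fun n : ℕ => a n * ((t * r : ℝ) : ℂ) ^ n := by
        refine Summable.of_norm_bounded hsum (fun n => ?_)
        rw [norm_mul, norm_pow, Complex.norm_real, Real.norm_eq_abs,
          abs_of_nonneg (mul_nonneg ht'.1.le hr0)]
        have : (t * r) ^ n ≤ r ^ n := by
          apply pow_le_pow_left₀ (mul_nonneg ht'.1.le hr0)
          nlinarith [ht'.2, ht'.1]
        gcongr
      exact hs.hasSum.mul_left (W μ t)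
  have hterm : ∀ n : ℕ, κ μ * ∫ t in (0 : ℝ)..1, W μ t * (a n * ((t * r : ℝ) : ℂ) ^ n) =
      a n * q μ n * (r : ℂ) ^ n := by
    intro n
    rcases lt_or_ge n N with hn | hn
    · rw [ha0 n hn]; simp
    · have h1 : (∫ t in (0 : ℝ)..1, W μ t * (a n * ((t * r : ℝ) : ℂ) ^ n)) =
          ∫ t in (0 : ℝ)..1, (a n * (r : ℂ) ^ n) *
            ((t : ℂ) ^ (μ + n - 1) * (1 - (t : ℂ)) ^ (1 - μ - 1)) := by
        refine intervalIntegral.integral_congr_ae ?_
        filter_upwards [hae] with t ht h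
        rw [← W_mul_pow (ht h)]
        push_cast
        ring
      rw [h1, intervalIntegral.integral_const_mul]
      have h2 := kappa_beta hN hμ hμ1 hn
      rw [Complex.betaIntegral] at h2
      linear_combination (a n * (r : ℂ) ^ n) * h2
  have h3 := key.mul_left (κ μ)
  simp only [hterm] at h3
  exact h3.tsum_eq

end Pool.Agent.StarN
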