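import Pool.Agent.StarN.Defs

/-!
The functions `k_μ(z) = ((1 - z)^(-μ) - 1) / μ`.
-/

namespace Pool.Agent.StarN

open Complex Metric Set Filter Topology

/-- Taylor coefficients from a convergent expansion -/
lemma tc_of_hasSum {f : ℂ → ℂ} {a : ℕ → ℂ}
    (h : ∀ z ∈ ball (0 : ℂ) 1, HasSum (fun n => a n * z ^ n) (f z)) (n : ℕ) : tc f n = a n := by
  have hf : HasFPowerSeriesOnBall f (FormalMultilinearSeries.ofScalars ℂ a) 0 1 := by
    refine ⟨?_, by norm_num, ?_⟩
    · refine ENNReal.le_of_forall_nnreal_lt fun ρ hρ => ?_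
      have hρ1 : (ρ : ℝ) < 1 := by exact_mod_cast hρ
      apply FormalMultilinearSeries.le_radius_of_summable
      have hz : ((ρ : ℝ) : ℂ) ∈ ball (0 : ℂ) 1 := by
        rw [mem_ball_zero_iff]; simpa using hρ1
      have := (h _ hz).summable.norm
      refine this.congr fun k => ?_
      rw [FormalMultilinearSeries.ofScalars_norm]
      simp
    · intro y hy
      have hy' : y ∈ ball (0 : ℂ) 1 := by
        rwa [← ENNReal.ofReal_one, Metric.eball_ofReal] at hy
      have := h y hy'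
      rw [zero_add]
      have e : (fun k : ℕ => (FormalMultilinearSeries.ofScalars ℂ a k) fun _ => y) =
          fun k => a k * y ^ k := by
        funext k
        simp [mul_comm]
      rw [e]; exact this
  have h1 := hf.factorial_smul (1 : ℂ) n
  unfold tc
  rw [iteratedDeriv_eq_iteratedFDeriv, ← h1]
  have : ((n.factorial : ℕ) : ℂ) ≠ 0 := by exact_mod_cast n.factorial_ne_zero
  simp
  field_simp

/-- a differentiable function is the sum of its Taylor series -/
lemma hasSum_tc {f : ℂ → ℂ} (hf : DifferentiableOn ℂ f (ball 0 1)) {z : ℂ} (hz : z ∈ ball (0 : ℂ) 1) :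
    HasSum (fun n => tc f n * z ^ n) (f z) := by
  have := Complex.hasSum_taylorSeries_on_ball hf hz
  simp only [sub_zero, smul_eq_mul] at this
  have e : (fun n : ℕ => tc f n * z ^ n) =
      fun n : ℕ => ((n.factorial : ℂ))⁻¹ * z ^ n * iteratedDeriv n f 0 := by
    funext n
    unfold tc
    ring
  rw [e]
  simpa [mul_assoc] using this

/-- the coefficients of `k_μ` -/
noncomputable def q (μ : ℂ) : ℕ → ℂ
  | 0 => 0
  | 1 => 1
  | (n + 2) => q μ (n + 1) * (μ + (n + 1)) / (n + 2)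

/-- `k_μ` -/
noncomputable def kf (μ z : ℂ) : ℂ := (1 / (1 - z) ^ μ - 1) / μ

lemma mul_q (μ : ℂ) (n : ℕ) :
    μ * q μ (n + 1) = (ascPochhammer ℂ (n + 1)).eval μ / ((n + 1).factorial : ℂ) := by
  induction n with
  | zero => simp [q]
  | succ n ih =>
    rw [q, ascPochhammer_succ_eval]
    have h1 : (((n + 1 + 1).factorial : ℕ) : ℂ) = ((n : ℂ) + 2) * ((n + 1).factorial : ℂ) := by
      rw [Nat.factorial_succ]; push_cast; ring
    rw [h1]
    have h2 : (((n + 1).factorial : ℕ) : ℂ) ≠ 0 := by exact_mod_cast (n + 1).factorial_ne_zero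
    have h3 : (n : ℂ) + 2 ≠ 0 := by exact_mod_cast (by omega : n + 2 ≠ 0)
    have h4 : μ * (q μ (n + 1) * (μ + (n + 1)) / (n + 2)) =
        (μ * q μ (n + 1)) * (μ + (n + 1)) / (n + 2) := by ring
    rw [h4, ih]
    field_simp
    push_cast
    ring

lemma choose_eq (μ : ℂ) (n : ℕ) :
    Ring.choose (μ + n - 1) n = (ascPochhammer ℂ n).eval μ / (n.factorial : ℂ) := by
  rw [Ring.choose_eq_smul]
  simp only [Polynomial.descPochhammer_smeval_eq_ascPochhammer,
    Polynomial.ascPochhammer_smeval_cast, Polynomial.ascPochhammer_smeval_eq_eval]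
  rw [show μ + (n : ℂ) - 1 - n + 1 = μ by ring]
  simp [div_eq_inv_mul]

lemma hasSum_kf {μ : ℂ} (hμ : μ ≠ 0) {z : ℂ} (hz : z ∈ ball (0 : ℂ) 1) :
    HasSum (fun n => q μ n * z ^ n) (kf μ z) := by
  have hz' : z ∈ Metric.eball (0 : ℂ) 1 := by
    rw [← ENNReal.ofReal_one, Metric.eball_ofReal]; exact hz
  have h := (Complex.one_div_one_sub_cpow_hasFPowerSeriesOnBall_zero μ).hasSum hz'
  rw [zero_add] at h
  have h1 : HasSum (fun n : ℕ => (ascPochhammer ℂ n).eval μ / (n.factorial : ℂ) * z ^ n)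
      (1 / (1 - z) ^ μ) := by
    have e : (fun n : ℕ => (ascPochhammer ℂ n).eval μ / (n.factorial : ℂ) * z ^ n) =
        fun n : ℕ => (FormalMultilinearSeries.ofScalars ℂ
          (fun n : ℕ => Ring.choose (μ + n - 1) n) n) fun _ => z := by
      funext n
      rw [← choose_eq]
      simp [mul_comm]
    rw [e]; exact h
  have h2 := (hasSum_nat_add_iff' 1).mpr h1
  simp only [Finset.range_one, Finset.sum_singleton, ascPochhammer_zero, Polynomial.eval_one,
    Nat.factorial_zero, Nat.cast_one, div_one, pow_zero, mul_one] at h2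
  have h3 := h2.div_const μ
  have h4 : HasSum (fun n : ℕ => q μ (n + 1) * z ^ (n + 1)) (kf μ z) := by
    have e : (fun n : ℕ => q μ (n + 1) * z ^ (n + 1)) =
        fun n : ℕ => (ascPochhammer ℂ (n + 1)).eval μ / ((n + 1).factorial : ℂ) *
          z ^ (n + 1) / μ := by
      funext n
      rw [← mul_q]
      field_simp
    rw [e]; exact h3
  refine (hasSum_nat_add_iff' 1).mp ?_
  simpa [q] using h4

lemma tc_kf {μ : ℂ} (hμ : μ ≠ 0) (n : ℕ) : tc (kf μ) n = q μ n :=
  tc_of_hasSum (fun _ hz => hasSum_kf hμ hz) n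

lemma tc_zero (f : ℂ → ℂ) : tc f 0 = f 0 := by simp [tc]

lemma tc_one (f : ℂ → ℂ) : tc f 1 = deriv f 0 := by simp [tc, iteratedDeriv_one]

lemma one_sub_re_pos {z : ℂ} (hz : ‖z‖ < 1) : 0 < (1 - z).re := by
  have := Complex.re_le_norm z
  simp only [Complex.sub_re, Complex.one_re]; linarith

lemma one_sub_ne {z : ℂ} (hz : ‖z‖ < 1) : 1 - z ≠ 0 := by
  intro h
  have := one_sub_re_pos hz
  rw [h] at this
  simp at this

lemma one_sub_mem_slitPlane {z : ℂ} (hz : ‖z‖ < 1) : 1 - z ∈ Complex.slitPlane :=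
  Or.inl (one_sub_re_pos hz)

/-- Royster's functions are univalent. -/
lemma kf_mem {μ : ℂ} (h : ‖μ‖ ^ 2 < 2 * |μ.re|) : kf μ ∈ ClassS := by
  have hμ : μ ≠ 0 := by
    rintro rfl
    simp at h
  refine ⟨?_, ?_, ?_, ?_⟩
  · intro z hz
    rw [mem_ball_zero_iff] at hz
    have h1 : DifferentiableAt ℂ (fun z : ℂ => (1 - z) ^ μ) z :=
      ((differentiableAt_const 1).sub differentiableAt_id).cpow_const
        (one_sub_mem_slitPlane hz)
    have h2 : (1 - z) ^ μ ≠ 0 := by
      rw [Complex.cpow_def_of_ne_zero (one_sub_ne hz)]; exact Complex.exp_ne_zero _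
    exact ((((differentiableAt_const 1).div h1 h2).sub_const 1).div_const μ).differentiableWithinAt
  · intro z1 hz1 z2 hz2 he
    rw [mem_ball_zero_iff] at hz1 hz2
    have hc1 : (1 - z1) ^ μ ≠ 0 := by
      rw [Complex.cpow_def_of_ne_zero (one_sub_ne hz1)]; exact Complex.exp_ne_zero _
    have hc2 : (1 - z2) ^ μ ≠ 0 := by
      rw [Complex.cpow_def_of_ne_zero (one_sub_ne hz2)]; exact Complex.exp_ne_zero _
    have e1 : (1 - z1) ^ μ = (1 - z2) ^ μ := by
      unfold kf at he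
      have e2 : (1 / (1 - z1) ^ μ - 1) = (1 / (1 - z2) ^ μ - 1) := by
        field_simp at he ⊢
        exact he
      have e3 : 1 / (1 - z1) ^ μ = 1 / (1 - z2) ^ μ := by linear_combination e2
      rw [one_div, one_div, inv_inj] at e3
      exact e3
    rw [Complex.cpow_def_of_ne_zero (one_sub_ne hz1),
      Complex.cpow_def_of_ne_zero (one_sub_ne hz2), Complex.exp_eq_exp_iff_exists_int] at e1
    obtain ⟨n, hn⟩ := e1
    have ha1 : |(1 - z1).arg| < Real.pi / 2 :=
      Complex.abs_arg_lt_pi_div_two_iff.mpr (Or.inl (one_sub_re_pos hz1))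
    have ha2 : |(1 - z2).arg| < Real.pi / 2 :=
      Complex.abs_arg_lt_pi_div_two_iff.mpr (Or.inl (one_sub_re_pos hz2))
    have hnorm : 0 < ‖μ‖ ^ 2 := by
      have := norm_pos_iff.mpr hμ
      positivity
    have hl : (Complex.log (1 - z1) - Complex.log (1 - z2)) * ((‖μ‖ ^ 2 : ℝ) : ℂ) =
        n * (2 * Real.pi * I) * (starRingEnd ℂ) μ := by
      have : μ * (starRingEnd ℂ) μ = ((‖μ‖ ^ 2 : ℝ) : ℂ) := by
        rw [Complex.mul_conj, Complex.normSq_eq_norm_sq]
      rw [← this]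
      linear_combination (starRingEnd ℂ) μ * hn
    have him := congrArg Complex.im hl
    rw [Complex.im_mul_ofReal] at him
    simp only [Complex.sub_im, Complex.log_im] at him
    have him2 : (↑n * (2 * ↑Real.pi * I) * (starRingEnd ℂ) μ).im =
        (n : ℝ) * (2 * Real.pi) * μ.re := by
      simp [Complex.mul_im, Complex.mul_re]
    rw [him2] at him
    have hlt : |(1 - z1).arg - (1 - z2).arg| < Real.pi := by
      rw [abs_lt] at *
      constructor <;> linarith [ha1.1, ha1.2, ha2.1, ha2.2]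
    have hn0 : n = 0 := by
      by_contra hne
      have hn1 : (1 : ℝ) ≤ |(n : ℝ)| := by
        have := Int.one_le_abs hne
        exact_mod_cast this
      have h3 : |((1 - z1).arg - (1 - z2).arg) * ‖μ‖ ^ 2| = |(n : ℝ) * (2 * Real.pi) * μ.re| := by
        rw [him]
      rw [abs_mul, abs_mul, abs_mul, abs_of_pos hnorm, abs_of_pos (by positivity : 0 < 2 * Real.pi)]
        at h3
      have h4 : 2 * Real.pi * |μ.re| ≤ |(n : ℝ)| * (2 * Real.pi) * |μ.re| := by
        have : 0 ≤ 2 * Real.pi * |μ.re| := by positivity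
        nlinarith
      have h5 : |(1 - z1).arg - (1 - z2).arg| * ‖μ‖ ^ 2 < Real.pi * ‖μ‖ ^ 2 := by
        gcongr
      have h6 : Real.pi * ‖μ‖ ^ 2 < Real.pi * (2 * |μ.re|) := by
        have := Real.pi_pos
        gcongr
      linarith
    rw [hn0] at hn
    have hn' : Complex.log (1 - z1) = Complex.log (1 - z2) := by
      have : Complex.log (1 - z1) * μ = Complex.log (1 - z2) * μ := by simpa using hn
      exact mul_right_cancel₀ hμ this
    have := congrArg Complex.exp hn'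
    rw [Complex.exp_log (one_sub_ne hz1), Complex.exp_log (one_sub_ne hz2)] at this
    linear_combination -this
  · simp [kf]
  · rw [← tc_one, tc_kf hμ]; rfl

/-- the series `∑ b_n q_n(μ) z^n` -/
noncomputable def Gs (b : ℕ → ℂ) (μ z : ℂ) : ℂ := ∑' n : ℕ, b n * q μ n * z ^ n

lemma had_kf (F : ℂ → ℂ) {μ : ℂ} (hμ : μ ≠ 0) (z : ℂ) : had F (kf μ) z = Gs (tc F) μ z := by
  unfold had Gs
  simp only [tc_kf hμ]

/-- (N) says that `Gs` has no zeros -/
lemma PropN.Gs_ne {F : ℂ → ℂ} (hN : PropN F) {μ z : ℂ} (h : ‖μ‖ ^ 2 < 2 * |μ.re|) (hz : 0 < ‖z‖)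
    (hz1 : ‖z‖ < 1) : Gs (tc F) μ z ≠ 0 := by
  have hμ : μ ≠ 0 := by
    rintro rfl
    simp at h
  rw [← had_kf F hμ]
  exact hN _ (kf_mem h) z hz hz1

lemma q_bound {μ : ℂ} (hμ : ‖μ‖ ≤ 2) (n : ℕ) : ‖q μ (n + 1)‖ ≤ ((n : ℝ) + 2) / 2 := by
  induction n with
  | zero => simp [q]
  | succ n ih =>
    rw [q, norm_div, norm_mul]
    have h1 : ‖μ + ((n : ℂ) + 1)‖ ≤ (n : ℝ) + 3 := by
      calc ‖μ + ((n : ℂ) + 1)‖ ≤ ‖μ‖ + ‖(n : ℂ) + 1‖ := norm_add_le _ _
        _ ≤ 2 + ((n : ℝ) + 1) := by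
          gcongr
          have : ((n : ℂ) + 1) = ((n + 1 : ℕ) : ℂ) := by push_cast; ring
          rw [this, Complex.norm_natCast]; push_cast; rfl
        _ = _ := by ring
    have h2 : ‖(n : ℂ) + 2‖ = (n : ℝ) + 2 := by
      have : ((n : ℂ) + 2) = ((n + 2 : ℕ) : ℂ) := by push_cast; ring
      rw [this, Complex.norm_natCast]; push_cast; rfl
    rw [h2, div_le_iff₀ (by positivity)]
    calc ‖q μ (n + 1)‖ * ‖μ + ((n : ℂ) + 1)‖ ≤ (((n : ℝ) + 2) / 2) * ((n : ℝ) + 3) := by gcongr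
      _ = _ := by push_cast; ring

end Pool.Agent.StarN
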