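import Pool.Agent.StarN.KMu

/-!
Estimates for `starF m` on the radius `(0, 1)`.
-/

namespace Pool.Agent.StarN

open Complex Metric Set Filter Topology MeasureTheory

/-- the point `1` of the circle -/
def e1 : 𝕊 := ⟨1, by simp⟩

/-- the linear form `1 - ζ̄ z` -/
noncomputable def lf (ζ : 𝕊) (z : ℂ) : ℂ := 1 - (starRingEnd ℂ) (ζ : ℂ) * z

lemma norm_coe (ζ : 𝕊) : ‖(ζ : ℂ)‖ = 1 := by
  have := ζ.2
  rwa [mem_sphere_zero_iff_norm] at this

lemma norm_conj_mul (ζ : 𝕊) (z : ℂ) : ‖(starRingEnd ℂ) (ζ : ℂ) * z‖ = ‖z‖ := by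
  rw [norm_mul, Complex.norm_conj, norm_coe, one_mul]

lemma lf_re_pos (ζ : 𝕊) {z : ℂ} (hz : ‖z‖ < 1) : 0 < (lf ζ z).re := by
  have := one_sub_re_pos (z := (starRingEnd ℂ) (ζ : ℂ) * z) (by rwa [norm_conj_mul])
  exact this

lemma lf_ne (ζ : 𝕊) {z : ℂ} (hz : ‖z‖ < 1) : lf ζ z ≠ 0 := by
  intro h
  have := lf_re_pos ζ hz
  rw [h] at this
  simp at this

lemma lf_slit (ζ : 𝕊) {z : ℂ} (hz : ‖z‖ < 1) : lf ζ z ∈ Complex.slitPlane :=
  Or.inl (lf_re_pos ζ hz)

lemma norm_lf_ge (ζ : 𝕊) (z : ℂ) : 1 - ‖z‖ ≤ ‖lf ζ z‖ := by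
  have h := norm_sub_norm_le (1 : ℂ) ((starRingEnd ℂ) (ζ : ℂ) * z)
  rw [norm_conj_mul, norm_one] at h
  exact h

lemma norm_lf_le (ζ : 𝕊) (z : ℂ) : ‖lf ζ z‖ ≤ 1 + ‖z‖ := by
  have h := norm_sub_le (1 : ℂ) ((starRingEnd ℂ) (ζ : ℂ) * z)
  rw [norm_conj_mul, norm_one] at h
  exact h

lemma continuous_lf (z : ℂ) : Continuous fun ζ : 𝕊 => lf ζ z := by
  unfold lf
  fun_prop

lemma continuous_log_lf {z : ℂ} (hz : ‖z‖ < 1) : Continuous fun ζ : 𝕊 => Complex.log (lf ζ z) :=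
  (continuous_lf z).clog (fun ζ => lf_slit ζ hz)

lemma continuous_logn_lf {z : ℂ} (hz : ‖z‖ < 1) : Continuous fun ζ : 𝕊 => Real.log ‖lf ζ z‖ :=
  (continuous_lf z).norm.log (fun ζ => (norm_pos_iff.mpr (lf_ne ζ hz)).ne')

lemma continuous_arg_lf {z : ℂ} (hz : ‖z‖ < 1) : Continuous fun ζ : 𝕊 => (lf ζ z).arg := by
  rw [continuous_iff_continuousAt]
  intro ζ
  exact ContinuousAt.comp (f := fun ζ : 𝕊 => lf ζ z) (Complex.continuousAt_arg (lf_slit ζ hz))
    (continuous_lf z).continuousAt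

lemma integrable_of_cont {E : Type*} [NormedAddCommGroup E] {m : Measure 𝕊} [IsFiniteMeasure m]
    {f : 𝕊 → E} (hf : Continuous f) : Integrable f m := by
  have h := hf.continuousOn.integrableOn_compact (μ := m) (isCompact_univ (X := 𝕊))
  rwa [integrableOn_univ] at h

variable {m : Measure 𝕊} [IsProbabilityMeasure m]

/-- `∫ log |1 - ζ̄ z|` -/
noncomputable def lg (m : Measure 𝕊) (z : ℂ) : ℝ := ∫ ζ, Real.log ‖lf ζ z‖ ∂m

/-- the argument of `starF m z / z` -/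
noncomputable def th (m : Measure 𝕊) (z : ℂ) : ℝ := -2 * ∫ ζ, (lf ζ z).arg ∂m

lemma starF_eq {z : ℂ} (hz : ‖z‖ < 1) :
    starF m z = z * (Real.exp (-2 * lg m z) : ℂ) * Complex.exp (th m z * I) := by
  have hint : Integrable (fun ζ : 𝕊 => Complex.log (lf ζ z)) m :=
    integrable_of_cont (continuous_log_lf hz)
  have h1 : (∫ ζ, Complex.log (lf ζ z) ∂m).re = lg m z := by
    have := Complex.reCLM.integral_comp_comm hint
    simp only [Complex.reCLM_apply, Complex.log_re] at this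
    exact this.symm
  have h2 : (∫ ζ, Complex.log (lf ζ z) ∂m).im = ∫ ζ, (lf ζ z).arg ∂m := by
    have := Complex.imCLM.integral_comp_comm hint
    simp only [Complex.imCLM_apply, Complex.log_im] at this
    exact this.symm
  have h3 : (∫ ζ, Complex.log (lf ζ z) ∂m) = (lg m z : ℂ) + (∫ ζ, (lf ζ z).arg ∂m : ℝ) * I := by
    rw [← h1, ← h2]
    exact (Complex.re_add_im _).symm
  unfold starF
  change z * Complex.exp (-2 * ∫ ζ, Complex.log (lf ζ z) ∂m) = _
  rw [h3, mul_assoc, Complex.ofReal_exp, ← Complex.exp_add]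
  congr 2
  unfold th
  push_cast
  ring

lemma norm_starF {z : ℂ} (hz : ‖z‖ < 1) : ‖starF m z‖ = ‖z‖ * Real.exp (-2 * lg m z) := by
  rw [starF_eq hz, norm_mul, norm_mul, Complex.norm_exp_ofReal_mul_I, mul_one, Complex.norm_real,
    Real.norm_eq_abs, abs_of_pos (Real.exp_pos _)]

/-- on the positive radius -/
lemma norm_real_lt {x : ℝ} (hx : x ∈ Ioo (0 : ℝ) 1) : ‖(x : ℂ)‖ < 1 := by
  rw [Complex.norm_real, Real.norm_eq_abs, abs_of_pos hx.1]; exact hx.2

lemma norm_real_eq {x : ℝ} (hx : x ∈ Ioo (0 : ℝ) 1) : ‖(x : ℂ)‖ = x := by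
  rw [Complex.norm_real, Real.norm_eq_abs, abs_of_pos hx.1]

lemma lf_e1 (x : ℝ) : lf e1 (x : ℂ) = ((1 - x : ℝ) : ℂ) := by
  simp [lf, e1]

omit [IsProbabilityMeasure m] in
/-- splitting off the atom at `1` -/
lemma integral_split {f : 𝕊 → ℝ} (hf : Integrable f m) :
    ∫ ζ, f ζ ∂m = m.real {e1} * f e1 + ∫ ζ in ({e1} : Set 𝕊)ᶜ, f ζ ∂m := by
  rw [← integral_add_compl (measurableSet_singleton e1) hf, integral_singleton]
  simp

/-- lower bound -/
lemma starF_lower {x : ℝ} (hx : x ∈ Ioo (0 : ℝ) 1) :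
    x / 4 * (1 - x) ^ (-(2 * m.real {e1})) ≤ ‖starF m (x : ℂ)‖ := by
  have hz := norm_real_lt hx
  have h1x : 0 < 1 - x := by linarith [hx.2]
  rw [norm_starF hz, norm_real_eq hx]
  have hint : Integrable (fun ζ : 𝕊 => Real.log ‖lf ζ (x : ℂ)‖) m :=
    integrable_of_cont (continuous_logn_lf hz)
  have h1 : lg m (x : ℂ) ≤ m.real {e1} * Real.log (1 - x) + Real.log 2 := by
    unfold lg
    rw [integral_split hint, lf_e1, Complex.norm_real, Real.norm_eq_abs, abs_of_pos h1x]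
    have h2 : ∫ ζ in ({e1} : Set 𝕊)ᶜ, Real.log ‖lf ζ (x : ℂ)‖ ∂m ≤
        ∫ ζ in ({e1} : Set 𝕊)ᶜ, Real.log 2 ∂m := by
      refine setIntegral_mono hint.integrableOn (integrable_const _) (fun ζ => ?_)
      refine Real.log_le_log (norm_pos_iff.mpr (lf_ne ζ hz)) ?_
      have := norm_lf_le ζ (x : ℂ)
      rw [norm_real_eq hx] at this
      linarith [hx.2]
    have h3 : ∫ ζ in ({e1} : Set 𝕊)ᶜ, Real.log 2 ∂m ≤ Real.log 2 := by
      rw [setIntegral_const, smul_eq_mul]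
      have h4 : m.real ({e1} : Set 𝕊)ᶜ ≤ 1 := measureReal_le_one
      have h5 : 0 ≤ Real.log 2 := Real.log_nonneg (by norm_num)
      nlinarith
    linarith
  have h6 : Real.exp (-2 * (m.real {e1} * Real.log (1 - x) + Real.log 2)) =
      1 / 4 * (1 - x) ^ (-(2 * m.real {e1})) := by
    rw [Real.rpow_def_of_pos h1x,
      show -2 * (m.real {e1} * Real.log (1 - x) + Real.log 2) =
        -(2 * Real.log 2) + Real.log (1 - x) * -(2 * m.real {e1}) by ring, Real.exp_add]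
    congr 1
    rw [show -(2 * Real.log 2) = Real.log (1 / 4) by
      rw [one_div, Real.log_inv, show (4 : ℝ) = 2 ^ 2 by norm_num, Real.log_pow]; push_cast; ring,
      Real.exp_log (by norm_num)]
  have h7 : 1 / 4 * (1 - x) ^ (-(2 * m.real {e1})) ≤ Real.exp (-2 * lg m (x : ℂ)) := by
    rw [← h6]
    exact Real.exp_le_exp.mpr (by linarith)
  calc x / 4 * (1 - x) ^ (-(2 * m.real {e1})) = x * (1 / 4 * (1 - x) ^ (-(2 * m.real {e1}))) := by
        ring
    _ ≤ x * Real.exp (-2 * lg m (x : ℂ)) := by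
      have := hx.1
      gcongr

/-- small balls around `1` -/
lemma exists_small_ball {c' : ℝ} (hc : 2 * m.real {e1} < c') :
    ∃ δ : ℝ, 0 < δ ∧ 2 * m.real (closedBall e1 δ) < c' := by
  have h1 : Tendsto (fun n : ℕ => m.real (closedBall e1 (1 / ((n : ℝ) + 1)))) atTop
      (𝓝 (m.real (⋂ n : ℕ, closedBall e1 (1 / ((n : ℝ) + 1))))) := by
    have := tendsto_measure_iInter_atTop (μ := m)
      (s := fun n : ℕ => closedBall e1 (1 / ((n : ℝ) + 1)))
      (fun n => measurableSet_closedBall.nullMeasurableSet) (by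
        intro a b hab
        apply closedBall_subset_closedBall
        apply one_div_le_one_div_of_le (by positivity)
        have : (a : ℝ) ≤ b := by exact_mod_cast hab
        linarith) ⟨0, measure_ne_top _ _⟩
    exact (ENNReal.tendsto_toReal (measure_ne_top _ _)).comp this
  have h2 : (⋂ n : ℕ, closedBall e1 (1 / ((n : ℝ) + 1))) = {e1} := by
    ext ζ
    simp only [mem_iInter, mem_closedBall, mem_singleton_iff]
    constructor
    · intro h
      by_contra hne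
      have hd : 0 < dist ζ e1 := dist_pos.mpr hne
      obtain ⟨n, hn⟩ := exists_nat_one_div_lt hd
      exact absurd (h n) (not_le.mpr hn)
    · rintro rfl n
      simp
      positivity
  rw [h2] at h1
  have h3 := h1.const_mul 2
  obtain ⟨n, hn⟩ := (h3.eventually (gt_mem_nhds hc)).exists
  exact ⟨1 / ((n : ℝ) + 1), by positivity, hn⟩

/-- upper bound -/
lemma starF_upper {c' : ℝ} (hc : 2 * m.real {e1} < c') :
    ∃ C : ℝ, 0 < C ∧ ∀ x ∈ Ioo (0 : ℝ) 1, ‖starF m (x : ℂ)‖ ≤ C * x * (1 - x) ^ (-c') := by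
  obtain ⟨δ, hδ0, hδ⟩ := exists_small_ball hc
  set B : Set 𝕊 := closedBall e1 δ with hB
  have hBm : MeasurableSet B := measurableSet_closedBall
  set M : ℝ := |Real.log (δ / 2)| with hM
  refine ⟨Real.exp (2 * M), Real.exp_pos _, fun x hx => ?_⟩
  have hz := norm_real_lt hx
  have h1x : 0 < 1 - x := by linarith [hx.2]
  have h1x1 : 1 - x < 1 := by linarith [hx.1]
  have hlog : Real.log (1 - x) < 0 := Real.log_neg h1x h1x1
  rw [norm_starF hz, norm_real_eq hx]
  have hint : Integrable (fun ζ : 𝕊 => Real.log ‖lf ζ (x : ℂ)‖) m :=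
    integrable_of_cont (continuous_logn_lf hz)
  have h1 : m.real B * Real.log (1 - x) - M ≤ lg m (x : ℂ) := by
    unfold lg
    rw [← integral_add_compl hBm hint]
    have h2 : m.real B * Real.log (1 - x) ≤ ∫ ζ in B, Real.log ‖lf ζ (x : ℂ)‖ ∂m := by
      have : ∫ ζ in B, Real.log (1 - x) ∂m ≤ ∫ ζ in B, Real.log ‖lf ζ (x : ℂ)‖ ∂m := by
        refine setIntegral_mono (integrable_const _) hint.integrableOn (fun ζ => ?_)
        refine Real.log_le_log h1x ?_
        have := norm_lf_ge ζ (x : ℂ)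
        rwa [norm_real_eq hx] at this
      rwa [setIntegral_const, smul_eq_mul] at this
    have h3 : -M ≤ ∫ ζ in Bᶜ, Real.log ‖lf ζ (x : ℂ)‖ ∂m := by
      have h4 : ∫ ζ in Bᶜ, -M ∂m ≤ ∫ ζ in Bᶜ, Real.log ‖lf ζ (x : ℂ)‖ ∂m := by
        refine setIntegral_mono_on (integrable_const _) hint.integrableOn hBm.compl
          (fun ζ hζ => ?_)
        have hd : δ < ‖(ζ : ℂ) - 1‖ := by
          have : δ < dist ζ e1 := by simpa [hB] using hζ
          rw [Subtype.dist_eq, dist_eq_norm] at this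
          exact this
        have hge : δ / 2 ≤ ‖lf ζ (x : ℂ)‖ := by
          have ha : 1 - x ≤ ‖lf ζ (x : ℂ)‖ := by
            have := norm_lf_ge ζ (x : ℂ)
            rwa [norm_real_eq hx] at this
          have hb : δ - (1 - x) ≤ ‖lf ζ (x : ℂ)‖ := by
            have hc1 : lf ζ (x : ℂ) = (1 - (starRingEnd ℂ) (ζ : ℂ)) +
                (starRingEnd ℂ) (ζ : ℂ) * ((1 - x : ℝ) : ℂ) := by
              unfold lf; push_cast; ring
            have hc2 : ‖(1 - (starRingEnd ℂ) (ζ : ℂ))‖ = ‖(ζ : ℂ) - 1‖ := by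
              rw [← Complex.norm_conj, map_sub, map_one, Complex.conj_conj, norm_sub_rev]
            have hc3 : ‖(starRingEnd ℂ) (ζ : ℂ) * ((1 - x : ℝ) : ℂ)‖ = 1 - x := by
              rw [norm_conj_mul, Complex.norm_real, Real.norm_eq_abs, abs_of_pos h1x]
            have hc4 := norm_sub_le (lf ζ (x : ℂ)) ((starRingEnd ℂ) (ζ : ℂ) * ((1 - x : ℝ) : ℂ))
            rw [hc3, hc1, add_sub_cancel_right, hc2, ← hc1] at hc4
            linarith
          linarith
        have h5 : Real.log (δ / 2) ≤ Real.log ‖lf ζ (x : ℂ)‖ :=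
          Real.log_le_log (by positivity) hge
        have h6 := neg_abs_le (Real.log (δ / 2))
        linarith
      refine le_trans ?_ h4
      rw [setIntegral_const, smul_eq_mul]
      have h7 : m.real Bᶜ ≤ 1 := measureReal_le_one
      have h8 : 0 ≤ M := abs_nonneg _
      nlinarith
    linarith
  have h9 : Real.exp (-2 * lg m (x : ℂ)) ≤ Real.exp (2 * M) * (1 - x) ^ (-c') := by
    rw [Real.rpow_def_of_pos h1x, ← Real.exp_add]
    apply Real.exp_le_exp.mpr
    nlinarith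
  calc x * Real.exp (-2 * lg m (x : ℂ)) ≤ x * (Real.exp (2 * M) * (1 - x) ^ (-c')) := by
        have := hx.1
        gcongr
    _ = _ := by ring

lemma normSq_lf (ζ : 𝕊) (x : ℝ) : ‖lf ζ (x : ℂ)‖ ^ 2 = 1 - 2 * x * (ζ : ℂ).re + x ^ 2 := by
  have h1 : (ζ : ℂ).re * (ζ : ℂ).re + (ζ : ℂ).im * (ζ : ℂ).im = 1 := by
    have := norm_coe ζ
    have h2 : ‖(ζ : ℂ)‖ ^ 2 = 1 := by rw [this]; norm_num
    rw [Complex.sq_norm, Complex.normSq_apply] at h2
    exact h2
  rw [Complex.sq_norm, Complex.normSq_apply]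
  simp only [lf, Complex.sub_re, Complex.sub_im, Complex.mul_re, Complex.mul_im, Complex.conj_re,
    Complex.conj_im, Complex.ofReal_re, Complex.ofReal_im, Complex.one_re, Complex.one_im]
  linear_combination x ^ 2 * h1

lemma mem_Ioo_mul {t x : ℝ} (ht : t ∈ Ioo (0 : ℝ) 1) (hx : x ∈ Ioo (0 : ℝ) 1) :
    t * x ∈ Ioo (0 : ℝ) 1 := by
  refine ⟨mul_pos ht.1 hx.1, ?_⟩
  calc t * x < 1 * 1 := by
        apply mul_lt_mul ht.2 hx.2.le hx.1 (by norm_num)
    _ = 1 := by norm_num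

/-- the increment of `log |F|` -/
noncomputable def gi (t x : ℝ) (ζ : 𝕊) : ℝ :=
  Real.log t + 2 * Real.log ‖lf ζ (x : ℂ)‖ - 2 * Real.log ‖lf ζ ((t * x : ℝ) : ℂ)‖

lemma gi_nonpos {t x : ℝ} (ht : t ∈ Ioo (0 : ℝ) 1) (hx : x ∈ Ioo (0 : ℝ) 1) (ζ : 𝕊) :
    gi t x ζ ≤ 0 := by
  have htx := mem_Ioo_mul ht hx
  have h1 : 0 < ‖lf ζ (x : ℂ)‖ := norm_pos_iff.mpr (lf_ne ζ (norm_real_lt hx))
  have h2 : 0 < ‖lf ζ ((t * x : ℝ) : ℂ)‖ := norm_pos_iff.mpr (lf_ne ζ (norm_real_lt htx))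
  have h3 : t * ‖lf ζ (x : ℂ)‖ ^ 2 ≤ ‖lf ζ ((t * x : ℝ) : ℂ)‖ ^ 2 := by
    rw [normSq_lf, normSq_lf]
    have h4 : 0 ≤ (1 - t) * (1 - t * x ^ 2) := by
      apply mul_nonneg (by linarith [ht.2])
      have : t * x ^ 2 ≤ 1 * 1 := by
        apply mul_le_mul ht.2.le _ (by positivity) (by norm_num)
        have := hx.1
        have := hx.2
        nlinarith
      linarith
    nlinarith
  have h5 := Real.log_le_log (by have := ht.1; positivity) h3
  rw [Real.log_mul ht.1.ne' (by positivity), Real.log_pow, Real.log_pow] at h5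
  unfold gi
  have h22 : ((2 : ℕ) : ℝ) = 2 := by norm_num
  rw [h22] at h5
  linarith

lemma gi_continuous {t x : ℝ} (ht : t ∈ Ioo (0 : ℝ) 1) (hx : x ∈ Ioo (0 : ℝ) 1) :
    Continuous (gi t x) := by
  unfold gi
  exact ((continuous_const.add ((continuous_logn_lf (norm_real_lt hx)).const_mul 2))).sub
    ((continuous_logn_lf (norm_real_lt (mem_Ioo_mul ht hx))).const_mul 2)

lemma norm_starF_mul {t x : ℝ} (ht : t ∈ Ioo (0 : ℝ) 1) (hx : x ∈ Ioo (0 : ℝ) 1) :
    ‖starF m ((t * x : ℝ) : ℂ)‖ = ‖starF m (x : ℂ)‖ * Real.exp (∫ ζ, gi t x ζ ∂m) := by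
  have htx := mem_Ioo_mul ht hx
  have hi1 : Integrable (fun ζ : 𝕊 => Real.log ‖lf ζ (x : ℂ)‖) m :=
    integrable_of_cont (continuous_logn_lf (norm_real_lt hx))
  have hi2 : Integrable (fun ζ : 𝕊 => Real.log ‖lf ζ ((t * x : ℝ) : ℂ)‖) m :=
    integrable_of_cont (continuous_logn_lf (norm_real_lt htx))
  have h1 : ∫ ζ, gi t x ζ ∂m = Real.log t + 2 * lg m (x : ℂ) - 2 * lg m ((t * x : ℝ) : ℂ) := by
    have e1' : ∫ ζ, gi t x ζ ∂m = ∫ ζ, (Real.log t + 2 * Real.log ‖lf ζ (x : ℂ)‖) ∂m -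
        ∫ ζ, 2 * Real.log ‖lf ζ ((t * x : ℝ) : ℂ)‖ ∂m :=
      integral_sub ((integrable_const _).add (hi1.const_mul 2)) (hi2.const_mul 2)
    have e2' : ∫ ζ, (Real.log t + 2 * Real.log ‖lf ζ (x : ℂ)‖) ∂m =
        ∫ _ζ : 𝕊, Real.log t ∂m + ∫ ζ, 2 * Real.log ‖lf ζ (x : ℂ)‖ ∂m :=
      integral_add (integrable_const _) (hi1.const_mul 2)
    rw [e1', e2', integral_const_mul, integral_const_mul]
    simp [lg]
  rw [h1, norm_starF (norm_real_lt hx), norm_starF (norm_real_lt htx), norm_real_eq hx,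
    norm_real_eq htx, mul_assoc x, ← Real.exp_add]
  rw [show -2 * lg m (x : ℂ) + (Real.log t + 2 * lg m (x : ℂ) - 2 * lg m ((t * x : ℝ) : ℂ)) =
    Real.log t + -2 * lg m ((t * x : ℝ) : ℂ) by ring, Real.exp_add, Real.exp_log ht.1]
  ring

/-- the modulus increases along the radius -/
lemma starF_mono {t x : ℝ} (ht : t ∈ Ioo (0 : ℝ) 1) (hx : x ∈ Ioo (0 : ℝ) 1) :
    ‖starF m ((t * x : ℝ) : ℂ)‖ ≤ ‖starF m (x : ℂ)‖ := by
  rw [norm_starF_mul ht hx]
  have : ∫ ζ, gi t x ζ ∂m ≤ 0 := integral_nonpos (fun ζ => gi_nonpos ht hx ζ)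
  have h2 : Real.exp (∫ ζ, gi t x ζ ∂m) ≤ 1 := Real.exp_le_one_iff.mpr this
  exact mul_le_of_le_one_right (norm_nonneg _) h2

/-- the increments are at least the measure of the ball -/
lemma starF_incr {t x : ℝ} (ht : t ∈ Ioo (0 : ℝ) 1) (hx : x ∈ Ioo (0 : ℝ) 1)
    (ht4 : t ≤ 1 - 4 * (1 - x)) :
    ‖starF m ((t * x : ℝ) : ℂ)‖ ≤
      ‖starF m (x : ℂ)‖ * (1 - 3 / 4 * m.real (closedBall e1 (1 - x))) := by
  have htx := mem_Ioo_mul ht hx
  have h1x : 0 < 1 - x := by linarith [hx.2]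
  set B : Set 𝕊 := closedBall e1 (1 - x) with hB
  have hBm : MeasurableSet B := measurableSet_closedBall
  have hgi : Integrable (gi t x) m := integrable_of_cont (gi_continuous ht hx)
  have h1 : ∫ ζ, gi t x ζ ∂m ≤ m.real B * (-Real.log 4) := by
    rw [← integral_add_compl hBm hgi]
    have h2 : ∫ ζ in Bᶜ, gi t x ζ ∂m ≤ 0 :=
      setIntegral_nonpos hBm.compl (fun ζ _ => gi_nonpos ht hx ζ)
    have h3 : ∫ ζ in B, gi t x ζ ∂m ≤ ∫ ζ in B, -Real.log 4 ∂m := by
      refine setIntegral_mono_on hgi.integrableOn (integrable_const _) hBm (fun ζ hζ => ?_)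
      have hd : ‖(ζ : ℂ) - 1‖ ≤ 1 - x := by
        have : dist ζ e1 ≤ 1 - x := hζ
        rw [Subtype.dist_eq, dist_eq_norm] at this
        exact this
      have hup : ‖lf ζ (x : ℂ)‖ ≤ 2 * (1 - x) := by
        have hc1 : lf ζ (x : ℂ) = (1 - (starRingEnd ℂ) (ζ : ℂ)) +
            (starRingEnd ℂ) (ζ : ℂ) * ((1 - x : ℝ) : ℂ) := by
          unfold lf; push_cast; ring
        have hc2 : ‖(1 - (starRingEnd ℂ) (ζ : ℂ))‖ = ‖(ζ : ℂ) - 1‖ := by
          rw [← Complex.norm_conj, map_sub, map_one, Complex.conj_conj, norm_sub_rev]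
        have hc3 : ‖(starRingEnd ℂ) (ζ : ℂ) * ((1 - x : ℝ) : ℂ)‖ = 1 - x := by
          rw [norm_conj_mul, Complex.norm_real, Real.norm_eq_abs, abs_of_pos h1x]
        rw [hc1]
        refine (norm_add_le _ _).trans ?_
        rw [hc2, hc3]; linarith
      have hlo : 4 * (1 - x) ≤ ‖lf ζ ((t * x : ℝ) : ℂ)‖ := by
        have := norm_lf_ge ζ ((t * x : ℝ) : ℂ)
        rw [norm_real_eq htx] at this
        have h5 : t * x ≤ t := by nlinarith [ht.1, hx.2]
        linarith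
      have hpos : 0 < ‖lf ζ (x : ℂ)‖ := norm_pos_iff.mpr (lf_ne ζ (norm_real_lt hx))
      have h6 := Real.log_le_log hpos hup
      have h7 := Real.log_le_log (by positivity) hlo
      have h8 : Real.log t ≤ 0 := Real.log_nonpos ht.1.le ht.2.le
      rw [Real.log_mul (by norm_num) h1x.ne'] at h6
      rw [Real.log_mul (by norm_num) h1x.ne'] at h7
      have h9 : Real.log 4 = 2 * Real.log 2 := by
        rw [show (4 : ℝ) = 2 ^ 2 by norm_num, Real.log_pow]; push_cast; ring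
      unfold gi
      linarith
    rw [setIntegral_const, smul_eq_mul] at h3
    linarith
  have hs0 : 0 ≤ m.real B := measureReal_nonneg
  have hs1 : m.real B ≤ 1 := measureReal_le_one
  have h10 : Real.exp (m.real B * (-Real.log 4)) ≤ 1 - 3 / 4 * m.real B := by
    have hconv := convexOn_exp.2 (mem_univ (0 : ℝ)) (mem_univ (-Real.log 4))
      (by linarith : 0 ≤ 1 - m.real B) hs0 (by ring)
    simp only [smul_eq_mul, mul_zero, zero_add, Real.exp_zero, mul_one] at hconv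
    have h11 : Real.exp (-Real.log 4) = 1 / 4 := by
      rw [Real.exp_neg, Real.exp_log (by norm_num)]; norm_num
    rw [h11] at hconv
    linarith
  rw [norm_starF_mul ht hx]
  have h12 := (Real.exp_le_exp.mpr h1).trans h10
  gcongr

/-- the real part in terms of the argument -/
lemma re_starF {x : ℝ} (hx : x ∈ Ioo (0 : ℝ) 1) (α : ℝ) :
    (Complex.exp (-(α * I)) * starF m (x : ℂ)).re =
      ‖starF m (x : ℂ)‖ * Real.cos (th m (x : ℂ) - α) := by
  have hz := norm_real_lt hx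
  have h1 : Complex.exp (-(α * I)) * starF m (x : ℂ) =
      ((‖starF m (x : ℂ)‖ : ℝ) : ℂ) * Complex.exp (((th m (x : ℂ) - α : ℝ) : ℂ) * I) := by
    rw [norm_starF hz, norm_real_eq hx, starF_eq hz]
    push_cast
    rw [show ((th m (x : ℂ) : ℂ) - α) * I = -(α * I) + th m (x : ℂ) * I by ring, Complex.exp_add]
    ring
  rw [h1, Complex.re_ofReal_mul, Complex.exp_ofReal_mul_I_re]

/-- convergence of the argument -/
lemma th_tendsto : ∃ α : ℝ, Tendsto (fun x : ℝ => th m (x : ℂ)) (𝓝[<] 1) (𝓝 α) := by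
  refine ⟨-2 * ∫ ζ, (lf ζ ((1 : ℝ) : ℂ)).arg ∂m, ?_⟩
  unfold th
  refine Tendsto.const_mul _ ?_
  refine tendsto_integral_filter_of_dominated_convergence (fun _ => Real.pi) ?_ ?_
    (integrable_const _) ?_
  · have h1 : ∀ᶠ x : ℝ in 𝓝[<] 1, x ∈ Ioo (0 : ℝ) 1 := Ioo_mem_nhdsLT (by norm_num)
    filter_upwards [h1] with x hx
    exact (continuous_arg_lf (norm_real_lt hx)).aestronglyMeasurable
  · filter_upwards with x
    filter_upwards with ζ
    rw [Real.norm_eq_abs]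
    exact Complex.abs_arg_le_pi _
  · filter_upwards with ζ
    by_cases hζ : ζ = e1
    · subst hζ
      have h1 : ∀ᶠ x : ℝ in 𝓝[<] 1, (lf e1 (x : ℂ)).arg = (lf e1 ((1 : ℝ) : ℂ)).arg := by
        filter_upwards [self_mem_nhdsWithin] with x hx
        rw [lf_e1, lf_e1, Complex.arg_ofReal_of_nonneg (by simp; exact le_of_lt hx),
          Complex.arg_ofReal_of_nonneg (by simp)]
      exact (tendsto_congr' h1).mpr tendsto_const_nhds
    · have hre : 0 < (lf ζ ((1 : ℝ) : ℂ)).re := by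
        have h1 : (lf ζ ((1 : ℝ) : ℂ)).re = 1 - (ζ : ℂ).re := by simp [lf]
        rw [h1]
        have h2 : (ζ : ℂ).re ≤ 1 := by
          have := Complex.re_le_norm (ζ : ℂ)
          rwa [norm_coe] at this
        rcases h2.lt_or_eq with h | h
        · linarith
        · exfalso
          apply hζ
          have h3 : (ζ : ℂ).re * (ζ : ℂ).re + (ζ : ℂ).im * (ζ : ℂ).im = 1 := by
            have h4 : ‖(ζ : ℂ)‖ ^ 2 = 1 := by rw [norm_coe]; norm_num
            rw [Complex.sq_norm, Complex.normSq_apply] at h4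
            exact h4
          rw [h] at h3
          have h5 : (ζ : ℂ).im = 0 := by nlinarith
          apply Subtype.ext
          apply Complex.ext
          · rw [h]; simp [e1]
          · rw [h5]; simp [e1]
      have hc : ContinuousAt (fun x : ℝ => (lf ζ (x : ℂ)).arg) 1 := by
        refine ContinuousAt.comp (f := fun x : ℝ => lf ζ (x : ℂ))
          (Complex.continuousAt_arg (Or.inl hre)) ?_
        unfold lf
        fun_prop
      exact hc.tendsto.mono_left nhdsWithin_le_nhds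

/-- half plane near the end of the radius -/
lemma exists_half : ∃ (ω : ℂ) (x0 : ℝ), ‖ω‖ = 1 ∧ 0 < x0 ∧ x0 < 1 ∧ ∀ x ∈ Ioo (0 : ℝ) 1, x0 ≤ x →
    ‖starF m (x : ℂ)‖ / 2 ≤ (ω * starF m (x : ℂ)).re := by
  obtain ⟨α, hα⟩ := th_tendsto (m := m)
  have h1 : Tendsto (fun x : ℝ => Real.cos (th m (x : ℂ) - α)) (𝓝[<] 1) (𝓝 (Real.cos 0)) := by
    refine (Real.continuous_cos.tendsto 0).comp ?_
    have := hα.sub_const α
    rwa [sub_self] at this
  rw [Real.cos_zero] at h1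
  have h2 := h1.eventually (lt_mem_nhds (by norm_num : (1 / 2 : ℝ) < 1))
  rw [eventually_iff, mem_nhdsLT_iff_exists_Ioo_subset] at h2
  obtain ⟨l, hl, hsub⟩ := h2
  refine ⟨Complex.exp (-(α * I)), (max l 0 + 1) / 2, ?_, ?_, ?_, ?_⟩
  · rw [Complex.norm_exp]; simp
  · have := le_max_right l 0
    linarith
  · have : max l 0 < 1 := max_lt hl (by norm_num)
    linarith
  · intro x hx hx0
    have hmem : x ∈ Ioo l 1 := by
      refine ⟨?_, hx.2⟩
      have h3 := le_max_left l 0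
      have h4 : max l 0 < 1 := max_lt hl (by norm_num)
      linarith
    have h5 : (1 / 2 : ℝ) < Real.cos (th m (x : ℂ) - α) := hsub hmem
    rw [re_starF hx]
    have := norm_nonneg (starF m (x : ℂ))
    nlinarith

/-- if the atom at `1` has mass more than `1/2` then `F` has positive real part -/
lemma re_starF_ge (hm : 1 / 2 < m.real {e1}) {x : ℝ} (hx : x ∈ Ioo (0 : ℝ) 1) :
    ‖starF m (x : ℂ)‖ * Real.cos (Real.pi * (1 - m.real {e1})) ≤ (starF m (x : ℂ)).re := by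
  have hz := norm_real_lt hx
  have hre := re_starF (m := m) hx 0
  simp only [Complex.ofReal_zero, zero_mul, neg_zero, Complex.exp_zero, one_mul, sub_zero] at hre
  rw [hre]
  have hint : Integrable (fun ζ : 𝕊 => (lf ζ (x : ℂ)).arg) m :=
    integrable_of_cont (continuous_arg_lf hz)
  have h1x : 0 < 1 - x := by linarith [hx.2]
  have hm1 : m.real {e1} ≤ 1 := measureReal_le_one
  have h1 : |∫ ζ, (lf ζ (x : ℂ)).arg ∂m| ≤ Real.pi / 2 * (1 - m.real {e1}) := by
    rw [integral_split hint, lf_e1, Complex.arg_ofReal_of_nonneg h1x.le, mul_zero, zero_add]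
    have h2 : ‖∫ ζ in ({e1} : Set 𝕊)ᶜ, (lf ζ (x : ℂ)).arg ∂m‖ ≤
        Real.pi / 2 * m.real ({e1} : Set 𝕊)ᶜ := by
      refine norm_setIntegral_le_of_norm_le_const (measure_lt_top _ _) (fun ζ _ => ?_)
      rw [Real.norm_eq_abs]
      exact (Complex.abs_arg_lt_pi_div_two_iff.mpr (Or.inl (lf_re_pos ζ hz))).le
    rw [Real.norm_eq_abs] at h2
    refine h2.trans (le_of_eq ?_)
    rw [probReal_compl_eq_one_sub (measurableSet_singleton e1)]
  have h3 : |th m (x : ℂ)| ≤ Real.pi * (1 - m.real {e1}) := by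
    unfold th
    rw [abs_mul]
    have : |(-2 : ℝ)| = 2 := by norm_num
    rw [this]; linarith
  have h4 : Real.cos (Real.pi * (1 - m.real {e1})) ≤ Real.cos (th m (x : ℂ)) := by
    rw [← Real.cos_abs (th m (x : ℂ))]
    apply Real.cos_le_cos_of_nonneg_of_le_pi (abs_nonneg _) _ h3
    have := Real.pi_pos
    have h5 : 0 ≤ m.real {e1} := measureReal_nonneg
    nlinarith
  exact mul_le_mul_of_nonneg_left h4 (norm_nonneg _)

end Pool.Agent.StarN
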