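import Pool.Agent.StarN.Meas

/-!
Estimates for `starF m` on the radius `(0, 1)`, with constants depending only on the mass of
a small ball around `1`.
-/

namespace Pool.Agent.StarN

open Complex Metric Set Filter Topology MeasureTheory

variable {m : Measure 𝕊} [IsProbabilityMeasure m]

/-- distance to the rest of the circle -/
lemma norm_lf_far {δ : ℝ} {ζ : 𝕊} (hζ : ζ ∉ closedBall e1 δ) {x : ℝ} (hx0 : 0 < x) (hx1 : x < 1) :
    δ / 2 ≤ ‖lf ζ (x : ℂ)‖ := by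
  have hx : x ∈ Ioo (0 : ℝ) 1 := ⟨hx0, hx1⟩
  have h1x : 0 < 1 - x := by linarith
  have hd : δ < ‖(ζ : ℂ) - 1‖ := by
    have : δ < dist ζ e1 := by simpa using hζ
    rw [Subtype.dist_eq, dist_eq_norm] at this
    exact this
  have ha : 1 - x ≤ ‖lf ζ (x : ℂ)‖ := by
    have := norm_lf_ge ζ (x : ℂ)
    rwa [norm_real_eq hx] at this
  have hb : δ - (1 - x) ≤ ‖lf ζ (x : ℂ)‖ := by
    have hc1 : lf ζ (x : ℂ) = (1 - (starRingEnd ℂ) (ζ : ℂ)) +
        (starRingEnd ℂ) (ζ : ℂ) * ((1 - x : ℝ) : ℂ) := by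
      unfold lf; push_cast; ring
    have hc2 : ‖(1 - (starRingEnd ℂ) (ζ : ℂ))‖ = ‖(ζ : ℂ) - 1‖ := by
      rw [← Complex.norm_conj, map_sub, map_one, Complex.conj_conj, norm_sub_rev]
    have hc3 : ‖(starRingEnd ℂ) (ζ : ℂ) * ((1 - x : ℝ) : ℂ)‖ = 1 - x := by
      rw [norm_conj_mul, Complex.norm_real, Real.norm_eq_abs, abs_of_pos h1x]
    have hc4 := norm_sub_le (lf ζ (x : ℂ)) ((starRingEnd ℂ) (ζ : ℂ) * ((1 - x : ℝ) : ℂ))
    rw [hc3, hc1, add_sub_cancel_right, hc2, ← hc1] at hc4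
    linarith
  linarith

/-- upper bound with explicit constant -/
lemma starF_upper_delta {c' δ : ℝ} (hδ0 : 0 < δ) (hδ : 2 * m.real (closedBall e1 δ) < c') :
    ∀ x ∈ Ioo (0 : ℝ) 1,
      ‖starF m (x : ℂ)‖ ≤ Real.exp (2 * |Real.log (δ / 2)|) * x * (1 - x) ^ (-c') := by
  set B : Set 𝕊 := closedBall e1 δ with hB
  have hBm : MeasurableSet B := measurableSet_closedBall
  set M : ℝ := |Real.log (δ / 2)| with hM
  intro x hx
  have hz := norm_real_lt hx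
  have h1x : 0 < 1 - x := by linarith [hx.2]
  have h1x1 : 1 - x < 1 := by linarith [hx.1]
  have hlog : Real.log (1 - x) < 0 := Real.log_neg h1x h1x1
  rw [norm_starF hz, norm_real_eq hx]
  have hint : Integrable (fun ζ : 𝕊 => Real.log ‖lf ζ (x : ℂ)‖) m :=
    integrable_of_cont (continuous_logn_lf hz)
  have h1 : m.real B * Real.log (1 - x) - M ≤ lg m (x : ℂ) := by
    unfold lg
    rw [← integral_add_compl hBm hint]
    have h2 : m.real B * Real.log (1 - x) ≤ ∫ ζ in B, Real.log ‖lf ζ (x : ℂ)‖ ∂m := by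
      have : ∫ ζ in B, Real.log (1 - x) ∂m ≤ ∫ ζ in B, Real.log ‖lf ζ (x : ℂ)‖ ∂m := by
        refine setIntegral_mono (integrable_const _) hint.integrableOn (fun ζ => ?_)
        refine Real.log_le_log h1x ?_
        have := norm_lf_ge ζ (x : ℂ)
        rwa [norm_real_eq hx] at this
      rwa [setIntegral_const, smul_eq_mul] at this
    have h3 : -M ≤ ∫ ζ in Bᶜ, Real.log ‖lf ζ (x : ℂ)‖ ∂m := by
      have h4 : ∫ ζ in Bᶜ, -M ∂m ≤ ∫ ζ in Bᶜ, Real.log ‖lf ζ (x : ℂ)‖ ∂m := by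
        refine setIntegral_mono_on (integrable_const _) hint.integrableOn hBm.compl
          (fun ζ hζ => ?_)
        have hge : δ / 2 ≤ ‖lf ζ (x : ℂ)‖ := norm_lf_far hζ hx.1 hx.2
        have h5 : Real.log (δ / 2) ≤ Real.log ‖lf ζ (x : ℂ)‖ :=
          Real.log_le_log (by positivity) hge
        have h6 := neg_abs_le (Real.log (δ / 2))
        linarith
      refine le_trans ?_ h4
      rw [setIntegral_const, smul_eq_mul]
      have h7 : m.real Bᶜ ≤ 1 := measureReal_le_one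
      have h8 : 0 ≤ M := abs_nonneg _
      nlinarith
    linarith
  have h9 : Real.exp (-2 * lg m (x : ℂ)) ≤ Real.exp (2 * M) * (1 - x) ^ (-c') := by
    rw [Real.rpow_def_of_pos h1x, ← Real.exp_add]
    apply Real.exp_le_exp.mpr
    nlinarith
  calc x * Real.exp (-2 * lg m (x : ℂ)) ≤ x * (Real.exp (2 * M) * (1 - x) ^ (-c')) := by
        have := hx.1
        gcongr
    _ = _ := by ring

/-- the argument of a linear form moves slowly -/
lemma arg_far {δ : ℝ} (hδ0 : 0 < δ) {ζ : 𝕊} (hζ : ζ ∉ closedBall e1 δ) {x y : ℝ}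
    (hx0 : 0 < x) (hxy : x ≤ y) (hy1 : y < 1) :
    |(lf ζ (y : ℂ)).arg - (lf ζ (x : ℂ)).arg| ≤ 2 / δ * (y - x) := by
  have hder : ∀ s ∈ Icc x y, HasDerivWithinAt (fun s : ℝ => Complex.log (lf ζ (s : ℂ)))
      (-(starRingEnd ℂ) (ζ : ℂ) / lf ζ (s : ℂ)) (Icc x y) s := by
    intro s hs
    have hsI : s ∈ Ioo (0 : ℝ) 1 := ⟨by linarith [hs.1], by linarith [hs.2]⟩
    have h1 : HasDerivAt (fun z : ℂ => lf ζ z) (-(starRingEnd ℂ) (ζ : ℂ)) (s : ℂ) := by
      unfold lf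
      have := ((hasDerivAt_id (s : ℂ)).const_mul ((starRingEnd ℂ) (ζ : ℂ))).const_sub 1
      simpa using this
    exact ((h1.clog (lf_slit ζ (norm_real_lt hsI))).comp_ofReal).hasDerivWithinAt
  have hbd : ∀ s ∈ Icc x y, ‖-(starRingEnd ℂ) (ζ : ℂ) / lf ζ (s : ℂ)‖ ≤ 2 / δ := by
    intro s hs
    rw [norm_div, norm_neg, Complex.norm_conj, norm_coe]
    have h2 := norm_lf_far hζ (x := s) (by linarith [hs.1]) (by linarith [hs.2])
    calc 1 / ‖lf ζ (s : ℂ)‖ ≤ 1 / (δ / 2) := one_div_le_one_div_of_le (by positivity) h2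
      _ = 2 / δ := by field_simp
  have h3 := (convex_Icc x y).norm_image_sub_le_of_norm_hasDerivWithin_le hder hbd
    (left_mem_Icc.mpr hxy) (right_mem_Icc.mpr hxy)
  have h4 := Complex.abs_im_le_norm (Complex.log (lf ζ (y : ℂ)) - Complex.log (lf ζ (x : ℂ)))
  rw [Complex.sub_im, Complex.log_im, Complex.log_im] at h4
  rw [Real.norm_eq_abs, abs_of_nonneg (by linarith : 0 ≤ y - x)] at h3
  exact h4.trans h3

/-- half plane near the end of the radius, uniform version -/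
lemma exists_half_delta {δ : ℝ} (hδ0 : 0 < δ) (hδ1 : δ ≤ 1)
    (hδ : m.real (closedBall e1 δ) ≤ 1 / 100) :
    ∃ ω : ℂ, ‖ω‖ = 1 ∧ ∀ x ∈ Ioo (0 : ℝ) 1, 1 - δ / 8 ≤ x →
    ‖starF m (x : ℂ)‖ / 2 ≤ (ω * starF m (x : ℂ)).re := by
  set x0 : ℝ := 1 - δ / 8 with hx0
  have hx00 : 0 < x0 := by rw [hx0]; linarith
  have hx01 : x0 < 1 := by rw [hx0]; linarith
  have hx0I : x0 ∈ Ioo (0 : ℝ) 1 := ⟨hx00, hx01⟩
  refine ⟨Complex.exp (-((th m (x0 : ℂ) : ℝ) * I)), ?_, ?_⟩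
  · rw [Complex.norm_exp]; simp
  intro x hx hxx0
  rw [re_starF hx]
  set B : Set 𝕊 := closedBall e1 δ with hB
  have hBm : MeasurableSet B := measurableSet_closedBall
  have hi1 : Integrable (fun ζ : 𝕊 => (lf ζ (x : ℂ)).arg) m :=
    integrable_of_cont (continuous_arg_lf (norm_real_lt hx))
  have hi2 : Integrable (fun ζ : 𝕊 => (lf ζ (x0 : ℂ)).arg) m :=
    integrable_of_cont (continuous_arg_lf (norm_real_lt hx0I))
  have hdiff : th m (x : ℂ) - th m (x0 : ℂ) =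
      -2 * ∫ ζ, ((lf ζ (x : ℂ)).arg - (lf ζ (x0 : ℂ)).arg) ∂m := by
    unfold th
    rw [integral_sub hi1 hi2]; ring
  have hpi := Real.pi_pos
  have hpi4 : Real.pi < 3.15 := Real.pi_lt_d2
  have hpi3 : 3.14 < Real.pi := Real.pi_gt_d2
  have hbound : |∫ ζ, ((lf ζ (x : ℂ)).arg - (lf ζ (x0 : ℂ)).arg) ∂m| ≤ Real.pi / 100 + 1 / 4 := by
    have hi3 : Integrable (fun ζ : 𝕊 => (lf ζ (x : ℂ)).arg - (lf ζ (x0 : ℂ)).arg) m := hi1.sub hi2
    rw [← integral_add_compl hBm hi3]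
    have h1 : ‖∫ ζ in B, ((lf ζ (x : ℂ)).arg - (lf ζ (x0 : ℂ)).arg) ∂m‖ ≤ Real.pi * m.real B := by
      refine norm_setIntegral_le_of_norm_le_const (measure_lt_top _ _) (fun ζ _ => ?_)
      rw [Real.norm_eq_abs]
      have e1 : |(lf ζ (x : ℂ)).arg| ≤ Real.pi / 2 :=
        (Complex.abs_arg_lt_pi_div_two_iff.mpr (Or.inl (lf_re_pos ζ (norm_real_lt hx)))).le
      have e2 : |(lf ζ (x0 : ℂ)).arg| ≤ Real.pi / 2 :=
        (Complex.abs_arg_lt_pi_div_two_iff.mpr (Or.inl (lf_re_pos ζ (norm_real_lt hx0I)))).le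
      have e3 := abs_sub (lf ζ (x : ℂ)).arg (lf ζ (x0 : ℂ)).arg
      linarith
    have h2 : ‖∫ ζ in Bᶜ, ((lf ζ (x : ℂ)).arg - (lf ζ (x0 : ℂ)).arg) ∂m‖ ≤
        1 / 4 * m.real Bᶜ := by
      refine norm_setIntegral_le_of_norm_le_const (measure_lt_top _ _) (fun ζ hζ => ?_)
      rw [Real.norm_eq_abs]
      refine (arg_far hδ0 hζ hx00 hxx0 hx.2).trans ?_
      have e1 : x - x0 ≤ δ / 8 := by rw [hx0]; linarith [hx.2]
      calc 2 / δ * (x - x0) ≤ 2 / δ * (δ / 8) := by gcongr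
        _ = 1 / 4 := by field_simp; norm_num
    rw [Real.norm_eq_abs] at h1 h2
    have h3 : m.real Bᶜ ≤ 1 := measureReal_le_one
    refine (abs_add_le _ _).trans ?_
    nlinarith
  have hth : |th m (x : ℂ) - th m (x0 : ℂ)| ≤ Real.pi / 3 := by
    rw [hdiff, abs_mul]
    have : |(-2 : ℝ)| = 2 := by norm_num
    rw [this]
    linarith
  have hcos : 1 / 2 ≤ Real.cos (th m (x : ℂ) - th m (x0 : ℂ)) := by
    rw [← Real.cos_pi_div_three, ← Real.cos_abs (th m (x : ℂ) - th m (x0 : ℂ))]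
    exact Real.cos_le_cos_of_nonneg_of_le_pi (abs_nonneg _) (by linarith) hth
  have := norm_nonneg (starF m (x : ℂ))
  nlinarith

end Pool.Agent.StarN
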