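import Pool.Agent.StarN.DiscOneB
import Pool.Agent.StarN.DiscTwo

/-!
No atom of mass strictly between `1/2` and `1`.
-/

namespace Pool.Agent.StarN

open Complex Metric Set Filter Topology MeasureTheory intervalIntegral Interval

variable {m : Measure 𝕊} [IsProbabilityMeasure m] {F : ℂ → ℂ}

lemma F_bd (hF : ∀ z ∈ ball (0 : ℂ) 1, F z = starF m z) {r : ℝ} (hr : r ∈ Ioo (0 : ℝ) 1) :
    ∃ C : ℝ, 0 < C ∧ ∀ t ∈ Ioo (0 : ℝ) 1,
      ‖F ((t * r : ℝ) : ℂ)‖ ≤ C * t ^ 1 * (1 - t) ^ (-(0 : ℝ)) := by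
  obtain ⟨C, hC0, hC⟩ := starF_upper (m := m) (c' := 2 * m.real {e1} + 1) (by linarith)
  set c' : ℝ := 2 * m.real {e1} + 1 with hc'
  have hc0 : 0 ≤ c' := by positivity
  have h1r : 0 < 1 - r := by linarith [hr.2]
  refine ⟨C * (1 - r) ^ (-c'), by positivity, fun t ht => ?_⟩
  have htr : t * r ∈ Ioo (0 : ℝ) 1 := mem_Ioo_mul ht hr
  rw [hF _ (by rw [mem_ball_zero_iff]; exact norm_real_lt htr), pow_one, neg_zero, Real.rpow_zero,
    mul_one]
  refine (hC _ htr).trans ?_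
  have e1 : (1 - t * r) ^ (-c') ≤ (1 - r) ^ (-c') := by
    refine Real.rpow_le_rpow_of_nonpos h1r ?_ (by linarith)
    nlinarith [ht.1, ht.2, hr.1]
  have e2 : t * r ≤ t := by nlinarith [ht.1, hr.2]
  have p1 : 0 ≤ (1 - t * r) ^ (-c') := Real.rpow_nonneg (by linarith [htr.2]) _
  have p3 := ht.1
  calc C * (t * r) * (1 - t * r) ^ (-c') ≤ C * t * (1 - r) ^ (-c') := by gcongr
    _ = C * (1 - r) ^ (-c') * t := by ring

lemma no_mid (hN : PropN F) (h0 : F 0 = 0) (h1 : deriv F 0 = 1)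
    (hd : DifferentiableOn ℂ F (ball 0 1)) (hF : ∀ z ∈ ball (0 : ℂ) 1, F z = starF m z)
    (hc1 : 1 < 2 * m.real {e1}) (hc2 : 2 * m.real {e1} < 2) : False := by
  have hb := hN.tc_le h0 h1
  set c : ℝ := 2 * m.real {e1} with hc
  set μ : ℝ := (1 - c) / 2 with hμ
  have hμ1 : -1 / 2 < μ := by rw [hμ]; linarith
  have hμ0 : μ < 0 := by rw [hμ]; linarith
  set ε : ℝ := (c - 1) / 4 with hε
  have hε0 : 0 < ε := by rw [hε]; linarith
  obtain ⟨r1, hr1, hup⟩ := disc_neg_one hN h0 h1 hd hF hc2 (μ := (μ : ℂ)) (by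
    have : (μ : ℂ) - (-1) = ((μ + 1 : ℝ) : ℂ) := by push_cast; ring
    rw [this, Complex.norm_real, Real.norm_eq_abs, abs_lt]
    constructor <;> linarith) hε0
  set γ : ℝ := Real.cos (Real.pi * (1 - m.real {e1})) with hγ
  have hγ0 : 0 < γ := by
    apply Real.cos_pos_of_mem_Ioo
    have := Real.pi_pos
    constructor <;> nlinarith
  have hκ : 0 < ‖κ (μ : ℂ)‖ := norm_pos_iff.mpr (κ_pos (by linarith) (by linarith))
  set K1 : ℝ := ‖κ (μ : ℂ)‖ * (γ * (1 / 16) * 3 ^ (-c)) with hK1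
  have hK10 : 0 < K1 := by positivity
  -- the key inequality
  have key : ∀ h : ℝ, 0 < h → h ≤ 1 / 4 → h ≤ 1 - r1 → K1 ≤ h ^ ε := by
    intro h hh0 hh4 hhr
    set r : ℝ := 1 - h with hr
    have hrI : r ∈ Ioo (0 : ℝ) 1 := ⟨by linarith, by linarith⟩
    have h1r : 1 - r = h := by rw [hr]; ring
    have hG := hup r (by linarith) hrI.2
    rw [h1r, Gs_int hb hd (by simp; linarith) (by simp; linarith) hrI, norm_mul] at hG
    obtain ⟨C, hC0, hC⟩ := F_bd hF hrI
    have hAint : IntervalIntegrable (fun t : ℝ => W (μ : ℂ) t * F ((t * r : ℝ) : ℂ)) volume 0 1 :=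
      W_integrable (N := 1) (c' := 0) (C := C) (by simp; linarith) (by simp; linarith)
        ((cont_F hd hrI).mono Ioo_subset_Icc_self) hC
    obtain ⟨hI1, hI2⟩ := re_int 1 hAint
    have hnorm : (1 * ∫ t in (0 : ℝ)..1, W (μ : ℂ) t * F ((t * r : ℝ) : ℂ)).re ≤
        ‖∫ t in (0 : ℝ)..1, W (μ : ℂ) t * F ((t * r : ℝ) : ℂ)‖ := by
      rw [one_mul]
      exact Complex.re_le_norm _
    rw [hI1] at hnorm
    have hpt : ∀ t ∈ Ioo (0 : ℝ) 1, γ * (t * r / 4 * (1 - t * r) ^ (-c)) ≤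
        (1 * F ((t * r : ℝ) : ℂ)).re := by
      intro t ht
      have htr : t * r ∈ Ioo (0 : ℝ) 1 := mem_Ioo_mul ht hrI
      rw [one_mul, hF _ (by rw [mem_ball_zero_iff]; exact norm_real_lt htr)]
      refine le_trans ?_ (re_starF_ge (by linarith) htr)
      have := starF_lower (m := m) htr
      rw [mul_comm γ]
      gcongr
    have hnn : ∀ t ∈ Ioo (0 : ℝ) 1,
        0 ≤ t ^ (μ - 1) * (1 - t) ^ (-μ) * (1 * F ((t * r : ℝ) : ℂ)).re := by
      intro t ht
      have htr : t * r ∈ Ioo (0 : ℝ) 1 := mem_Ioo_mul ht hrI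
      have h1t : 0 < 1 - t := by linarith [ht.2]
      have h1tr : 0 < 1 - t * r := by linarith [htr.2]
      have e := hpt t ht
      have e1 : 0 ≤ γ * (t * r / 4 * (1 - t * r) ^ (-c)) := by
        have := htr.1
        positivity
      have e2 := ht.1
      exact mul_nonneg (by positivity) (e1.trans e)
    have hmono : ∫ t in (1 - 2 * h)..(1 - h),
        t ^ (μ - 1) * (1 - t) ^ (-μ) * (1 * F ((t * r : ℝ) : ℂ)).re ≤
        ∫ t in (0 : ℝ)..1, t ^ (μ - 1) * (1 - t) ^ (-μ) * (1 * F ((t * r : ℝ) : ℂ)).re := by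
      refine intervalIntegral.integral_mono_interval (by linarith) (by linarith) (by linarith) ?_
        hI2
      rw [Filter.EventuallyLE, ae_restrict_iff' measurableSet_Ioc]
      filter_upwards [ae_mem_Ioo] with t ht h
      exact hnn t (ht h)
    have hlow : ∫ t in (1 - 2 * h)..(1 - h), h ^ (-μ) * (γ * (1 / 16 * (3 * h) ^ (-c))) ≤
        ∫ t in (1 - 2 * h)..(1 - h),
          t ^ (μ - 1) * (1 - t) ^ (-μ) * (1 * F ((t * r : ℝ) : ℂ)).re := by
      refine intervalIntegral.integral_mono_on (by linarith) intervalIntegrable_const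
        (hI2.mono_set ?_) (fun t ht => ?_)
      · rw [uIcc_of_le (by linarith), uIcc_of_le zero_le_one]
        exact Icc_subset_Icc (by linarith) (by linarith)
      · have htI : t ∈ Ioo (0 : ℝ) 1 := ⟨by linarith [ht.1], by linarith [ht.2]⟩
        have htr : t * r ∈ Ioo (0 : ℝ) 1 := mem_Ioo_mul htI hrI
        have h1t : 0 < 1 - t := by linarith [htI.2]
        have e1 : 1 ≤ t ^ (μ - 1) :=
          Real.one_le_rpow_of_pos_of_le_one_of_nonpos htI.1 htI.2.le (by linarith)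
        have e2 : h ^ (-μ) ≤ (1 - t) ^ (-μ) :=
          Real.rpow_le_rpow hh0.le (by linarith [ht.2]) (by linarith)
        have e3 : (3 * h) ^ (-c) ≤ (1 - t * r) ^ (-c) := by
          refine Real.rpow_le_rpow_of_nonpos (by linarith [htr.2]) ?_ (by linarith)
          nlinarith [ht.1, ht.2, hrI.1, hrI.2]
        have e4 : 1 / 16 ≤ t * r / 4 := by
          have : (1 / 2 : ℝ) * (1 / 2) ≤ t * r := by
            apply mul_le_mul <;> linarith [ht.1]
          linarith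
        have e5 := hpt t htI
        have p1 : 0 ≤ (3 * h) ^ (-c) := by positivity
        have p2 : 0 ≤ h ^ (-μ) := by positivity
        calc h ^ (-μ) * (γ * (1 / 16 * (3 * h) ^ (-c)))
            = 1 * h ^ (-μ) * (γ * (1 / 16 * (3 * h) ^ (-c))) := by ring
          _ ≤ t ^ (μ - 1) * (1 - t) ^ (-μ) * (γ * (t * r / 4 * (1 - t * r) ^ (-c))) := by
            gcongr
          _ ≤ _ := by
            have : 0 ≤ t ^ (μ - 1) * (1 - t) ^ (-μ) := by
              have := htI.1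
              positivity
            gcongr
    rw [intervalIntegral.integral_const, smul_eq_mul] at hlow
    have h2 : ‖κ (μ : ℂ)‖ * ((1 - h - (1 - 2 * h)) * (h ^ (-μ) * (γ * (1 / 16 * (3 * h) ^ (-c)))))
        ≤ h ^ (-ε) := by
      refine le_trans ?_ hG
      gcongr
      linarith
    have h3 : ‖κ (μ : ℂ)‖ * ((1 - h - (1 - 2 * h)) * (h ^ (-μ) * (γ * (1 / 16 * (3 * h) ^ (-c)))))
        = K1 * h ^ (1 - μ - c) := by
      rw [Real.mul_rpow (by norm_num) hh0.le, show 1 - μ - c = 1 + (-μ) + (-c) by ring,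
        Real.rpow_add hh0, Real.rpow_add hh0, Real.rpow_one, hK1]
      ring
    rw [h3] at h2
    have h4 : h ^ (-ε) = h ^ (1 - μ - c) * h ^ ε := by
      rw [← Real.rpow_add hh0]; congr 1; rw [hε, hμ]; ring
    rw [h4, mul_comm] at h2
    exact le_of_mul_le_mul_left h2 (by positivity)
  -- contradiction
  have hlim : Tendsto (fun h : ℝ => h ^ ε) (𝓝[>] 0) (𝓝 0) := by
    have h5 : ContinuousAt (fun h : ℝ => h ^ ε) 0 :=
      Real.continuousAt_rpow_const 0 ε (Or.inr hε0.le)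
    have := h5.tendsto
    rw [Real.zero_rpow hε0.ne'] at this
    exact this.mono_left nhdsWithin_le_nhds
  have h6 := hlim.eventually (gt_mem_nhds hK10)
  have h7 : ∀ᶠ h : ℝ in 𝓝[>] 0, h ∈ Ioo (0 : ℝ) (min (1 / 4) (1 - r1)) :=
    Ioo_mem_nhdsGT (lt_min (by norm_num) (by linarith))
  obtain ⟨h, h8, h9⟩ := (h6.and h7).exists
  have := key h h9.1 (h9.2.le.trans (min_le_left _ _)) (h9.2.le.trans (min_le_right _ _))
  linarith

end Pool.Agent.StarN
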