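import Pool.Agent.StarN.NoMid

/-!
Integration by parts.
-/

namespace Pool.Agent.StarN

open Complex Metric Set Filter Topology MeasureTheory intervalIntegral Interval

variable {F : ℂ → ℂ}

lemma q_shift (μ : ℂ) (n : ℕ) : (1 + μ) * q (1 + μ) n = (n + μ) * q μ n := by
  rcases n with _ | n
  · simp [q]
  · induction n with
    | zero => simp [q]
    | succ n ih =>
      have h1 : q (1 + μ) (n + 1 + 1) = q (1 + μ) (n + 1) * ((1 + μ) + (n + 1)) / (n + 2) := rfl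
      have h2 : q μ (n + 1 + 1) = q μ (n + 1) * (μ + (n + 1)) / (n + 2) := rfl
      rw [h1, h2]
      have h3 : (n : ℂ) + 2 ≠ 0 := by exact_mod_cast (by omega : n + 2 ≠ 0)
      rw [← mul_div_assoc, ← mul_assoc, ih]
      field_simp
      push_cast
      ring

/-- `x F'(x) + μ F(x)` -/
noncomputable def Hf (F : ℂ → ℂ) (μ x : ℝ) : ℂ := (x : ℂ) * deriv F x + μ * F x

lemma tc_deriv (F : ℂ → ℂ) (n : ℕ) : tc (deriv F) n = (n + 1) * tc F (n + 1) := by
  unfold tc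
  rw [iteratedDeriv_succ', Nat.factorial_succ]
  have h1 : ((n.factorial : ℕ) : ℂ) ≠ 0 := by exact_mod_cast n.factorial_ne_zero
  have h2 : (n : ℂ) + 1 ≠ 0 := by exact_mod_cast n.succ_ne_zero
  push_cast
  field_simp

lemma hasSum_H (hd : DifferentiableOn ℂ F (ball 0 1)) (μ : ℝ) {x : ℝ} (hx0 : 0 ≤ x)
    (hx1 : x < 1) : HasSum (fun n : ℕ => tc F n * (n + μ) * (x : ℂ) ^ n) (Hf F μ x) := by
  have hmem : (x : ℂ) ∈ ball (0 : ℂ) 1 := by
    rw [mem_ball_zero_iff, Complex.norm_real, Real.norm_eq_abs, abs_of_nonneg hx0]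
    exact hx1
  have h1 := hasSum_tc (hd.deriv isOpen_ball) hmem
  have h2 := h1.mul_left (x : ℂ)
  have h3 : HasSum (fun n : ℕ => tc F n * n * (x : ℂ) ^ n) ((x : ℂ) * deriv F x) := by
    refine (hasSum_nat_add_iff' 1).mp ?_
    simp only [Finset.range_one, Finset.sum_singleton, Nat.cast_zero, mul_zero, zero_mul, sub_zero]
    have e : (fun n : ℕ => tc F (n + 1) * ((n + 1 : ℕ) : ℂ) * (x : ℂ) ^ (n + 1)) =
        fun i : ℕ => (x : ℂ) * (tc (deriv F) i * (x : ℂ) ^ i) := by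
      funext n
      rw [tc_deriv]
      push_cast
      ring
    rw [e]; exact h2
  have h4 := (hasSum_tc hd hmem).mul_left (μ : ℂ)
  have h5 := h3.add h4
  have e : (fun n : ℕ => tc F n * (n + μ) * (x : ℂ) ^ n) =
      fun n : ℕ => tc F n * n * (x : ℂ) ^ n + μ * (tc F n * (x : ℂ) ^ n) := by
    funext n; ring
  rw [e]; exact h5

lemma H_summable (hb : ∀ n, ‖tc F n‖ ≤ n) {μ : ℝ} (h0 : 0 < μ) (h1 : μ < 1) {r : ℝ}
    (hr : r ∈ Ioo (0 : ℝ) 1) : Summable fun n : ℕ => ‖tc F n * (n + (μ : ℂ))‖ * r ^ n := by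
  have h := (summable_choose (x := r) hr.1.le hr.2).mul_left 2
  refine Summable.of_nonneg_of_le (fun n => ?_) (fun n => ?_) h
  · have := hr.1
    positivity
  · rw [norm_mul]
    have e1 : ‖(n : ℂ) + (μ : ℂ)‖ ≤ n + 1 := by
      refine (norm_add_le _ _).trans ?_
      rw [Complex.norm_natCast, Complex.norm_real, Real.norm_eq_abs, abs_of_pos h0]
      linarith
    have e2 : (((n + 2).choose 2 : ℕ) : ℝ) = ((n : ℝ) + 1) * ((n : ℝ) + 2) / 2 := by
      rw [Nat.cast_choose_two]; push_cast; ring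
    rw [e2]
    have e3 := hb n
    have hr0 := hr.1
    have hn : (0 : ℝ) ≤ n := Nat.cast_nonneg n
    calc ‖tc F n‖ * ‖(n : ℂ) + (μ : ℂ)‖ * r ^ n ≤ n * (n + 1) * r ^ n := by gcongr
      _ ≤ (n + 2) * (n + 1) * r ^ n := by gcongr; linarith
      _ = _ := by ring

lemma H_bd (hb : ∀ n, ‖tc F n‖ ≤ n) (hd : DifferentiableOn ℂ F (ball 0 1)) {μ : ℝ} (h0 : 0 < μ)
    (h1 : μ < 1) {r : ℝ} (hr : r ∈ Ioo (0 : ℝ) 1) :
    ∃ C : ℝ, 0 ≤ C ∧ ∀ t ∈ Ioc (0 : ℝ) 1, ‖Hf F μ (t * r)‖ ≤ C * t := by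
  have hb0 : tc F 0 = 0 := by
    have := hb 0
    simpa using this
  have hs := H_summable hb h0 h1 hr
  refine ⟨∑' n : ℕ, ‖tc F n * (n + (μ : ℂ))‖ * r ^ n, tsum_nonneg (fun n => by
    have := hr.1
    positivity), fun t ht => ?_⟩
  have htr1 : t * r < 1 := by nlinarith [ht.1, ht.2, hr.1, hr.2]
  have hsum := hasSum_H hd μ (mul_nonneg ht.1.le hr.1.le) htr1
  rw [← hsum.tsum_eq]
  refine tsum_of_norm_bounded (hs.hasSum.mul_right t) (fun n => ?_)
  rcases n with _ | n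
  · rw [hb0]; simp
  · rw [norm_mul, norm_pow, Complex.norm_real, Real.norm_eq_abs,
      abs_of_pos (mul_pos ht.1 hr.1), mul_pow]
    have e1 : t ^ (n + 1) ≤ t := by
      calc t ^ (n + 1) ≤ t ^ 1 := pow_le_pow_of_le_one ht.1.le ht.2 (by omega)
        _ = t := pow_one t
    have e2 : 0 ≤ r ^ (n + 1) := pow_nonneg hr.1.le _
    calc ‖tc F (n + 1) * (((n + 1 : ℕ) : ℂ) + (μ : ℂ))‖ * (t ^ (n + 1) * r ^ (n + 1))
        ≤ ‖tc F (n + 1) * (((n + 1 : ℕ) : ℂ) + (μ : ℂ))‖ * (t * r ^ (n + 1)) := by gcongr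
      _ = _ := by ring

/-- the real function `t^μ Re(ω F(t r))` -/
noncomputable def pf (F : ℂ → ℂ) (ω : ℂ) (μ r t : ℝ) : ℝ := t ^ μ * (ω * F ((t * r : ℝ) : ℂ)).re

lemma pf_hasDerivAt (hd : DifferentiableOn ℂ F (ball 0 1)) (ω : ℂ) (μ : ℝ) {r : ℝ}
    (hr : r ∈ Ioo (0 : ℝ) 1) {t : ℝ} (ht : t ∈ Ioc (0 : ℝ) 1) :
    HasDerivAt (pf F ω μ r) (t ^ (μ - 1) * (ω * Hf F μ (t * r)).re) t := by
  have hmem : ((t * r : ℝ) : ℂ) ∈ ball (0 : ℂ) 1 := by
    rw [mem_ball_zero_iff, Complex.norm_real, Real.norm_eq_abs, abs_of_pos (mul_pos ht.1 hr.1)]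
    nlinarith [ht.1, ht.2, hr.1, hr.2]
  have h1 : HasDerivAt F (deriv F ((t * r : ℝ) : ℂ)) ((t * r : ℝ) : ℂ) :=
    (hd.differentiableAt (isOpen_ball.mem_nhds hmem)).hasDerivAt
  have h2 : HasDerivAt (fun z : ℂ => z * (r : ℂ)) (1 * (r : ℂ)) (t : ℂ) :=
    (hasDerivAt_id (t : ℂ)).mul_const (r : ℂ)
  have h3 : HasDerivAt (fun z : ℂ => ω * F (z * (r : ℂ)))
      (ω * (deriv F ((t * r : ℝ) : ℂ) * (1 * (r : ℂ)))) (t : ℂ) := by
    refine HasDerivAt.const_mul ω ?_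
    have e : ((t * r : ℝ) : ℂ) = (t : ℂ) * (r : ℂ) := by push_cast; ring
    rw [e] at h1 ⊢
    exact HasDerivAt.comp (t : ℂ) h1 h2
  have h4 := h3.comp_ofReal
  have h5 := Complex.reCLM.hasFDerivAt.comp_hasDerivAt t h4
  have h6 : HasDerivAt (fun x : ℝ => x ^ μ) (μ * t ^ (μ - 1)) t :=
    Real.hasDerivAt_rpow_const (Or.inl ht.1.ne')
  have h7 := h6.mul h5
  have e1 : (fun x : ℝ => x ^ μ) * (⇑Complex.reCLM ∘ fun y : ℝ => ω * F ((y : ℂ) * (r : ℂ))) =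
      pf F ω μ r := by
    funext x
    simp only [pf, Pi.mul_apply, Function.comp_apply, Complex.reCLM_apply]
    push_cast
    rfl
  rw [e1] at h7
  refine h7.congr_deriv ?_
  have e2 : t ^ μ = t ^ (μ - 1) * t := by
    rw [Real.rpow_sub_one ht.1.ne', div_mul_cancel₀ _ ht.1.ne']
  rw [e2]
  simp only [Function.comp_apply, Complex.reCLM_apply, Hf]
  have e3 : ω * (((t * r : ℝ) : ℂ) * deriv F ((t * r : ℝ) : ℂ) + μ * F ((t * r : ℝ) : ℂ)) =
      ((μ : ℝ) : ℂ) * (ω * F ((t * r : ℝ) : ℂ)) +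
        ((t : ℝ) : ℂ) * (ω * (deriv F ((t * r : ℝ) : ℂ) * (1 * (r : ℂ)))) := by
    push_cast; ring
  rw [e3, Complex.add_re, Complex.re_ofReal_mul, Complex.re_ofReal_mul]
  have e4 : (t : ℂ) * (r : ℂ) = ((t * r : ℝ) : ℂ) := by push_cast; ring
  rw [e4]
  ring

lemma pf_lip (hb : ∀ n, ‖tc F n‖ ≤ n) (hd : DifferentiableOn ℂ F (ball 0 1)) {ω : ℂ}
    (hω : ‖ω‖ = 1) {μ : ℝ} (h0 : 0 < μ) (h1 : μ < 1) {r : ℝ} (hr : r ∈ Ioo (0 : ℝ) 1) :
    ∃ C : ℝ, 0 ≤ C ∧ ∀ t ∈ Ioc (0 : ℝ) 1, |pf F ω μ r 1 - pf F ω μ r t| ≤ C * (1 - t) := by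
  obtain ⟨C, hC0, hC⟩ := H_bd hb hd h0 h1 hr
  refine ⟨C, hC0, fun t ht => ?_⟩
  have h2 := (convex_Icc t 1).norm_image_sub_le_of_norm_hasDerivWithin_le
    (f := pf F ω μ r) (f' := fun s => s ^ (μ - 1) * (ω * Hf F μ (s * r)).re) (C := C)
    (fun s hs => (pf_hasDerivAt hd ω μ hr ⟨by linarith [ht.1, hs.1], hs.2⟩).hasDerivWithinAt)
    (fun s hs => ?_) (left_mem_Icc.mpr ht.2) (right_mem_Icc.mpr ht.2)
  · rw [Real.norm_eq_abs, Real.norm_eq_abs, abs_of_nonneg (by linarith [ht.2] : 0 ≤ 1 - t)] at h2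
    exact h2
  · have hs0 : 0 < s := by linarith [ht.1, hs.1]
    have h3 := hC s ⟨hs0, hs.2⟩
    have h4 : |(ω * Hf F μ (s * r)).re| ≤ C * s := by
      refine (Complex.abs_re_le_norm _).trans ?_
      rw [norm_mul, hω, one_mul]
      exact h3
    rw [norm_mul, Real.norm_eq_abs, Real.norm_eq_abs, abs_of_pos (Real.rpow_pos_of_pos hs0 _)]
    have h5 : s ^ (μ - 1) * s = s ^ μ := by
      rw [Real.rpow_sub_one hs0.ne', div_mul_cancel₀ _ hs0.ne']
    have h6 : s ^ μ ≤ 1 := Real.rpow_le_one hs0.le hs.2 h0.le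
    calc s ^ (μ - 1) * |(ω * Hf F μ (s * r)).re| ≤ s ^ (μ - 1) * (C * s) := by gcongr
      _ = C * (s ^ (μ - 1) * s) := by ring
      _ ≤ C * 1 := by rw [h5]; gcongr
      _ = C := mul_one C

lemma pf_continuousOn (hd : DifferentiableOn ℂ F (ball 0 1)) {ω : ℂ} {μ : ℝ} (h0 : 0 < μ)
    {r : ℝ} (hr : r ∈ Ioo (0 : ℝ) 1) : ContinuousOn (pf F ω μ r) (Icc 0 1) := by
  unfold pf
  refine ContinuousOn.mul ?_ ?_
  · exact (Real.continuous_rpow_const h0.le).continuousOn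
  · exact Complex.continuous_re.comp_continuousOn (continuousOn_const.mul (cont_F hd hr))

/-- integration by parts -/
lemma parts (hb : ∀ n, ‖tc F n‖ ≤ n) (hd : DifferentiableOn ℂ F (ball 0 1)) {ω : ℂ}
    (hω : ‖ω‖ = 1) {μ : ℝ} (h0 : 0 < μ) (h1 : μ < 1) {r : ℝ} (hr : r ∈ Ioo (0 : ℝ) 1)
    (hint : IntervalIntegrable
      (fun t => t ^ (μ - 1) * (1 - t) ^ (-μ) * (ω * Hf F μ (t * r)).re) volume 0 1) :
    ∫ t in (0 : ℝ)..1, t ^ (μ - 1) * (1 - t) ^ (-μ) * (ω * Hf F μ (t * r)).re =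
      pf F ω μ r 1 + μ * ∫ t in (0 : ℝ)..1, (1 - t) ^ (-μ - 1) * (pf F ω μ r 1 - pf F ω μ r t) ∧
    IntervalIntegrable (fun t => (1 - t) ^ (-μ - 1) * (pf F ω μ r 1 - pf F ω μ r t)) volume 0 1 := by
  obtain ⟨C, hC0, hC⟩ := pf_lip hb hd hω h0 h1 hr
  have hcont := pf_continuousOn (ω := ω) hd h0 hr
  have hI2 : IntervalIntegrable (fun t => (1 - t) ^ (-μ - 1) * (pf F ω μ r 1 - pf F ω μ r t))
      volume 0 1 := by
    have hdom := (one_sub_integrable (a := 0) (b := 1) (by linarith : 0 < 1 - μ)).const_mul C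
    refine hdom.mono_fun' ?_ ?_
    · rw [uIoc_of_le zero_le_one, ← restrict_Ioo_eq_restrict_Ioc]
      refine ContinuousOn.aestronglyMeasurable ?_ measurableSet_Ioo
      refine ContinuousOn.mul ?_ (continuousOn_const.sub (hcont.mono Ioo_subset_Icc_self))
      intro t ht
      exact ((continuousAt_const.sub continuousAt_id).rpow_const
        (Or.inl (sub_pos.mpr ht.2).ne')).continuousWithinAt
    · rw [uIoc_of_le zero_le_one, ← restrict_Ioo_eq_restrict_Ioc, Filter.EventuallyLE,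
        ae_restrict_iff' measurableSet_Ioo]
      refine Eventually.of_forall (fun t ht => ?_)
      have h1t : 0 < 1 - t := by linarith [ht.2]
      rw [norm_mul, Real.norm_eq_abs, Real.norm_eq_abs, abs_of_pos (Real.rpow_pos_of_pos h1t _)]
      have h2 := hC t ⟨ht.1, ht.2.le⟩
      have h3 : (1 - t) ^ (-μ - 1) * (1 - t) = (1 - t) ^ (1 - μ - 1) := by
        rw [Real.rpow_sub_one h1t.ne', div_mul_cancel₀ _ h1t.ne']
        congr 1; ring
      calc (1 - t) ^ (-μ - 1) * |pf F ω μ r 1 - pf F ω μ r t|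
          ≤ (1 - t) ^ (-μ - 1) * (C * (1 - t)) := by gcongr
        _ = C * ((1 - t) ^ (-μ - 1) * (1 - t)) := by ring
        _ = _ := by rw [h3]
  refine ⟨?_, hI2⟩
  -- the primitive
  set Φ : ℝ → ℝ := fun t => (1 - t) ^ (-μ) * (pf F ω μ r t - pf F ω μ r 1) with hΦ
  have hΦc : ContinuousOn Φ (Icc 0 1) := by
    intro t ht
    rcases ht.2.lt_or_eq with h | h
    · refine ContinuousWithinAt.mul ?_ ((hcont t ht).sub continuousWithinAt_const)
      exact ((continuousAt_const.sub continuousAt_id).rpow_const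
        (Or.inl (sub_pos.mpr h).ne')).continuousWithinAt
    · subst h
      have hΦ1 : Φ 1 = 0 := by simp [hΦ]
      rw [ContinuousWithinAt, hΦ1]
      have hlim : Tendsto (fun s : ℝ => C * (1 - s) ^ (1 - μ)) (𝓝[Icc 0 1] 1) (𝓝 0) := by
        have h5 : ContinuousAt (fun s : ℝ => C * (1 - s) ^ (1 - μ)) 1 := by
          refine ContinuousAt.mul continuousAt_const ?_
          exact (continuousAt_const.sub continuousAt_id).rpow_const (Or.inr (by linarith))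
        have h6 := h5.tendsto
        rw [sub_self, Real.zero_rpow (by linarith), mul_zero] at h6
        exact h6.mono_left nhdsWithin_le_nhds
      refine squeeze_zero_norm' ?_ hlim
      have h7 : ∀ᶠ s : ℝ in 𝓝[Icc 0 1] 1, s ∈ Ioi (0 : ℝ) :=
        mem_nhdsWithin_of_mem_nhds (Ioi_mem_nhds (by norm_num))
      filter_upwards [self_mem_nhdsWithin, h7] with s hs hs0
      rcases hs.2.lt_or_eq with h | h
      · have h1s : 0 < 1 - s := by linarith
        have h2 := hC s ⟨hs0, hs.2⟩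
        rw [abs_sub_comm] at h2
        simp only [hΦ]
        rw [norm_mul, Real.norm_eq_abs, Real.norm_eq_abs, abs_of_pos (Real.rpow_pos_of_pos h1s _)]
        have h3 : (1 - s) ^ (1 - μ) = (1 - s) ^ (-μ) * (1 - s) := by
          rw [show (1 - μ) = -μ + 1 by ring, Real.rpow_add_one h1s.ne']
        rw [h3]
        calc (1 - s) ^ (-μ) * |pf F ω μ r s - pf F ω μ r 1| ≤ (1 - s) ^ (-μ) * (C * (1 - s)) := by
              gcongr
          _ = _ := by ring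
      · rw [h, hΦ1, norm_zero, sub_self, Real.zero_rpow (by linarith), mul_zero]
  have hΦd : ∀ t ∈ Ioo (0 : ℝ) 1, HasDerivAt Φ
      (t ^ (μ - 1) * (1 - t) ^ (-μ) * (ω * Hf F μ (t * r)).re -
        μ * ((1 - t) ^ (-μ - 1) * (pf F ω μ r 1 - pf F ω μ r t))) t := by
    intro t ht
    have h1t : 0 < 1 - t := by linarith [ht.2]
    have g1 := pf_hasDerivAt hd ω μ hr ⟨ht.1, ht.2.le⟩
    have g2 : HasDerivAt (fun t : ℝ => (1 - t) ^ (-μ)) (-1 * (-μ) * (1 - t) ^ (-μ - 1)) t := by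
      have := ((hasDerivAt_const t (1 : ℝ)).sub (hasDerivAt_id t)).rpow_const (p := -μ)
        (Or.inl (by simpa using h1t.ne'))
      simpa using this
    have g3 := g2.mul (g1.sub_const (pf F ω μ r 1))
    refine g3.congr_deriv ?_
    ring
  have hint2 : IntervalIntegrable (fun t => t ^ (μ - 1) * (1 - t) ^ (-μ) *
      (ω * Hf F μ (t * r)).re - μ * ((1 - t) ^ (-μ - 1) * (pf F ω μ r 1 - pf F ω μ r t)))
      volume 0 1 := hint.sub (hI2.const_mul μ)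
  have hftc := intervalIntegral.integral_eq_sub_of_hasDerivAt_of_le zero_le_one hΦc hΦd hint2
  rw [intervalIntegral.integral_sub hint (hI2.const_mul μ),
    intervalIntegral.integral_const_mul] at hftc
  have hΦ1 : Φ 1 = 0 := by simp [hΦ]
  have hΦ0 : Φ 0 = -pf F ω μ r 1 := by
    simp only [hΦ, sub_zero, Real.one_rpow, one_mul]
    have : pf F ω μ r 0 = 0 := by simp [pf, Real.zero_rpow h0.ne']
    rw [this]; ring
  rw [hΦ1, hΦ0] at hftc
  linarith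

end Pool.Agent.StarN
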