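import Pool.Agent.StarN.Classify

/-!
(N) implies `Re (z F'(z) / F(z)) > 0`.
-/

namespace Pool.Agent.StarN

open Complex Metric Set Filter Topology MeasureTheory

variable {F : ℂ → ℂ}

/-- `w = z / (1 - z)` -/
noncomputable def wf (z : ℂ) : ℂ := z / (1 - z)

lemma wf_re {z : ℂ} (hz : ‖z‖ < 1) : -1 / 2 < (wf z).re := by
  have h1 : 1 - z ≠ 0 := one_sub_ne hz
  have h2 : 2 * wf z + 1 = (1 + z) / (1 - z) := by
    unfold wf; field_simp; ring
  have h3 : 0 < ((1 + z) / (1 - z)).re := by
    rw [Complex.div_re, ← add_div]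
    refine div_pos ?_ (Complex.normSq_pos.mpr h1)
    simp only [Complex.add_re, Complex.sub_re, Complex.one_re, Complex.add_im, Complex.sub_im,
      Complex.one_im]
    have h4 : z.re * z.re + z.im * z.im < 1 := by
      have : ‖z‖ ^ 2 < 1 := by nlinarith [norm_nonneg z]
      rwa [Complex.sq_norm, Complex.normSq_apply] at this
    nlinarith
  rw [← h2] at h3
  simp at h3
  linarith

lemma wf_inj {z1 z2 : ℂ} (h1 : ‖z1‖ < 1) (h2 : ‖z2‖ < 1) (h : wf z1 = wf z2) : z1 = z2 := by
  unfold wf at h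
  have e1 := one_sub_ne h1
  have e2 := one_sub_ne h2
  rw [div_eq_div_iff e1 e2] at h
  linear_combination h

/-- the test functions -/
noncomputable def fx (x z : ℂ) : ℂ := wf z + (1 + x) / 2 * wf z ^ 2

lemma hasSum_fx (x : ℂ) {z : ℂ} (hz : z ∈ ball (0 : ℂ) 1) :
    HasSum (fun n : ℕ => ((1 + x) / 2 * n + (if n = 0 then 0 else (1 - x) / 2)) * z ^ n) (fx x z) := by
  rw [mem_ball_zero_iff] at hz
  have h1 := one_sub_ne hz
  have g1 : HasSum (fun n : ℕ => (n : ℂ) * z ^ n) (z / (1 - z) ^ 2) :=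
    hasSum_coe_mul_geometric_of_norm_lt_one hz
  have g2 : HasSum (fun n : ℕ => z ^ n) (1 - z)⁻¹ := hasSum_geometric_of_norm_lt_one hz
  have g3 : HasSum (fun n : ℕ => (if n = 0 then (1 : ℂ) else 0)) 1 := hasSum_ite_eq 0 1
  have g4 := (g1.mul_left ((1 + x) / 2)).add ((g2.sub g3).mul_left ((1 - x) / 2))
  have e1 : (1 + x) / 2 * (z / (1 - z) ^ 2) + (1 - x) / 2 * ((1 - z)⁻¹ - 1) = fx x z := by
    unfold fx wf
    field_simp
    ring
  rw [e1] at g4
  have e2 : (fun n : ℕ => ((1 + x) / 2 * n + (if n = 0 then 0 else (1 - x) / 2)) * z ^ n) =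
      fun n : ℕ => (1 + x) / 2 * ((n : ℂ) * z ^ n) +
        (1 - x) / 2 * (z ^ n - (if n = 0 then (1 : ℂ) else 0)) := by
    funext n
    rcases n with _ | n
    · simp
    · simp; ring
  rw [e2]; exact g4

lemma tc_fx (x : ℂ) (n : ℕ) :
    tc (fx x) n = (1 + x) / 2 * n + (if n = 0 then 0 else (1 - x) / 2) :=
  tc_of_hasSum (a := fun n : ℕ => (1 + x) / 2 * n + (if n = 0 then 0 else (1 - x) / 2))
    (fun _ hz => hasSum_fx x hz) n

lemma fx_mem {x : ℂ} (hx : ‖x‖ ≤ 1) : fx x ∈ ClassS := by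
  refine ⟨?_, ?_, ?_, ?_⟩
  · intro z hz
    rw [mem_ball_zero_iff] at hz
    have h1 : DifferentiableAt ℂ wf z := by
      unfold wf
      exact differentiableAt_id.div ((differentiableAt_const 1).sub differentiableAt_id)
        (one_sub_ne hz)
    unfold fx
    exact (h1.add ((differentiableAt_const _).mul (h1.pow 2))).differentiableWithinAt
  · intro z1 hz1 z2 hz2 he
    rw [mem_ball_zero_iff] at hz1 hz2
    unfold fx at he
    have h1 : (wf z1 - wf z2) * (1 + (1 + x) / 2 * (wf z1 + wf z2)) = 0 := by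
      linear_combination he
    rcases mul_eq_zero.mp h1 with h | h
    · exact wf_inj hz1 hz2 (sub_eq_zero.mp h)
    · exfalso
      have hre1 := wf_re hz1
      have hre2 := wf_re hz2
      set s : ℂ := wf z1 + wf z2 with hs
      have hsre : -1 < s.re := by rw [hs, Complex.add_re]; linarith
      -- (1 + x) s = -2
      have h2 : (1 + x) * s = -2 := by linear_combination 2 * h
      have h3 : ‖1 + x‖ ^ 2 * s.re = -2 * (1 + x.re) := by
        have h4 : (starRingEnd ℂ) (1 + x) * ((1 + x) * s) = ((‖1 + x‖ ^ 2 : ℝ) : ℂ) * s := by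
          rw [← mul_assoc, mul_comm ((starRingEnd ℂ) (1 + x)), Complex.mul_conj,
            Complex.normSq_eq_norm_sq]
        rw [h2] at h4
        have h5 := congrArg Complex.re h4
        rw [Complex.re_ofReal_mul] at h5
        rw [← h5]
        simp
        ring
      have h6 : ‖1 + x‖ ^ 2 ≤ 2 * (1 + x.re) := by
        have : ‖x‖ ^ 2 ≤ 1 := by nlinarith [norm_nonneg x]
        rw [Complex.sq_norm, Complex.normSq_apply] at this ⊢
        simp only [Complex.add_re, Complex.one_re, Complex.add_im, Complex.one_im]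
        nlinarith
      have h7 : 0 < ‖1 + x‖ ^ 2 := by
        have : 1 + x ≠ 0 := by
          intro h0
          rw [h0, zero_mul] at h2
          norm_num at h2
        have := norm_pos_iff.mpr this
        positivity
      nlinarith
  · simp [fx, wf]
  · rw [← tc_one, tc_fx]
    simp
    ring

/-- The convolution with the test functions. -/
lemma had_fx (hd : DifferentiableOn ℂ F (ball 0 1)) (h0 : F 0 = 0) (x : ℂ) {z : ℂ}
    (hz : z ∈ ball (0 : ℂ) 1) :
    had F (fx x) z = (1 + x) / 2 * (z * deriv F z) + (1 - x) / 2 * F z := by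
  have g1 := (hasSum_tc (hd.deriv isOpen_ball) hz).mul_left z
  have g2 : HasSum (fun n : ℕ => tc F n * n * z ^ n) (z * deriv F z) := by
    refine (hasSum_nat_add_iff' 1).mp ?_
    simp only [Finset.range_one, Finset.sum_singleton, Nat.cast_zero, mul_zero, zero_mul, sub_zero]
    have e : (fun n : ℕ => tc F (n + 1) * ((n + 1 : ℕ) : ℂ) * z ^ (n + 1)) =
        fun i : ℕ => z * (tc (deriv F) i * z ^ i) := by
      funext n
      rw [tc_deriv]
      push_cast
      ring
    rw [e]; exact g1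
  have g3 := (g2.mul_left ((1 + x) / 2)).add ((hasSum_tc hd hz).mul_left ((1 - x) / 2))
  rw [← g3.tsum_eq]
  unfold had
  congr 1
  funext n
  rw [tc_fx]
  rcases n with _ | n
  · rw [tc_zero, h0]; simp
  · simp; ring

lemma PropN.F_ne (hN : PropN F) (hd : DifferentiableOn ℂ F (ball 0 1)) (h0 : F 0 = 0) {z : ℂ}
    (hz : 0 < ‖z‖) (hz1 : ‖z‖ < 1) : F z ≠ 0 := by
  have h := hN (fx (-1)) (fx_mem (by simp)) z hz hz1
  rw [had_fx hd h0 _ (by rw [mem_ball_zero_iff]; exact hz1)] at h
  intro h2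
  apply h
  rw [h2]; ring

lemma PropN.re_pos (hN : PropN F) (hd : DifferentiableOn ℂ F (ball 0 1)) (h0 : F 0 = 0) {z : ℂ}
    (hz : 0 < ‖z‖) (hz1 : ‖z‖ < 1) : 0 < (z * deriv F z / F z).re := by
  by_contra hcon
  push Not at hcon
  set p : ℂ := z * deriv F z / F z with hp
  have hF0 := hN.F_ne hd h0 hz hz1
  have hpF : z * deriv F z = p * F z := by rw [hp]; field_simp
  have h1p : 1 - p ≠ 0 := by
    intro h
    have := congrArg Complex.re h
    simp at this
    linarith
  set x : ℂ := (1 + p) / (1 - p) with hx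
  have hxn : ‖x‖ ≤ 1 := by
    rw [hx, norm_div, div_le_one (norm_pos_iff.mpr h1p)]
    have : ‖1 + p‖ ^ 2 ≤ ‖1 - p‖ ^ 2 := by
      rw [Complex.sq_norm, Complex.sq_norm, Complex.normSq_apply, Complex.normSq_apply]
      simp only [Complex.add_re, Complex.one_re, Complex.add_im, Complex.one_im, Complex.sub_re,
        Complex.sub_im]
      nlinarith
    exact le_of_sq_le_sq this (norm_nonneg _)
  have h := hN (fx x) (fx_mem hxn) z hz hz1
  rw [had_fx hd h0 _ (by rw [mem_ball_zero_iff]; exact hz1), hpF] at h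
  apply h
  have : (1 + x) / 2 * p + (1 - x) / 2 = 0 := by
    rw [hx]; field_simp; ring
  linear_combination F z * this

end Pool.Agent.StarN
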