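import Pool.Agent.StarN.IntF
import Pool.Agent.StarN.Meas

/-!
Upper bounds for `Gs` near the base points.
-/

namespace Pool.Agent.StarN

open Complex Metric Set Filter Topology MeasureTheory intervalIntegral Interval

lemma ae_mem_Ioo : ∀ᵐ t : ℝ, t ∈ Ioc (0 : ℝ) 1 → t ∈ Ioo (0 : ℝ) 1 := by
  have : ∀ᵐ t : ℝ, t ≠ 1 := by
    rw [ae_iff]; simp
  filter_upwards [this] with t ht h
  exact ⟨h.1, lt_of_le_of_ne h.2 ht⟩

lemma W_int_le {μ : ℂ} {α β c' C : ℝ} {N : ℕ} (hα : -1 < α) (hβ : -1 < β)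
    (h1 : α ≤ μ.re - 1 + N) (h2 : β ≤ -μ.re - c') (hC : 0 ≤ C) {A : ℝ → ℂ}
    (hA : ∀ t ∈ Ioo (0 : ℝ) 1, ‖A t‖ ≤ C * t ^ N * (1 - t) ^ (-c')) :
    ‖∫ t in (0 : ℝ)..1, W μ t * A t‖ ≤ C * ∫ t in (0 : ℝ)..1, t ^ α * (1 - t) ^ β := by
  rw [← intervalIntegral.integral_const_mul]
  refine intervalIntegral.norm_integral_le_of_norm_le zero_le_one ?_
    ((real_beta_integrable hα hβ).const_mul C)
  filter_upwards [ae_mem_Ioo] with t ht h
  have ht' := ht h
  have h1t : 0 < 1 - t := by linarith [ht'.2]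
  rw [norm_mul, norm_W ht']
  have e1 : t ^ (μ.re - 1) * t ^ N ≤ t ^ α := by
    rw [← Real.rpow_natCast t N, ← Real.rpow_add ht'.1]
    exact Real.rpow_le_rpow_of_exponent_ge ht'.1 ht'.2.le h1
  have e2 : (1 - t) ^ (-μ.re) * (1 - t) ^ (-c') ≤ (1 - t) ^ β := by
    rw [← Real.rpow_add h1t]
    exact Real.rpow_le_rpow_of_exponent_ge h1t (by linarith [ht'.1]) (by linarith)
  have p1 : 0 ≤ t ^ (μ.re - 1) := Real.rpow_nonneg ht'.1.le _
  have p2 : 0 ≤ (1 - t) ^ (-μ.re) := Real.rpow_nonneg h1t.le _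
  have p3 : 0 ≤ (1 - t) ^ (-c') := Real.rpow_nonneg h1t.le _
  have p4 : 0 ≤ t ^ N := pow_nonneg ht'.1.le N
  have p5 : 0 ≤ t ^ α := Real.rpow_nonneg ht'.1.le _
  calc t ^ (μ.re - 1) * (1 - t) ^ (-μ.re) * ‖A t‖
      ≤ t ^ (μ.re - 1) * (1 - t) ^ (-μ.re) * (C * t ^ N * (1 - t) ^ (-c')) := by
        gcongr; exact hA t ht'
    _ = C * ((t ^ (μ.re - 1) * t ^ N) * ((1 - t) ^ (-μ.re) * (1 - t) ^ (-c'))) := by ring
    _ ≤ C * (t ^ α * (1 - t) ^ β) := by gcongr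

lemma κ_continuous : Continuous κ := by
  have h : κ = fun μ => (μ + 1) * ((Complex.Gamma (μ + 2))⁻¹ * (Complex.Gamma (1 - μ))⁻¹) := by
    funext μ
    unfold κ
    rw [div_eq_mul_inv, mul_inv]
  rw [h]
  have hg := Complex.differentiable_one_div_Gamma.continuous
  exact (continuous_id.add continuous_const).mul
    ((hg.comp (continuous_id.add continuous_const)).mul
      (hg.comp (continuous_const.sub continuous_id)))

lemma κ_bound : ∃ K : ℝ, 0 < K ∧ ∀ μ : ℂ, ‖μ‖ ≤ 3 → ‖κ μ‖ ≤ K := by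
  obtain ⟨K, hK⟩ := (isCompact_closedBall (0 : ℂ) 3).exists_bound_of_continuousOn
    κ_continuous.continuousOn
  exact ⟨max K 1, by positivity, fun μ hμ =>
    (hK μ (mem_closedBall_zero_iff.mpr hμ)).trans (le_max_left _ _)⟩

lemma κ_pos {μ : ℝ} (h1 : -1 < μ) (h2 : μ < 1) : κ (μ : ℂ) ≠ 0 := by
  unfold κ
  have g1 : Complex.Gamma ((μ : ℂ) + 2) ≠ 0 := Complex.Gamma_ne_zero_of_re_pos (by simp; linarith)
  have g2 : Complex.Gamma (1 - (μ : ℂ)) ≠ 0 := Complex.Gamma_ne_zero_of_re_pos (by simp; linarith)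
  have g3 : (μ : ℂ) + 1 ≠ 0 := by
    intro h
    have := congrArg Complex.re h
    simp at this
    linarith
  exact div_ne_zero g3 (mul_ne_zero g1 g2)

variable {m : Measure 𝕊} [IsProbabilityMeasure m] {F : ℂ → ℂ}

/-- the Taylor series on the radius -/
lemma hasSum_F (hd : DifferentiableOn ℂ F (ball 0 1)) {x : ℝ} (hx0 : 0 ≤ x) (hx1 : x < 1) :
    HasSum (fun n => tc F n * (x : ℂ) ^ n) (F x) := by
  refine hasSum_tc hd ?_
  rw [mem_ball_zero_iff, Complex.norm_real, Real.norm_eq_abs, abs_of_nonneg hx0]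
  exact hx1

lemma summable_abs {b : ℕ → ℂ} (hb : ∀ n, ‖b n‖ ≤ n) {x : ℝ} (hx0 : 0 ≤ x) (hx1 : x < 1) :
    Summable fun n => ‖b n‖ * x ^ n := by
  have h : Summable fun n : ℕ => (n : ℝ) * x ^ n := by
    have := (hasSum_coe_mul_geometric_of_norm_lt_one (𝕜 := ℝ) (r := x)
      (by rwa [Real.norm_eq_abs, abs_of_nonneg hx0])).summable
    exact this
  refine Summable.of_nonneg_of_le (fun n => by positivity) (fun n => ?_) h
  have := hb n
  gcongr

/-- the first coefficient removed -/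
noncomputable def rm (b : ℕ → ℂ) (n : ℕ) : ℂ := if n < 2 then 0 else b n

lemma rm_le {b : ℕ → ℂ} (hb : ∀ n, ‖b n‖ ≤ n) (n : ℕ) : ‖rm b n‖ ≤ n := by
  unfold rm
  split_ifs
  · simp
  · exact hb n

lemma hasSum_rm {b : ℕ → ℂ} {z S : ℂ} (hb0 : b 0 = 0) (hS : HasSum (fun n => b n * z ^ n) S) :
    HasSum (fun n => rm b n * z ^ n) (S - b 1 * z) := by
  have h2 : HasSum (fun n => (if n = 1 then b 1 * z else 0)) (b 1 * z) := hasSum_ite_eq 1 _
  have h3 := hS.sub h2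
  have e : (fun n => rm b n * z ^ n) =
      fun n => b n * z ^ n - (if n = 1 then b 1 * z else 0) := by
    funext n
    rcases n with _ | _ | n
    · simp [rm, hb0]
    · simp [rm]
    · simp [rm]
  rw [e]; exact h3

lemma Gs_rm {b : ℕ → ℂ} (hb : ∀ n, ‖b n‖ ≤ n) {μ z : ℂ} (hμ : ‖μ‖ ≤ 2) (hz : ‖z‖ < 1) :
    Gs b μ z = b 1 * z + Gs (rm b) μ z := by
  have hb0 : b 0 = 0 := by
    have := hb 0
    simpa using this
  have hs := Gs_summable hb hμ hz
  have h2 : HasSum (fun n => (if n = 1 then b 1 * z else 0)) (b 1 * z) := hasSum_ite_eq 1 _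
  have h3 := (hs.hasSum.sub h2).tsum_eq
  have e : (fun n => rm b n * q μ n * z ^ n) =
      fun n => b n * q μ n * z ^ n - (if n = 1 then b 1 * z else 0) := by
    funext n
    rcases n with _ | _ | n
    · simp [rm, hb0]
    · simp [rm, q]
    · simp [rm]
  have h4 : Gs (rm b) μ z = Gs b μ z - b 1 * z := by
    unfold Gs
    rw [e]; exact h3
  rw [h4]; ring

lemma q_neg_one (n : ℕ) : q (-1) (n + 2) = 0 := by
  induction n with
  | zero => simp [q]
  | succ n ih =>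
    have : q (-1) (n + 1 + 2) = q (-1) (n + 2) * (-1 + ((n + 1 : ℕ) + 1)) / ((n + 1 : ℕ) + 2) := rfl
    rw [this, ih]; simp

lemma Gs_neg_one (b : ℕ → ℂ) (hb0 : b 0 = 0) (z : ℂ) : Gs b (-1) z = b 1 * z := by
  unfold Gs
  have h2 : HasSum (fun n => (if n = 1 then b 1 * z else 0)) (b 1 * z) := hasSum_ite_eq 1 _
  rw [← h2.tsum_eq]
  congr 1
  funext n
  rcases n with _ | _ | n
  · simp [hb0]
  · simp [q]
  · rw [q_neg_one]; simp

/-- the function without the linear term -/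
lemma F2_bound (hb : ∀ n, ‖tc F n‖ ≤ n) (h1 : deriv F 0 = 1)
    (hd : DifferentiableOn ℂ F (ball 0 1)) (hF : ∀ z ∈ ball (0 : ℂ) 1, F z = starF m z) {c' : ℝ}
    (hc : 2 * m.real {e1} < c') :
    ∃ C : ℝ, 0 < C ∧ ∀ x ∈ Ioo (0 : ℝ) 1, ‖F (x : ℂ) - x‖ ≤ C * x ^ 2 * (1 - x) ^ (-c') := by
  obtain ⟨C, hC0, hC⟩ := starF_upper hc
  have hc0 : 0 ≤ c' := le_trans (by positivity) hc.le
  refine ⟨2 * C + 2 + 16, by positivity, fun x hx => ?_⟩
  have h1x : 0 < 1 - x := by linarith [hx.2]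
  have hone : 1 ≤ (1 - x) ^ (-c') :=
    Real.one_le_rpow_of_pos_of_le_one_of_nonpos h1x (by linarith [hx.1]) (by linarith)
  have hmem : (x : ℂ) ∈ ball (0 : ℂ) 1 := by
    rw [mem_ball_zero_iff]; exact norm_real_lt hx
  rcases le_total (1 / 2) x with hh | hh
  · have h2 : ‖F (x : ℂ) - x‖ ≤ C * x * (1 - x) ^ (-c') + x := by
      refine (norm_sub_le _ _).trans ?_
      rw [hF _ hmem]
      have := hC x hx
      rw [norm_real_eq hx]
      linarith
    have hx2 : x ≤ 2 * x ^ 2 := by nlinarith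
    have h3 : C * x * (1 - x) ^ (-c') ≤ C * (2 * x ^ 2) * (1 - x) ^ (-c') := by gcongr
    have h4 : x ≤ 2 * x ^ 2 * (1 - x) ^ (-c') := by
      have : 2 * x ^ 2 * 1 ≤ 2 * x ^ 2 * (1 - x) ^ (-c') := by gcongr
      linarith
    have h5 : 0 ≤ x ^ 2 * (1 - x) ^ (-c') := by positivity
    nlinarith
  · have hb0 : tc F 0 = 0 := by
      have := hb 0
      simpa using this
    have hb1 : tc F 1 = 1 := by rw [tc_one, h1]
    have hs := hasSum_rm hb0 (hasSum_F hd hx.1.le hx.2)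
    rw [hb1, one_mul] at hs
    have h6 : ‖F (x : ℂ) - x‖ ≤ x ^ 2 * (2 / (1 - x) ^ 3) := by
      rw [← hs.tsum_eq, hs.summable.tsum_eq_zero_add, (summable_nat_add_iff 1 |>.mpr
        hs.summable).tsum_eq_zero_add]
      have hz0 : rm (tc F) 0 * (x : ℂ) ^ 0 = 0 := by simp [rm]
      have hz1 : rm (tc F) (0 + 1) * (x : ℂ) ^ (0 + 1) = 0 := by simp [rm]
      rw [hz0, hz1, zero_add, zero_add]
      have hg : HasSum (fun m : ℕ => ((m + 2).choose 2 : ℝ) * x ^ m) (1 / (1 - x) ^ (2 + 1)) :=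
        hasSum_choose_mul_geometric_of_norm_lt_one 2 (by
          rw [Real.norm_eq_abs, abs_of_pos hx.1]; exact hx.2)
      have hg2 := hg.mul_left (x ^ 2 * 2)
      have e2 : x ^ 2 * 2 * (1 / (1 - x) ^ (2 + 1)) = x ^ 2 * (2 / (1 - x) ^ 3) := by ring
      rw [e2] at hg2
      refine tsum_of_norm_bounded hg2 (fun k => ?_)
      rw [norm_mul, norm_pow, norm_real_eq hx]
      have h7 : ‖rm (tc F) (k + 1 + 1)‖ ≤ 2 * ((k + 2).choose 2 : ℝ) := by
        refine (rm_le hb _).trans ?_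
        have : (((k + 2).choose 2 : ℕ) : ℝ) = ((k : ℝ) + 1) * ((k : ℝ) + 2) / 2 := by
          rw [Nat.cast_choose_two]; push_cast; ring
        rw [this]
        push_cast
        have hk : (0 : ℝ) ≤ k := Nat.cast_nonneg k
        nlinarith
      calc ‖rm (tc F) (k + 1 + 1)‖ * x ^ (k + 1 + 1)
          ≤ (2 * ((k + 2).choose 2 : ℝ)) * x ^ (k + 1 + 1) := by
            have := hx.1
            gcongr
        _ = x ^ 2 * 2 * (((k + 2).choose 2 : ℝ) * x ^ k) := by ring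
    have h8 : 2 / (1 - x) ^ 3 ≤ 16 := by
      rw [div_le_iff₀ (by positivity)]
      have : (1 / 2 : ℝ) ^ 3 ≤ (1 - x) ^ 3 := by
        apply pow_le_pow_left₀ (by norm_num); linarith
      nlinarith
    have h9 : x ^ 2 * (2 / (1 - x) ^ 3) ≤ x ^ 2 * 16 * (1 - x) ^ (-c') := by
      calc x ^ 2 * (2 / (1 - x) ^ 3) ≤ x ^ 2 * 16 * 1 := by
            have : 0 ≤ x ^ 2 := by positivity
            nlinarith
        _ ≤ _ := by gcongr
    have h10 : 0 ≤ x ^ 2 * (1 - x) ^ (-c') := by positivity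
    nlinarith

end Pool.Agent.StarN
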